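import Pool.Agent.N618.TB.Dp

/-!
# The bracket
-/

set_option linter.unusedSectionVars false

namespace Pool.Agent.N202.TB

open Matrix
open Pool.Agent.N996.BP
open Pool.Agent.N618.TB (mk mk_mul mk_inj kp_mk kp_mk0 mk_fst mk_snd)

variable {ι : Type} [Fintype ι] [DecidableEq ι] {κ : Type} [Fintype κ] [DecidableEq κ]

/-- Conjugation. -/
lemma dp_conj {R : Type} [CommRing R] {g g' : Matrix ι ι R} (h : g * g' = 1) (y : Matrix ι ι R) :
    kp κ g * dp κ y * kp κ g' = dp κ (g * y * g') := by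
  have h1 : mk g 0 * mk 1 y * mk g' 0 = mk 1 (g * y * g') := by
    rw [mk_mul, mk_mul]
    simp only [Matrix.mul_one, Matrix.mul_zero, Matrix.zero_mul, add_zero, zero_add, h]
  have h2 := congrArg (kp κ) h1
  rw [kp_mul, kp_mul, kp_mk0, kp_mk0, kp_mk, kp_mk, mk_mul, mk_mul] at h2
  have h3 := mk_inj h2
  simp only [Matrix.mul_one, Matrix.mul_zero, Matrix.zero_mul, add_zero, zero_add] at h3
  exact h3

lemma dp_mk {R : Type} [CommRing R] (A B : Matrix ι ι R) :
    dp κ (mk A B) = mk (dp κ A) (dp κ B) := by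
  have hp : ∀ (v w : κ → ι) (s : Finset κ), (∏ j ∈ s, (if v j = w j then (1 : DualNumber R) else 0)) =
      TrivSqZeroExt.inl (∏ j ∈ s, (if v j = w j then (1 : R) else 0)) := by
    intro v w s
    induction s using Finset.induction_on with
    | empty => simp
    | insert a s ha ih =>
      rw [Finset.prod_insert ha, Finset.prod_insert ha, ih]
      split_ifs <;> simp
  ext v w
  · rw [mk_fst]
    simp only [dp, Matrix.of_apply, TrivSqZeroExt.fst_sum, TrivSqZeroExt.fst_mul, mk_fst, hp,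
      TrivSqZeroExt.fst_inl]
  · rw [mk_snd]
    simp only [dp, Matrix.of_apply, TrivSqZeroExt.snd_sum, TrivSqZeroExt.snd_mul, mk_fst, mk_snd, hp,
      TrivSqZeroExt.snd_inl, TrivSqZeroExt.fst_inl, smul_zero, zero_add,
      MulOpposite.smul_eq_mul_unop, MulOpposite.unop_op]

/-- The bracket. -/
theorem dp_bracket {R : Type} [CommRing R] (x y : Matrix ι ι R) :
    dp κ (x * y - y * x) = dp κ x * dp κ y - dp κ y * dp κ x := by
  have h0 : mk 1 x * mk 1 (-x) = 1 := by
    rw [mk_mul]
    ext i j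
    · rw [mk_fst, Matrix.mul_one]
      by_cases h : i = j
      · subst h; simp
      · rw [Matrix.one_apply_ne h, Matrix.one_apply_ne h]; simp
    · rw [mk_snd]
      by_cases h : i = j
      · subst h; simp
      · rw [Matrix.one_apply_ne h]; simp
  have h1 := dp_conj (κ := κ) h0 (mk y 0)
  have h2 : mk 1 x * mk y 0 * mk 1 (-x) = mk y (x * y - y * x) := by
    rw [mk_mul, mk_mul]
    simp only [Matrix.mul_one, Matrix.one_mul, Matrix.mul_zero, zero_add, Matrix.mul_neg]
    congr 1
    abel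
  rw [h2, kp_mk, kp_mk, dp_mk, dp_mk, mk_mul, mk_mul] at h1
  have h3 := mk_inj h1
  have hneg : dp κ (-x) = -dp κ x := by
    ext v w
    simp [dp]
  rw [hneg] at h3
  rw [← h3]
  have h4 : dp κ (0 : Matrix ι ι R) = 0 := by ext v w; simp [dp]
  rw [h4]
  simp only [Matrix.mul_one, Matrix.one_mul, Matrix.mul_zero, zero_add, Matrix.mul_neg]
  abel

end Pool.Agent.N202.TB
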