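import Pool.Agent.N202.TB.Gen
import Pool.Agent.N391.TB.Der
import Pool.Agent.N340.TB.Log
import Pool.Agent.N618.TB.Kplog
import Pool.Agent.N738.TB.Hodge

/-!
# The final theorems
-/

set_option linter.unusedSectionVars false

open CategoryTheory AlgebraicGeometry TensorProduct

universe u

namespace Pool.Agent.N202.TB

open Pool.Agent.H914 Pool.Agent.H914.VarClass Pool.Agent.H914.VarClass.Obj
  Pool.Agent.H914.WeilCohomology Pool.Agent.Y121.AHS
open Pool.Agent.Y133.Half (pw)
open Pool.Agent.N132.Lit (IsCycCl Comb)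
open Pool.Agent.N996.BP

variable {k : Type u} [Field k] {𝒱 : VarClass k} {ops : CycleOps 𝒱}

theorem steps : Steps where
  log := Pool.Agent.N340.TB.log_
  logs := Pool.Agent.N340.TB.logs_
  ker := Pool.Agent.N340.TB.ker_
  fix := Pool.Agent.N340.TB.fix_
  ad := Pool.Agent.N340.TB.ad_
  kplog := Pool.Agent.N618.TB.kplog_
  lin := Pool.Agent.N618.TB.dplin_
  darr := Pool.Agent.N618.TB.dparr_
  rei := Pool.Agent.N618.TB.dprei_
  skew := Pool.Agent.N618.TB.dpskew_
  diag := Pool.Agent.N618.TB.dpdiag_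
  two := Pool.Agent.N618.TB.dptwo_
  hodge := Pool.Agent.N738.TB.hodge_

variable {T : HodgeTheory ops} {ℓ : ℕ} [Fact ℓ.Prime] [Algebra T.W.K ℚ_[ℓ]]
  {E : Realization T ℓ} {X : 𝒱.Obj} {ψ : RForm T.W X}

lemma Determines.faithful (hψ : IsPolarisation T X ψ) {i : ℕ} (hi : Determines E X i) :
    FaithfulOn E X i := by
  rcases hi with hi | hi
  · exact faithful_of_gen steps (Pool.Agent.N391.TB.der_ T ℓ X) hψ hi
  · exact hi

/-- The theorem for the Mumford-Tate conjecture. -/
theorem fourth_power (hψ : IsPolarisation T X ψ) (h : OfAbelianType E X) :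
    ((∀ n, MumfordTate E (pw X n)) ↔ TateIsHodge E (pw X 3)) ∧
    ∀ i, Determines E X i →
      ((∀ n, MumfordTate E (pw X n)) ↔ TateIsHodgeIn E (pw X 3) (2 * i)) := by
  have hder : S_DER T ℓ X := Pool.Agent.N391.TB.der_ T ℓ X
  have hadss : S_ADSS T ℓ X := Pool.Agent.N391.TB.adss_ T ℓ X
  refine ⟨⟨fun hM => (hM 3).1, fun h3 n => ⟨tateIsHodge_all steps hder hadss hψ h h3 n,
    h.hodgeIsTate n⟩⟩, fun i hi => ⟨fun hM => (hM 3).1 (2 * i), fun h3 n =>
    ⟨tateIsHodge_deg steps hder hadss hψ h (hi.faithful hψ) h3 n, h.hodgeIsTate n⟩⟩⟩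

/-- Cycle classes are Hodge classes. -/
lemma tateIsHodgeIn_of {Y : 𝒱.Obj} {j : ℕ} (hT : TateConjectureIn E Y j) :
    TateIsHodgeIn E Y j := by
  intro x hx
  refine Submodule.span_mono ?_ (hT x hx)
  rintro _ ⟨a, ⟨z, hz, rfl⟩, rfl⟩
  exact ⟨_, T.cyc Y j z hz, rfl⟩

/-- The exponent. -/
lemma three_le {b : ℕ} (hb : b ≠ 0) : 3 ≤ exponent b - 1 := by
  have h1 : 1 ≤ b := Nat.one_le_iff_ne_zero.2 hb
  have h2 : 4 ≤ 2 * b * (b ^ 2 + 1) := by
    have h3 : 2 ≤ 2 * b := by omega
    have h4 : 2 ≤ b ^ 2 + 1 := by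
      have : 1 ≤ b ^ 2 := Nat.one_le_pow _ _ h1
      omega
    calc 4 = 2 * 2 := rfl
      _ ≤ 2 * b * (b ^ 2 + 1) := Nat.mul_le_mul h3 h4
  have h3 : 4 ≤ exponent b := by
    rw [exponent]
    calc 4 ≤ (2 * b * (b ^ 2 + 1)) ^ 1 := by rw [pow_one]; exact h2
      _ ≤ _ := Nat.pow_le_pow_right (by omega) (by omega)
  omega

/-- The theorem for the Tate conjecture. -/
theorem one_power (hψ : IsPolarisation T X ψ) (h : OfAbelianType E X) :
    ((TateConjecture E (pw X 3) ∨ ∃ i, Determines E X i ∧ TateConjectureIn E (pw X 3) (2 * i)) →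
      (∀ n, MumfordTate E (pw X n)) ∧
      (∀ n, TateConjecture E (pw X n) ↔ HodgeConjecture T (pw X n)) ∧
      ∀ Y, FromPowers T X Y → (TateConjecture E Y ↔ HodgeConjecture T Y)) ∧
    (TateConjecture E (pw X (exponent (totalBetti T X) - 1)) →
      (∀ n, TateConjecture E (pw X n) ∧ HodgeConjecture T (pw X n)) ∧
      ∀ Y, FromPowers T X Y → TateConjecture E Y ∧ HodgeConjecture T Y) := by
  have hder : S_DER T ℓ X := Pool.Agent.N391.TB.der_ T ℓ X
  have hadss : S_ADSS T ℓ X := Pool.Agent.N391.TB.adss_ T ℓ X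
  obtain ⟨g1, g2, g3⟩ := Pool.Agent.N97.TB.Glue.glue T ℓ X E ψ hψ h.hodgeIsTate
  have key : (TateConjecture E (pw X 3) ∨ ∃ i, Determines E X i ∧
      TateConjectureIn E (pw X 3) (2 * i)) → ∀ n, TateIsHodge E (pw X n) := by
    rintro (h1 | ⟨i, hi, h1⟩)
    · exact tateIsHodge_all steps hder hadss hψ h (g1 h1)
    · exact tateIsHodge_deg steps hder hadss hψ h (hi.faithful hψ) (tateIsHodgeIn_of h1)
  refine ⟨fun h1 => ?_, fun hN => ?_⟩
  · obtain ⟨g4, g5, -⟩ := g3 (key h1)
    exact ⟨fun n => ⟨key h1 n, h.hodgeIsTate n⟩, g4, g5⟩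
  · have h1 : ∀ n, TateIsHodge E (pw X n) := by
      by_cases hb : totalBetti T X = 0
      · -- the cohomology is trivial
        have hs : Subsingleton (T.W.H X) := Module.finrank_zero_iff.1 hb
        intro n j x _
        have h1 : Subsingleton (T.W.H (pw X n)) := by
          have h2 : Module.finrank T.W.K (T.W.H (pw X n)) = 0 := by
            rw [Pool.Agent.Y133.Half.finrank_pw, Module.finrank_zero_of_subsingleton,
              zero_pow (Nat.succ_ne_zero n)]
          exact Module.finrank_zero_iff.1 h2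
        have h2 : ∀ x : ℚ_[ℓ] ⊗[T.W.K] T.W.H (pw X n), x = 0 := by
          intro x
          induction x using TensorProduct.induction_on with
          | zero => rfl
          | add x y hx hy => rw [hx, hy, add_zero]
          | tmul z c => rw [Subsingleton.elim c 0, TensorProduct.tmul_zero]
        have h3 : x = 0 := h2 x
        rw [h3]
        exact Submodule.zero_mem _
      · exact key (Or.inl (g2 _ 3 (three_le hb) hN))
    obtain ⟨-, -, g6⟩ := g3 h1
    exact g6 hN

end Pool.Agent.N202.TB
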