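import Pool.Agent.N202.TB.Stm

/-!
# The core: matrices which kill the Hodge arrays
-/

set_option linter.unusedSectionVars false

namespace Pool.Agent.N202.TB

open Matrix Filter Topology
open Pool.Agent.N996.BP

/-- All steps. -/
structure Steps : Prop where
  log : S_LOG
  logs : S_LOGS
  ker : S_KER
  fix : S_FIX
  ad : S_AD
  kplog : S_KPLOG
  lin : S_DPLIN
  darr : S_DPARR
  rei : S_DPREI
  skew : S_DPSKEW
  diag : S_DPDIAG
  two : S_DPTWO
  hodge : S_HODGE

section Mat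

variable {ι : Type} [Fintype ι] [DecidableEq ι] (L : Type) [Field L] [CharZero L]

/-- The rational matrix with entries in `L`. -/
noncomputable def mL (M : Matrix ι ι ℚ) : Matrix ι ι L := (Rat.castHom L).mapMatrix M

lemma mL_apply (M : Matrix ι ι ℚ) (i j : ι) : mL L M i j = (M i j : L) := rfl

lemma mL_mul (M N : Matrix ι ι ℚ) : mL L (M * N) = mL L M * mL L N := map_mul _ _ _

lemma mL_one : mL L (1 : Matrix ι ι ℚ) = 1 := map_one _

/-- Sums over maps from `Fin 2`. -/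
lemma sum_two {M : Type*} [AddCommMonoid M] (f : (Fin 2 → ι) → M) :
    ∑ w, f w = ∑ i, ∑ j, f ![i, j] := by
  rw [← Equiv.sum_comp (finTwoArrowEquiv ι).symm f, Fintype.sum_prod_type]
  rfl

lemma kp_two {R : Type*} [CommRing R] (g A : Matrix ι ι R) :
    kp (Fin 2) g *ᵥ (fun w => A (w 0) (w 1)) = fun w => (g * A * gᵀ) (w 0) (w 1) := by
  ext w
  rw [Matrix.mulVec, dotProduct, sum_two]
  simp only [kp_apply, Fin.prod_univ_two, Matrix.mul_apply, Matrix.transpose_apply,
    Finset.sum_mul]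
  rw [Finset.sum_comm]
  refine Finset.sum_congr rfl fun i _ => Finset.sum_congr rfl fun j _ => ?_
  simp
  ring

end Mat

section Kill

variable {ι : Type} [Fintype ι] [DecidableEq ι] (H : HData ι)

lemma two_BB {x : Matrix ι ι ℚ} (hx : ∀ t : ℂ, t ≠ 0 → H.l t * cQ x = cQ x * H.l t) :
    (fun w : Fin (1 + 1) → ι => (x * H.Qir) (w 0) (w 1)) ∈ BB H (Fin (1 + 1)) := by
  intro t ht
  have h0 : ca (fun w : Fin (1 + 1) → ι => (x * H.Qir) (w 0) (w 1)) =
      fun w : Fin 2 → ι => (cQ (x * H.Qir)) (w 0) (w 1) := rfl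
  have h3 : cQ H.Qr * cQ H.Qir = 1 := by rw [← cQ_mul, H.Qr_Qir, cQ_one]
  have h4 : cQ H.Qir * cQ H.Qr = 1 := mul_eq_one_comm.1 h3
  have h5 : (H.l t)ᵀ = cQ H.Qr * H.l t⁻¹ * cQ H.Qir := by
    rw [← H.l_tr ht, Matrix.mul_assoc, h3, Matrix.mul_one]
  have h6 : H.l t * cQ (x * H.Qir) * (H.l t)ᵀ = cQ (x * H.Qir) := by
    rw [cQ_mul, ← Matrix.mul_assoc, hx t ht, h5]
    calc cQ x * H.l t * cQ H.Qir * (cQ H.Qr * H.l t⁻¹ * cQ H.Qir) =
        cQ x * (H.l t * ((cQ H.Qir * cQ H.Qr) * H.l t⁻¹)) * cQ H.Qir := by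
          simp only [Matrix.mul_assoc]
      _ = _ := by rw [h4, Matrix.one_mul, H.l_inv ht, Matrix.mul_one]
  rw [h0]
  have h7 := kp_two (H.l t) (cQ (x * H.Qir))
  rw [h6] at h7
  exact h7

variable {L : Type} [Field L] [CharZero L] {H}

lemma Kill.eq (S : Steps) {z : Matrix ι ι L} (hz : Kill H L z) {x : Matrix ι ι ℚ}
    (hx : ∀ t : ℂ, t ≠ 0 → H.l t * cQ x = cQ x * H.l t) :
    z * mL L (x * H.Qir) + mL L (x * H.Qir) * zᵀ = 0 := by
  have h1 := hz 1 _ (two_BB H hx)
  have h2 := S.two L ι z (mL L (x * H.Qir))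
  have h3 : aL L (fun w : Fin (1 + 1) → ι => (x * H.Qir) (w 0) (w 1)) =
      fun w : Fin 2 → ι => mL L (x * H.Qir) (w 0) (w 1) := rfl
  rw [h3] at h1
  have h4 := h2.symm.trans h1
  ext i j
  have h5 := congrFun h4 ![i, j]
  simpa using h5

lemma Kill.skew (S : Steps) {z : Matrix ι ι L} (hz : Kill H L z) :
    z * mL L H.Qir + mL L H.Qir * zᵀ = 0 := by
  have h1 := hz.eq S (x := 1) (fun t _ => by rw [cQ_one, Matrix.mul_one, Matrix.one_mul])
  rwa [Matrix.one_mul] at h1

lemma mL_Qir_Qr : mL L H.Qir * mL L H.Qr = 1 := by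
  rw [← mL_mul, mul_eq_one_comm.1 H.Qr_Qir, mL_one]

lemma mL_Qr_Qir : mL L H.Qr * mL L H.Qir = 1 := by
  rw [← mL_mul, H.Qr_Qir, mL_one]

lemma Kill.comm (S : Steps) {z : Matrix ι ι L} (hz : Kill H L z) {x : Matrix ι ι ℚ}
    (hx : ∀ t : ℂ, t ≠ 0 → H.l t * cQ x = cQ x * H.l t) : z * mL L x = mL L x * z := by
  have h1 := hz.eq S hx
  have h2 : mL L H.Qir * zᵀ = -(z * mL L H.Qir) := eq_neg_of_add_eq_zero_right (hz.skew S)
  rw [mL_mul, Matrix.mul_assoc, h2, Matrix.mul_neg, ← Matrix.mul_assoc, ← Matrix.mul_assoc,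
    ← Matrix.neg_mul, ← Matrix.add_mul] at h1
  have h3 := congrArg (fun M => M * mL L H.Qr) h1
  simp only [Matrix.mul_assoc, mL_Qir_Qr, Matrix.mul_one, Matrix.zero_mul] at h3
  exact eq_of_sub_eq_zero (by rw [sub_eq_add_neg]; exact h3)

lemma Kill.deg (S : Steps) {deg : ι → ℕ}
    (hl : ∀ t : ℂ, t ≠ 0 → ∀ i j, H.l t i j ≠ 0 → deg i = deg j)
    {z : Matrix ι ι L} (hz : Kill H L z) {i j : ι} (h : z i j ≠ 0) : deg i = deg j := by
  have h1 := hz.comm S (x := Matrix.diagonal fun k => if deg k = deg i then 1 else 0)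
    (fun t ht => by
      ext a b
      have h2 : cQ (Matrix.diagonal fun k => if deg k = deg i then (1 : ℚ) else 0) =
          Matrix.diagonal fun k => if deg k = deg i then (1 : ℂ) else 0 := by
        ext a b
        simp only [cQ, Matrix.map_apply, Matrix.diagonal_apply]
        split_ifs <;> simp
      rw [h2, Matrix.mul_diagonal, Matrix.diagonal_mul]
      by_cases h3 : H.l t a b = 0
      · rw [h3, zero_mul, mul_zero]
      · rw [hl t ht a b h3, mul_comm])
  have h2 : mL L (Matrix.diagonal fun k => if deg k = deg i then (1 : ℚ) else 0) =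
      Matrix.diagonal fun k => if deg k = deg i then (1 : L) else 0 := by
    ext a b
    simp only [mL_apply, Matrix.diagonal_apply]
    split_ifs <;> simp
  rw [h2] at h1
  have h3 := congrFun (congrFun h1 i) j
  rw [Matrix.mul_diagonal, Matrix.diagonal_mul, if_pos rfl, one_mul] at h3
  by_contra hne
  rw [if_neg (fun h => hne h.symm), mul_zero] at h3
  exact h h3.symm

/-- The matrices which kill the array. -/
def killSub (S : Steps) {κ : Type} [Fintype κ] [DecidableEq κ] (a : (κ → ι) → L) :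
    Submodule L (Matrix ι ι L) where
  carrier := {y | dp κ y *ᵥ a = 0}
  zero_mem' := by
    have h : dp κ (0 : Matrix ι ι L) = 0 := by ext v w; simp [dp]
    change dp κ (0 : Matrix ι ι L) *ᵥ a = 0
    rw [h, Matrix.zero_mulVec]
  add_mem' {x y} hx hy := by
    have h := S.lin L ι κ 1 x y
    rw [one_smul, one_smul] at h
    change dp κ (x + y) *ᵥ a = 0
    rw [h, Matrix.add_mulVec, show dp κ x *ᵥ a = 0 from hx, show dp κ y *ᵥ a = 0 from hy, add_zero]
  smul_mem' c y hy := by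
    have h := S.lin L ι κ c 0 y
    have h0 : dp κ (0 : Matrix ι ι L) = 0 := by ext v w; simp [dp]
    rw [zero_add, h0, zero_add] at h
    change dp κ (c • y) *ᵥ a = 0
    rw [h, Matrix.smul_mulVec, show dp κ y *ᵥ a = 0 from hy, smul_zero]

lemma mem_killSub {S : Steps} {κ : Type} [Fintype κ] [DecidableEq κ] {a : (κ → ι) → L}
    {y : Matrix ι ι L} : y ∈ killSub S a ↔ dp κ y *ᵥ a = 0 := Iff.rfl

variable (H L) in
/-- The matrices which kill the Hodge arrays. -/
noncomputable def killAll (S : Steps) : Submodule L (Matrix ι ι L) :=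
  ⨅ (n : ℕ), ⨅ (a : (Fin (n + 1) → ι) → ℚ), ⨅ (_ : a ∈ BB H (Fin (n + 1))), killSub S (aL L a)

lemma mem_killAll {S : Steps} {y : Matrix ι ι L} : y ∈ killAll H L S ↔ Kill H L y := by
  simp only [killAll, Submodule.mem_iInf, mem_killSub]
  rfl

/-- Combinations of Hodge arrays are killed. -/
lemma Kill.hspan {y : Matrix ι ι L} (hy : Kill H L y) {n : ℕ} {a : (Fin (n + 1) → ι) → L}
    (ha : a ∈ hspan H L n) : dp (Fin (n + 1)) y *ᵥ a = 0 := by
  induction ha using Submodule.span_induction with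
  | mem x hx =>
    obtain ⟨a, ha, rfl⟩ := hx
    exact hy n a ha
  | zero => rw [Matrix.mulVec_zero]
  | add a b _ _ ha hb => rw [Matrix.mulVec_add, ha, hb, add_zero]
  | smul c a _ ha => rw [Matrix.mulVec_smul, ha, smul_zero]

end Kill

end Pool.Agent.N202.TB
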