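import Pool.Agent.N202.TB.Defs

/-!
# Statements of the steps
-/

set_option linter.unusedSectionVars false

namespace Pool.Agent.N202.TB

open Matrix Filter Topology
open Pool.Agent.N996.BP

/-! ### TB/1: logarithms -/

/-- Logarithms exist near `1`. -/
def S_LOG : Prop := ∀ (ℓ : ℕ) [Fact ℓ.Prime] (m : Type) [Fintype m] [DecidableEq m]
  (g : Matrix m m ℚ_[ℓ]), Near g → ∃ y, IsLog g y

/-- Logarithms of numbers exist near `1`. -/
def S_LOGS : Prop := ∀ (ℓ : ℕ) [Fact ℓ.Prime] (c : ℚ_[ℓ]), ‖c - 1‖ ≤ ((ℓ : ℝ) ^ 2)⁻¹ →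
  ∃ y, IsLogS c y

/-- The kernel of the logarithm. -/
def S_KER : Prop := ∀ (ℓ : ℕ) [Fact ℓ.Prime] (m : Type) [Fintype m] [DecidableEq m]
  (g y : Matrix m m ℚ_[ℓ]) (v : m → ℚ_[ℓ]), Near g → IsLog g y → y *ᵥ v = 0 → g *ᵥ v = v

/-- Fixed vectors of powers are killed by the logarithm. -/
def S_FIX : Prop := ∀ (ℓ : ℕ) [Fact ℓ.Prime] (m : Type) [Fintype m] [DecidableEq m]
  (g y : Matrix m m ℚ_[ℓ]) (v : m → ℚ_[ℓ]) (s : ℕ), 0 < s → Near g → IsLog g y →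
    g ^ s *ᵥ v = v → y *ᵥ v = 0

/-- Closed subspaces: if `S` is stable under `x ↦ g x g⁻¹` then it is stable under `x ↦ [y, x]`. -/
def S_AD : Prop := ∀ (ℓ : ℕ) [Fact ℓ.Prime] (m : Type) [Fintype m] [DecidableEq m]
  (g g' y : Matrix m m ℚ_[ℓ]) (S : Submodule ℚ_[ℓ] (Matrix m m ℚ_[ℓ])), Near g → Near g' →
    IsLog g y → g * g' = 1 → (∀ x ∈ S, g * x * g' ∈ S) → ∀ x ∈ S, y * x - x * y ∈ S

/-! ### TB/2: derivations -/

/-- The logarithm of a Kronecker power (twisted by the powers of a number). -/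
def S_KPLOG : Prop := ∀ (ℓ : ℕ) [Fact ℓ.Prime] (ι : Type) [Fintype ι] [DecidableEq ι]
  (κ : Type) [Fintype κ] [DecidableEq κ] (g y : Matrix ι ι ℚ_[ℓ]) (c lam : ℚ_[ℓ]) (j : ℕ),
    Near g → IsLog g y → ‖c - 1‖ ≤ ((ℓ : ℝ) ^ 2)⁻¹ → IsLogS c lam →
    Near ((c ^ j)⁻¹ • kp κ g) ∧ IsLog ((c ^ j)⁻¹ • kp κ g) (dp κ y - ((j : ℚ_[ℓ]) * lam) • 1)

/-- The derivation is linear. -/
def S_DPLIN : Prop := ∀ (R : Type) [CommRing R] (ι : Type) [Fintype ι] [DecidableEq ι]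
  (κ : Type) [Fintype κ] [DecidableEq κ] (c : R) (x y : Matrix ι ι R),
    dp κ (x + c • y) = dp κ x + c • dp κ y

/-- The derivation on arrays given by matrices. -/
def S_DPARR : Prop := ∀ (R : Type) [CommRing R] (ι : Type) [Fintype ι] [DecidableEq ι]
  (κ l : Type) [Fintype κ] [DecidableEq κ] [Fintype l] [DecidableEq l] (y : Matrix ι ι R)
  (M : Matrix (κ → ι) (l → ι) R),
    dp (κ ⊕ l) y *ᵥ arr M = arr (dp κ y * M + M * (dp l y)ᵀ)

/-- The derivation on reindexed arrays. -/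
def S_DPREI : Prop := ∀ (R : Type) [CommRing R] (ι : Type) [Fintype ι] [DecidableEq ι]
  (κ l : Type) [Fintype κ] [DecidableEq κ] [Fintype l] [DecidableEq l] (e : κ ≃ l)
  (y : Matrix ι ι R) (a : (κ → ι) → R), dp l y *ᵥ rei e a = rei e (dp κ y *ᵥ a)

/-- Skew matrices. -/
def S_DPSKEW : Prop := ∀ (R : Type) [CommRing R] (ι : Type) [Fintype ι] [DecidableEq ι]
  (κ : Type) [Fintype κ] [DecidableEq κ] (y B : Matrix ι ι R), y * B + B * yᵀ = 0 →
    dp κ y * kp κ B + kp κ B * (dp κ y)ᵀ = 0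

/-- The derivation given by a diagonal matrix. -/
def S_DPDIAG : Prop := ∀ (R : Type) [CommRing R] (ι : Type) [Fintype ι] [DecidableEq ι]
  (κ : Type) [Fintype κ] [DecidableEq κ] (d : ι → R) (a : (κ → ι) → R),
    dp κ (Matrix.diagonal d) *ᵥ a = fun w => (∑ k, d (w k)) * a w

/-- The derivation on arrays with two indices. -/
def S_DPTWO : Prop := ∀ (R : Type) [CommRing R] (ι : Type) [Fintype ι] [DecidableEq ι]
  (y A : Matrix ι ι R), dp (Fin 2) y *ᵥ (fun w => A (w 0) (w 1)) =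
    fun w => (y * A + A * yᵀ) (w 0) (w 1)

/-! ### TB/3: the matrices which kill the Hodge arrays -/

/-- The arrays killed by the matrices which kill the Hodge arrays are combinations of Hodge
arrays. -/
def S_HODGE : Prop := ∀ (ι : Type) [Fintype ι] [DecidableEq ι] (H : HData ι) (L : Type) [Field L]
  [CharZero L] (n : ℕ) (a : (Fin (n + 1) → ι) → L),
    (∀ y : Matrix ι ι L, Kill H L y → dp (Fin (n + 1)) y *ᵥ a = 0) → a ∈ hspan H L n

end Pool.Agent.N202.TB
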