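import Pool.Agent.N202.TB.Core1

/-!
# The core: arrays of operators on matrices
-/

set_option linter.unusedSectionVars false

namespace Pool.Agent.N202.TB

open Matrix Filter Topology
open Pool.Agent.N996.BP

section Ops

variable {ι : Type} [Fintype ι] [DecidableEq ι] {L : Type} [Field L]

/-- The array of a matrix. -/
def vec2 : Matrix ι ι L ≃ₗ[L] ((Fin 2 → ι) → L) where
  toFun A w := A (w 0) (w 1)
  invFun a := Matrix.of fun i j => a ![i, j]
  map_add' _ _ := rfl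
  map_smul' _ _ := rfl
  left_inv A := by ext i j; simp
  right_inv a := by
    ext w
    have h : ![w 0, w 1] = w := by ext k; fin_cases k <;> rfl
    simp [h]

lemma vec2_apply (A : Matrix ι ι L) (w : Fin 2 → ι) : vec2 A w = A (w 0) (w 1) := rfl

lemma dp_vec2 (S : Steps) (y A : Matrix ι ι L) :
    dp (Fin 2) y *ᵥ vec2 A = vec2 (y * A + A * yᵀ) := S.two L ι y A

/-- The operator `v_z ↦ v_(p z)`, `v_z` the array of `z * B`, where `Q` is the inverse of `B`. -/
noncomputable def opP (B Q : Matrix ι ι L) (p : Matrix ι ι L →ₗ[L] Matrix ι ι L) :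
    Matrix (Fin 2 → ι) (Fin 2 → ι) L :=
  LinearMap.toMatrix' (vec2.toLinearMap ∘ₗ (LinearMap.mulRight L B) ∘ₗ p ∘ₗ
    (LinearMap.mulRight L Q) ∘ₗ vec2.symm.toLinearMap)

lemma opP_vec2 (B Q : Matrix ι ι L) (p : Matrix ι ι L →ₗ[L] Matrix ι ι L) (A : Matrix ι ι L) :
    opP B Q p *ᵥ vec2 A = vec2 (p (A * Q) * B) := by
  rw [opP, LinearMap.toMatrix'_mulVec]
  simp

/-- The operator commutes with the derivation. -/
lemma opP_comm (S : Steps) {B Q : Matrix ι ι L} (hBQ : B * Q = 1)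
    (p : Matrix ι ι L →ₗ[L] Matrix ι ι L) {y : Matrix ι ι L} (hy : y * B + B * yᵀ = 0) :
    dp (Fin 2) y * opP B Q p = opP B Q p * dp (Fin 2) y ↔
      ∀ z, p (y * z - z * y) = y * p z - p z * y := by
  have hB : B * yᵀ = -(y * B) := eq_neg_of_add_eq_zero_right hy
  have hv : ∀ z : Matrix ι ι L, dp (Fin 2) y *ᵥ vec2 (z * B) = vec2 ((y * z - z * y) * B) := by
    intro z
    rw [dp_vec2 S, Matrix.mul_assoc z, hB, Matrix.mul_neg, Matrix.sub_mul, ← Matrix.mul_assoc,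
      ← Matrix.mul_assoc, sub_eq_add_neg]
  have hP : ∀ z : Matrix ι ι L, opP B Q p *ᵥ vec2 (z * B) = vec2 (p z * B) := by
    intro z
    rw [opP_vec2, Matrix.mul_assoc, hBQ, Matrix.mul_one]
  constructor
  · intro h z
    have h1 := congrArg (fun M => M *ᵥ vec2 (z * B)) h
    simp only [← Matrix.mulVec_mulVec, hv, hP] at h1
    have h2 := vec2.injective h1
    have h3 := congrArg (fun M => M * Q) h2
    simp only [Matrix.mul_assoc, hBQ, Matrix.mul_one] at h3
    exact h3.symm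
  · intro h
    have hQB : Q * B = 1 := mul_eq_one_comm.1 hBQ
    refine Matrix.ext_of_mulVec_single fun w => ?_
    obtain ⟨A, hA⟩ := vec2.surjective (Pi.single w (1 : L))
    have hA' : A = A * Q * B := by rw [Matrix.mul_assoc, hQB, Matrix.mul_one]
    rw [← hA, hA', ← Matrix.mulVec_mulVec, ← Matrix.mulVec_mulVec, hP, hv, hv, hP, h]

/-- The bijection. -/
def e4 : Fin 2 ⊕ Fin 2 ≃ Fin 4 := finSumFinEquiv

lemma rei_injective {κ l : Type} (e : κ ≃ l) {a b : (κ → ι) → L} (h : rei e a = rei e b) :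
    a = b := by
  ext w
  have h1 := congrFun h (w ∘ e.symm)
  have h2 : (w ∘ e.symm) ∘ e = w := by ext; simp
  rwa [rei, rei, h2] at h1

/-- The array with four indices of a matrix. -/
def arr4 (M : Matrix (Fin 2 → ι) (Fin 2 → ι) L) : (Fin 4 → ι) → L := Pool.Agent.N996.BP.rei e4 (arr M)

lemma dp_arr4 (S : Steps) (y : Matrix ι ι L) (M : Matrix (Fin 2 → ι) (Fin 2 → ι) L) :
    dp (Fin 4) y *ᵥ arr4 M = arr4 (dp (Fin 2) y * M + M * (dp (Fin 2) y)ᵀ) := by
  rw [arr4, S.rei L ι (Fin 2 ⊕ Fin 2) (Fin 4) e4, S.darr L ι (Fin 2) (Fin 2)]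
  rfl

lemma arr4_injective {M N : Matrix (Fin 2 → ι) (Fin 2 → ι) L} (h : arr4 M = arr4 N) : M = N := by
  have h1 := rei_injective e4 h
  rw [← mat_arr M, h1, mat_arr]

lemma arr4_zero : arr4 (0 : Matrix (Fin 2 → ι) (Fin 2 → ι) L) = 0 := rfl

/-- The array of the operator is killed iff the operator commutes. -/
lemma dp_arr4_eq_zero (S : Steps) {B Q : Matrix ι ι L} (hBQ : B * Q = 1)
    {P : Matrix (Fin 2 → ι) (Fin 2 → ι) L} {y : Matrix ι ι L} (hy : y * B + B * yᵀ = 0) :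
    dp (Fin 4) y *ᵥ arr4 (P * kp (Fin 2) B) = 0 ↔ dp (Fin 2) y * P = P * dp (Fin 2) y := by
  have h1 := S.skew L ι (Fin 2) y B hy
  have h2 : kp (Fin 2) B * (dp (Fin 2) y)ᵀ = -(dp (Fin 2) y * kp (Fin 2) B) :=
    eq_neg_of_add_eq_zero_right h1
  rw [dp_arr4 S, Matrix.mul_assoc P, h2, Matrix.mul_neg, ← Matrix.mul_assoc, ← Matrix.mul_assoc]
  constructor
  · intro h
    have h3 := arr4_injective (h.trans arr4_zero.symm)
    have h4 := congrArg (fun M => M * kp (Fin 2) Q) h3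
    simp only [← sub_eq_add_neg, Matrix.sub_mul, Matrix.mul_assoc, kp_inv_mul hBQ,
      Matrix.mul_one, Matrix.zero_mul] at h4
    exact eq_of_sub_eq_zero h4
  · intro h
    rw [h, add_neg_cancel, arr4_zero]

/-- The array of a product of two arrays. -/
lemma dp_arr4_vec (S : Steps) {b c : (Fin 2 → ι) → L} {y : Matrix ι ι L}
    (hb : dp (Fin 2) y *ᵥ b = 0) :
    dp (Fin 4) y *ᵥ arr4 (Matrix.vecMulVec c b) = arr4 (Matrix.vecMulVec (dp (Fin 2) y *ᵥ c) b) := by
  rw [dp_arr4 S, Matrix.mul_vecMulVec, Matrix.vecMulVec_mul, Matrix.vecMul_transpose, hb]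
  congr 1
  ext v w
  simp [Matrix.vecMulVec_apply]

end Ops

end Pool.Agent.N202.TB
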