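import Pool.Agent.Y121.AHS.Ext

/-!
# Galois actions, derivations and polarisations on one algebra: definitions
-/

namespace Pool.Agent.N202.TB.Gn

open Pool.Agent.Y121.AHS

section

variable {K L A : Type} [Field K] [Field L] [Algebra K L] [Ring A] [Algebra K A]

/-- The element `x` is a linear combination with coefficients in `L` of elements `1 ⊗ a` such that
`a` has the property `p`. -/
def Comb (p : A → Prop) (x : Ext K L A) : Prop :=
  x ∈ Submodule.span L {y | ∃ a, p a ∧ extEm K L a = y}

/-- The element `x` is in the `i`-th graded piece. -/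
def InDeg (gr : ℕ → Submodule K A) (i : ℕ) (x : Ext K L A) : Prop := x ∈ extSub K L (gr i)

/-- The elements of a subgroup of finite index act on `x` by the `j`-th power of the character. -/
def IsTwisted {Γ : Type} [Group Γ] (χ : Γ → L) (ρ : Γ → Ext K L A → Ext K L A) (j : ℕ)
    (x : Ext K L A) : Prop :=
  ∃ Δ : Subgroup Γ, Δ.FiniteIndex ∧ ∀ g ∈ Δ, ρ g x = extTw K L (χ g) j x

/-- The action `ρ` of the group `Γ` on the cohomology algebra `A` of a variety of dimension `n`, with
coefficients extended to `L`, has the formal properties of a Galois action: `χ` is the character on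
the Tate twist, `gr` the grading, `tr` the trace and `C j a` means that `a` is the class of an
algebraic cycle of codimension `j`. -/
structure IsGalois {Γ : Type} [Group Γ] (χ : Γ → L) (gr : ℕ → Submodule K A) (n : ℕ)
    (tr : A →ₗ[K] K) (C : ℕ → A → Prop) (ρ : Γ → Ext K L A → Ext K L A) : Prop where
  one : ∀ x, ρ 1 x = x
  mul : ∀ g h x, ρ (g * h) x = ρ g (ρ h x)
  add : ∀ g x y, ρ g (x + y) = ρ g x + ρ g y
  smul : ∀ g l x, ρ g (extSm K L l x) = extSm K L l (ρ g x)
  prod : ∀ g x y, ρ g (extMul K L x y) = extMul K L (ρ g x) (ρ g y)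
  deg : ∀ g i x, InDeg gr i x → InDeg gr i (ρ g x)
  trace : ∀ g x, extForm K L tr (ρ g x) = χ g ^ n * extForm K L tr x
  conj : ∀ g j a, C j a → ∃ a', C j a' ∧ ρ g (extEm K L a) = extTw K L (χ g) j (extEm K L a')
  fix : ∀ j a, C j a → IsTwisted χ ρ j (extEm K L a)

/-- The algebra `A` is generated by the subspace `p`. -/
def GeneratedBy (p : Submodule K A) : Prop := Algebra.adjoin K (p : Set A) = ⊤

end

section

variable {L : Type} [Field L] {V : Type} [AddCommGroup V] [Module L V] {Γ : Type} [Group Γ]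

/-- The space `S` of linear operators is stable under the conjugations by the operators `ρ g`, for the
elements `g` of the subgroup `Δ`. -/
def ConjStable (ρ : Γ → V → V) (Δ : Subgroup Γ) (S : Submodule L (V →ₗ[L] V)) : Prop :=
  ∀ g ∈ Δ, ∀ s ∈ S, ∀ s' : V →ₗ[L] V, (∀ x, s' (ρ g x) = ρ g (s x)) → s' ∈ S

variable (L) in
/-- The action by conjugation on the linear operators is semisimple: for all subgroups of finite
index stable subspaces have stable complements. -/
def AdSemisimple (ρ : Γ → V → V) : Prop := ∀ Δ : Subgroup Γ, Δ.FiniteIndex →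
  ∀ S : Submodule L (V →ₗ[L] V), ConjStable ρ Δ S → ∃ S', ConjStable ρ Δ S' ∧ IsCompl S S'

/-- The vector is zero. -/
def Null (v : V) : Prop := v = 0

variable (L) in
/-- The map is linear. -/
def IsLin (f : V → V) : Prop := (∀ a b, f (a + b) = f a + f b) ∧ ∀ (c : L) a, f (c • a) = c • f a

/-- The sum of the maps `f i` is the identity. -/
def SumIsId {r : ℕ} (f : Fin r → V → V) : Prop := ∀ y, ∑ i, f i y = y

end

/-- The map `f` sends an element with the property `P` to `c`. -/
def Hits {M N : Type*} [AddCommGroup M] [Ring N] (f : M →+ N) (P : M → Prop) (c : N) : Prop :=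
  ∃ z, P z ∧ f z = c

/-- Let `V n` be the cohomology of the power `X ^ (n + 1)` and `ext` the external product. The linear
operator `x` on `V 0` extends to linear operators `D n` on `V n` with `D 0 = x` and the product rule
for `ext` (the action of `x` as a derivation), and these operators kill the elements with the
property `P`. -/
def Kills (L : Type) [Field L] {V : ℕ → Type} [∀ n, AddCommGroup (V n)] [∀ n, Module L (V n)]
    (ext : ∀ n, V n → V 0 → V (n + 1)) (P : ∀ n, ℕ → V n → Prop) (x : V 0 → V 0) : Prop :=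
  ∃ D : ∀ n, V n → V n, (∀ n, IsLin L (D n)) ∧ D 0 = x ∧
    (∀ n a b, D (n + 1) (ext n a b) = ext n (D n a) b + ext n a (x b)) ∧
    ∀ n j c, P n j c → D n c = 0

/-- The action `ρ` on an `ℓ`-adic vector space is continuous: subgroups of finite index move the
vectors only a little (in all linear coordinates). -/
def IsCont (ℓ : ℕ) [Fact ℓ.Prime] {V : Type} [AddCommGroup V] [Module ℚ_[ℓ] V] {Γ : Type} [Group Γ]
    (ρ : Γ → V → V) : Prop := ∀ (x : V) (f : V →ₗ[ℚ_[ℓ]] ℚ_[ℓ]) (ε : ℝ), 0 < ε →
  ∃ Δ : Subgroup Γ, Δ.FiniteIndex ∧ ∀ g ∈ Δ, ‖f (ρ g x) - f x‖ < ε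

/-- The character `χ` with values in `ℚ_ℓ` is continuous. -/
def IsContChar (ℓ : ℕ) [Fact ℓ.Prime] {Γ : Type} [Group Γ] (χ : Γ → ℚ_[ℓ]) : Prop :=
  ∀ ε : ℝ, 0 < ε → ∃ Δ : Subgroup Γ, Δ.FiniteIndex ∧ ∀ g ∈ Δ, ‖χ g - 1‖ < ε

end Pool.Agent.N202.TB.Gn
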