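import Pool.Agent.Y121.AHS.Defs
import Pool.Agent.Y133.Half.PwDefs
import Pool.Agent.N996.BP.Ext2
import Pool.Agent.N202.TB.Gn

/-!
# `ℓ`-adic realizations and varieties of abelian type: definitions

In the intended use the varieties are the smooth projective (geometrically irreducible) ones over a
finitely generated subfield `k` of the complex numbers, with the algebraic cycles over an algebraic
closure of `k`, `T` is the theory `X ↦ H(X(ℂ), ℚ)`, and `ℚ_ℓ ⊗ H(X)` is the `ℓ`-adic cohomology with
the action of the Galois group `Γ` of `k`.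
-/

open CategoryTheory AlgebraicGeometry

universe u

namespace Pool.Agent.N202.TB.Ad

open Pool.Agent.H914 Pool.Agent.H914.VarClass Pool.Agent.H914.VarClass.Obj
  Pool.Agent.H914.WeilCohomology Pool.Agent.Y121.AHS
open Pool.Agent.Y133.Half (pw)
open Pool.Agent.N996.BP (Bil extBil extConj IsRat)
open Pool.Agent.N202.TB.Gn

variable {k : Type u} [Field k] {𝒱 : VarClass k} {ops : CycleOps 𝒱}

/-- The class `c` is the class of an algebraic cycle of codimension `j`. -/
def IsCyc (W : WeilCohomology.{u, 0} ops) (X : 𝒱.Obj) (j : ℕ) (c : W.H X) : Prop :=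
  Hits (W.cl X) (X.IsCyc j) c

/-- The `ℓ`-adic realization: the actions `ρ` of a group `Γ` (the Galois group) on the cohomology with
coefficients in `ℚ_ℓ`, with the formal properties of a Galois action (compatible with degrees,
products, traces and cycle classes), compatible with pull-backs, and continuous. -/
structure Adic (W : WeilCohomology.{u, 0} ops) where
  /-- the prime number -/
  ℓ : ℕ
  [prime : Fact ℓ.Prime]
  [alg : Algebra W.K ℚ_[ℓ]]
  /-- the group -/
  Γ : Type
  [grp : Group Γ]
  /-- the character on the Tate twist -/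
  χ : Γ → ℚ_[ℓ]
  one : χ 1 = 1
  mul : ∀ g h, χ (g * h) = χ g * χ h
  /-- the actions -/
  ρ : ∀ X, Γ → HL W ℚ_[ℓ] X → HL W ℚ_[ℓ] X
  gal : ∀ X, IsGalois χ (W.gr X) X.dim (W.tr X) (IsCyc W X) (ρ X)
  map : ∀ (X Y : 𝒱.Obj) (f : X ⟶ Y) g y, ρ X g (mapL f y) = mapL f (ρ Y g y)
  cont : ∀ X, IsCont ℓ (ρ X)
  contχ : IsContChar ℓ χ

attribute [instance] Adic.prime Adic.alg Adic.grp

section

variable {W : WeilCohomology.{u, 0} ops} (E : Adic W)

/-- The cohomology with coefficients in `ℚ_ℓ`. -/
def Hl (X : 𝒱.Obj) : Type := HL W ℚ_[E.ℓ] X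

noncomputable instance instAddHl (X : 𝒱.Obj) : AddCommGroup (Hl E X) := instAddHL W ℚ_[E.ℓ] X

noncomputable instance instModHl (X : 𝒱.Obj) : Module ℚ_[E.ℓ] (Hl E X) := instModHL W ℚ_[E.ℓ] X

variable {X : 𝒱.Obj}

/-- The rational class `c` with coefficients in `ℚ_ℓ`. -/
noncomputable def emb (c : W.H X) : Hl E X := emL W ℚ_[E.ℓ] c

variable {E}

/-- The element `x` is a linear combination of rational classes with the property `p`. -/
def IsComb (p : W.H X → Prop) (x : Hl E X) : Prop := Comb (K := W.K) p x

/-- The class `x` is a Tate class of degree `2 j`: the elements of a subgroup of finite index act on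
`x` by the `j`-th power of the character. -/
def IsTate (j : ℕ) (x : Hl E X) : Prop :=
  IsDeg (2 * j) x ∧ IsTwisted (K := W.K) (A := W.H X) E.χ (E.ρ X) j x

variable (E X)

/-- The Tate conjecture for the cycles of codimension `j` on `X` (over all finite extensions of the
field): the Tate classes are combinations of classes of algebraic cycles. -/
def TateConjectureIn (j : ℕ) : Prop := ∀ x : Hl E X, IsTate j x → IsComb (IsCyc W X j) x

/-- The Tate conjecture for `X`. -/
def TateConjecture : Prop := ∀ j, TateConjectureIn E X j

variable {E X}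

/-- The external product of classes on `X ^ (n + 1)` and on `X`. -/
noncomputable def ext {n : ℕ} (a : Hl E (pw X n)) (b : Hl E X) : Hl E (pw X (n + 1)) :=
  mulL (mapL (fst (pw X n) X) a) (mapL (snd (pw X n) X) b)

/-- The operator `x` is linear and, acting as a derivation on the cohomology of the powers of `X`
(`pw X n` is the product of `n + 1` copies of `X`), kills the classes with the property `P`. -/
def KillsOn (P : ∀ n, ℕ → Hl E (pw X n) → Prop) (x : Hl E X → Hl E X) : Prop :=
  Kills ℚ_[E.ℓ] (V := fun n => Hl E (pw X n)) (fun _ => ext) P x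

/-- The map `f` is the correspondence `x ↦ pr₂_* (c · pr₁^* x)` given by the class `c` of an
algebraic cycle on `X × Y`. -/
def IsCorr {Y : 𝒱.Obj} (f : Hl E X → Hl E Y) : Prop := ∃ j c, IsCyc W (X.prod Y) j c ∧
  ∀ x, pushL (snd X Y) (mulL (emb E c) (mapL (fst X Y) x)) = f x

variable (E X)

/-- The map `f` is the composition of two algebraic correspondences `H(Y) → H(X ^ (m + 1)) → H(Y)`. -/
def Factors {Y : 𝒱.Obj} (f : Hl E Y → Hl E Y) : Prop :=
  ∃ (m : ℕ) (u : Hl E Y → Hl E (pw X m)) (v : Hl E (pw X m) → Hl E Y), IsCorr u ∧ IsCorr v ∧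
    ∀ y, v (u y) = f y

/-- The cohomology of `Y` comes from powers of `X` by algebraic correspondences: the identity of
the cohomology of `Y` is a finite sum of compositions `H(Y) → H(X ^ (m + 1)) → H(Y)` of
correspondences given by algebraic cycles. (This holds if the homological motive of `Y` is a direct
summand of a sum of Tate twists of motives of powers of `X`, for instance if there is a surjective
morphism from a power of `X` to `Y`, or if `Y` is a product of factors of `X`.) -/
def FromPowers (Y : 𝒱.Obj) : Prop :=
  ∃ (r : ℕ) (f : Fin r → Hl E Y → Hl E Y), (∀ i, Factors E X (f i)) ∧ SumIsId f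

/-- The property `P` holds for all powers of `X` and for all varieties whose cohomology comes from
powers of `X` by algebraic correspondences. -/
def OnPowers (P : 𝒱.Obj → Prop) : Prop := (∀ n, P (pw X n)) ∧ ∀ Y, FromPowers E X Y → P Y

/-- The sum of the Betti numbers. -/
noncomputable def totalBetti : ℕ := Module.finrank ℚ_[E.ℓ] (Hl E X)

end

/-- The explicit exponent. -/
def exponent (b : ℕ) : ℕ := (2 * b * (b ^ 2 + 1)) ^ (b ^ 2 + 1)

/-! ### Hodge classes -/

section

variable {T : HodgeTheory ops} (E : Adic T.W) (X : 𝒱.Obj)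

/-- The Tate classes of degree `2 j` on `X` are combinations of Hodge classes. -/
def TateIsHodgeIn (j : ℕ) : Prop := ∀ x : Hl E X, IsTate j x → IsComb (IsHodge T X j) x

/-- The Tate classes on `X` are combinations of Hodge classes. -/
def TateIsHodge : Prop := ∀ j, TateIsHodgeIn E X j

/-- The Hodge classes on `X` are Tate classes. -/
def HodgeIsTate : Prop := ∀ j c, IsHodge T X j c → IsTate j (emb E c)

/-- The Mumford-Tate conjecture for the classes on `X`: the Tate classes are combinations of Hodge
classes and the Hodge classes are Tate classes. -/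
def MumfordTate : Prop := TateIsHodge E X ∧ HodgeIsTate E X

variable (T) in
/-- The Hodge conjecture for `X`: the Hodge classes are classes of algebraic cycles (with rational
coefficients). -/
def HodgeConjecture : Prop := ∀ j c, IsHodge T X j c → IsCyc T.W X j c

variable {E X}

/-- The operator `x` belongs to the Lie algebra (over `ℚ_ℓ`) of the Hodge group of `X`: it is linear
and kills the Hodge classes on all powers of `X`. -/
def InHodgeLie (x : Hl E X → Hl E X) : Prop :=
  KillsOn (fun n j y => ∃ c, IsHodge T (pw X n) j c ∧ emb E c = y) x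

variable (E X)

/-- The Lie algebra of the Hodge group of `X` acts faithfully on the cohomology of degree `i`. -/
def FaithfulOn (i : ℕ) : Prop := ∀ x : Hl E X → Hl E X, InHodgeLie x →
  (∀ v : Hl E X, IsDeg i v → Null (x v)) → ∀ v, Null (x v)

/-- The degree `i` determines the cohomology of `X`: the cohomology algebra of `X` is generated by
the classes of degree `i` (as for `i = 1` if `X` is an abelian variety), or the Lie algebra of the
Hodge group of `X` acts faithfully on the cohomology of degree `i` (as for `i = 2` if `X` is a K3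
surface). -/
def Determines (i : ℕ) : Prop := GeneratedBy (T.W.gr X i) ∨ FaithfulOn E X i

/-- What is known if `X` is an abelian variety (or if the motive of `X` is of abelian type): the Hodge
classes on the powers of `X` are Tate classes (Deligne), the adjoint representation is semisimple
(Faltings), the centre of the Lie algebra of the Hodge group kills the Tate classes on the powers of
`X`, in other words it is contained in the Lie algebra of the image of the Galois group (Vasiu, Ullmo
and Yafaev). -/
structure OfAbelianType : Prop where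
  hodgeIsTate : ∀ n, HodgeIsTate E (pw X n)
  semisimple : AdSemisimple (V := Hl E X) ℚ_[E.ℓ] (E.ρ X)
  centre : ∀ x : Hl E X → Hl E X, InHodgeLie x →
    (∀ y : Hl E X → Hl E X, InHodgeLie y → ∀ v, x (y v) = y (x v)) → KillsOn (fun _ => IsTate) x

end

/-! ### Polarisations -/

section

variable {K A : Type} [Field K] [Algebra K ℂ] [Ring A] [Algebra K A]

/-- The vector `x` is of type `(p, q)`. -/
def HasType (pq : ℤ → ℤ → Submodule ℂ (Ext K ℂ A)) (p q : ℤ) (x : Ext K ℂ A) : Prop := x ∈ pq p q

/-- The spaces `pq p q` are a Hodge structure on `A` with polarisation `ψ`: `A^(p,q) = 0` unless `p`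
and `q` are between `0` and `d`, the complex conjugation maps `A^(p,q)` to `A^(q,p)`, the rational
bilinear form `ψ` vanishes on `A^(p,q) × A^(r,s)` unless `(r, s) = (q, p)`, and `i ^ (p - q) ψ(x, x̄)`
is a positive real number for all nonzero `x` in `A^(p,q)`. -/
structure IsPol (h : IsRat K) (pq : ℤ → ℤ → Submodule ℂ (Ext K ℂ A)) (d : ℕ) (ψ : Bil K A) :
    Prop where
  range : ∀ p q x, HasType pq p q x → x ≠ 0 → 0 ≤ p ∧ p ≤ d ∧ 0 ≤ q ∧ q ≤ d
  conj : ∀ p q x, HasType pq p q x → HasType pq q p (extConj h x)
  orth : ∀ p q r s x y, HasType pq p q x → HasType pq r s y → (r ≠ q ∨ s ≠ p) → extBil ψ x y = 0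
  pos : ∀ p q x, HasType pq p q x → x ≠ 0 →
    ∃ r : ℝ, 0 < r ∧ Complex.I ^ (p - q) * extBil ψ x (extConj h x) = r

end

/-- The rational bilinear forms on `H(X)`. -/
abbrev Form (W : WeilCohomology.{u, 0} ops) (X : 𝒱.Obj) : Type := Bil W.K (W.H X)

/-- The form `ψ` is a polarisation of the Hodge structure `H(X)`. -/
def IsPolarisation (T : HodgeTheory ops) (X : 𝒱.Obj) (ψ : Form T.W X) : Prop :=
  IsPol T.rat (T.pq X) X.dim ψ

end Pool.Agent.N202.TB.Ad
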