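import Mathlib

/-!
# Conjugation by the operators of a representation: definitions
-/

namespace Pool.Agent.N202.TB.Sh

section

variable {L : Type} [Field L] {V : Type} [AddCommGroup V] [Module L V] {Γ : Type} [Group Γ]

/-- The space `S` of linear operators is stable under the conjugations by the operators `ρ g`, for the
elements `g` of the subgroup `Δ`. -/
def ConjStable (ρ : Γ → V → V) (Δ : Subgroup Γ) (S : Submodule L (V →ₗ[L] V)) : Prop :=
  ∀ g ∈ Δ, ∀ s ∈ S, ∀ s' : V →ₗ[L] V, (∀ x, s' (ρ g x) = ρ g (s x)) → s' ∈ S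

variable (L) in
/-- The action by conjugation on the linear operators is semisimple: for all subgroups of finite
index stable subspaces have stable complements. -/
def AdSemisimple (ρ : Γ → V → V) : Prop := ∀ Δ : Subgroup Γ, Δ.FiniteIndex →
  ∀ S : Submodule L (V →ₗ[L] V), ConjStable ρ Δ S → ∃ S', ConjStable ρ Δ S' ∧ IsCompl S S'

/-- The vector is zero. -/
def Null (v : V) : Prop := v = 0

variable (L) in
/-- The map is linear. -/
def IsLin (f : V → V) : Prop := (∀ a b, f (a + b) = f a + f b) ∧ ∀ (c : L) a, f (c • a) = c • f a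

end

/-- The action `ρ` on an `ℓ`-adic vector space is continuous: subgroups of finite index move the
vectors only a little (in all linear coordinates). -/
def IsCont (ℓ : ℕ) [Fact ℓ.Prime] {V : Type} [AddCommGroup V] [Module ℚ_[ℓ] V] {Γ : Type} [Group Γ]
    (ρ : Γ → V → V) : Prop := ∀ (x : V) (f : V →ₗ[ℚ_[ℓ]] ℚ_[ℓ]) (ε : ℝ), 0 < ε →
  ∃ Δ : Subgroup Γ, Δ.FiniteIndex ∧ ∀ g ∈ Δ, ‖f (ρ g x) - f x‖ < ε

/-- The character `χ` with values in `ℚ_ℓ` is continuous. -/
def IsContChar (ℓ : ℕ) [Fact ℓ.Prime] {Γ : Type} [Group Γ] (χ : Γ → ℚ_[ℓ]) : Prop :=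
  ∀ ε : ℝ, 0 < ε → ∃ Δ : Subgroup Γ, Δ.FiniteIndex ∧ ∀ g ∈ Δ, ‖χ g - 1‖ < ε

/-- The sum of the maps `f i` is the identity. -/
def SumIsId {V : Type} [AddCommGroup V] {r : ℕ} (f : Fin r → V → V) : Prop := ∀ y, ∑ i, f i y = y

/-- The algebra `A` is generated by the subspace `p`. -/
def GeneratedBy {K A : Type} [Field K] [Ring A] [Algebra K A] (p : Submodule K A) : Prop :=
  Algebra.adjoin K (p : Set A) = ⊤

end Pool.Agent.N202.TB.Sh
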