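import Pool.Agent.N202.TB.Lit2
import Pool.Agent.N202.TB.Alg

/-!
# Varieties of abelian type: definitions

(Short forms of the definitions in `Pool.Agent.N202.TB.Lit`.)
-/

open CategoryTheory AlgebraicGeometry

universe u

namespace Pool.Agent.N202.TB.Sh

open Pool.Agent.H914 Pool.Agent.H914.VarClass Pool.Agent.H914.VarClass.Obj
  Pool.Agent.H914.WeilCohomology Pool.Agent.Y121.AHS
open Pool.Agent.Y133.Half (pw)
open Pool.Agent.N202.TB (Realization IsTate HodgeIsTate TateConjecture)
open Pool.Agent.N996.BP (HodgeConjecture)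
open Pool.Agent.N132.Lit (IsCycCl)

variable {k : Type u} [Field k] {𝒱 : VarClass k} {ops : CycleOps 𝒱}

/-- The (not necessarily linear) operators on the cohomology of `X` with coefficients in `ℚ_ℓ`. -/
def OpL (T : HodgeTheory ops) (ℓ : ℕ) [Fact ℓ.Prime] [Algebra T.W.K ℚ_[ℓ]] (X : 𝒱.Obj) : Type :=
  HL T.W ℚ_[ℓ] X → HL T.W ℚ_[ℓ] X

variable {T : HodgeTheory ops} {ℓ : ℕ} [Fact ℓ.Prime] [Algebra T.W.K ℚ_[ℓ]] {X : 𝒱.Obj}

/-- The value of the operator. -/
def ap (f : OpL T ℓ X) (v : HL T.W ℚ_[ℓ] X) : HL T.W ℚ_[ℓ] X := f v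

/-- The external product of classes on `X ^ (n + 1)` and on `X`. -/
noncomputable def ext {n : ℕ} (a : HL T.W ℚ_[ℓ] (pw X n)) (b : HL T.W ℚ_[ℓ] X) :
    HL T.W ℚ_[ℓ] (pw X (n + 1)) := mulL (mapL (fst (pw X n) X) a) (mapL (snd (pw X n) X) b)

/-- The linear operators `D n` are the actions of the linear operator `x` on the cohomology of the
powers of `X` as a derivation: `D 0 = x`, and `D (n + 1)` is given by the product rule. (`pw X n` is
the product of `n + 1` copies of `X`, and `pw X (n + 1)` is the product of `pw X n` and `X`.) -/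
structure IsDerivation (x : OpL T ℓ X) (D : ∀ n, OpL T ℓ (pw X n)) : Prop where
  linear : ∀ n, IsLin ℚ_[ℓ] (ap (D n))
  zero : D 0 = x
  succ : ∀ n a b, ap (D (n + 1)) (ext a b) = ext (ap (D n) a) b + ext a (ap x b)

/-- The operator `x` belongs to the Lie algebra (over `ℚ_ℓ`) of the Hodge group of `X`: it is linear
and kills the Hodge classes on all powers of `X`. -/
def InHodgeLie (x : OpL T ℓ X) : Prop :=
  ∃ D, IsDerivation x D ∧ ∀ n j c, IsHodge T (pw X n) j c → Null (ap (D n) (emL T.W ℚ_[ℓ] c))

/-- The operator `x` kills the Tate classes on all powers of `X`. -/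
def KillsTate (E : Realization T ℓ) (x : OpL T ℓ X) : Prop :=
  ∃ D, IsDerivation x D ∧ ∀ n j c, IsTate E (pw X n) j c → Null (ap (D n) c)

/-- The operators commute. -/
def Commute (x y : OpL T ℓ X) : Prop := ∀ v, ap x (ap y v) = ap y (ap x v)

variable (T ℓ X) in
/-- The Lie algebra of the Hodge group of `X` acts faithfully on the cohomology of degree `i`. -/
def FaithfulOn (i : ℕ) : Prop := ∀ x : OpL T ℓ X, InHodgeLie x →
  (∀ v, IsDeg i v → Null (ap x v)) → ∀ v, Null (ap x v)

variable (T ℓ X) in
/-- The degree `i` determines the cohomology of `X`: the cohomology algebra of `X` is generated by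
the classes of degree `i` (as for `i = 1` if `X` is an abelian variety), or the Lie algebra of the
Hodge group of `X` acts faithfully on the cohomology of degree `i` (as for `i = 2` if `X` is a K3
surface). -/
def Determines (i : ℕ) : Prop := GeneratedBy (T.W.gr X i) ∨ FaithfulOn T ℓ X i

/-- What is known if `X` is an abelian variety (or if the motive of `X` is of abelian type): the Hodge
classes on the powers of `X` are Tate classes (Deligne), the adjoint representation is semisimple
(Faltings), the centre of the Lie algebra of the Hodge group kills the Tate classes on the powers of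
`X`, in other words it is contained in the Lie algebra of the image of the Galois group (Vasiu, Ullmo
and Yafaev). -/
structure OfAbelianType (E : Realization T ℓ) (X : 𝒱.Obj) : Prop where
  hodgeIsTate : ∀ n, HodgeIsTate E (pw X n)
  semisimple : AdSemisimple ℚ_[ℓ] (E.R X).ρ
  centre : ∀ x : OpL T ℓ X, InHodgeLie x → (∀ y : OpL T ℓ X, InHodgeLie y → Commute x y) →
    KillsTate E x

/-- The map `f` is the correspondence `x ↦ pr₂_* (c · pr₁^* x)` on the cohomology with coefficients
in `ℚ_ℓ` given by the class `c` of an algebraic cycle on `X × Y`. -/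
def IsCorr (T : HodgeTheory ops) (ℓ : ℕ) [Fact ℓ.Prime] [Algebra T.W.K ℚ_[ℓ]] {X Y : 𝒱.Obj}
    (f : HL T.W ℚ_[ℓ] X → HL T.W ℚ_[ℓ] Y) : Prop :=
  ∃ j c, IsCycCl T.W (X.prod Y) j c ∧
    ∀ x, pushL (snd X Y) (mulL (emL T.W ℚ_[ℓ] c) (mapL (fst X Y) x)) = f x

variable (T ℓ X) in
/-- The map `f` is the composition of two algebraic correspondences `H(Y) → H(X ^ (m + 1)) → H(Y)`. -/
def Factors {Y : 𝒱.Obj} (f : OpL T ℓ Y) : Prop :=
  ∃ m u v, IsCorr T ℓ (Y := pw X m) u ∧ IsCorr T ℓ v ∧ v ∘ u = f

variable (T ℓ X) in
/-- The cohomology of `Y` comes from powers of `X` by algebraic correspondences: the identity of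
the cohomology of `Y` is a finite sum of compositions `H(Y) → H(X ^ (m + 1)) → H(Y)` of
correspondences given by algebraic cycles. (This holds if the homological motive of `Y` is a direct
summand of a sum of Tate twists of motives of powers of `X`, for instance if there is a surjective
morphism from a power of `X` to `Y`, or if `Y` is a product of factors of `X`.) -/
def FromPowers (Y : 𝒱.Obj) : Prop :=
  ∃ (r : ℕ) (f : Fin r → OpL T ℓ Y), (∀ i, Factors T ℓ X (f i)) ∧ SumIsId fun i => ap (f i)

variable (T ℓ X) in
/-- The property `P` holds for all powers of `X` and for all varieties whose cohomology comes from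
powers of `X` by algebraic correspondences. -/
def OnPowers (P : 𝒱.Obj → Prop) : Prop := (∀ n, P (pw X n)) ∧ ∀ Y, FromPowers T ℓ X Y → P Y

/-- For `X` the conjecture of Tate is equivalent to the conjecture of Hodge. -/
def TateIffHodge (E : Realization T ℓ) (X : 𝒱.Obj) : Prop :=
  TateConjecture E X ↔ HodgeConjecture T X

/-- For `X` the conjectures of Tate and Hodge are true. -/
def TateAndHodge (E : Realization T ℓ) (X : 𝒱.Obj) : Prop :=
  TateConjecture E X ∧ HodgeConjecture T X

end Pool.Agent.N202.TB.Sh
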