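import Pool.Agent.N202.TB.Fin
import Pool.Agent.N202.TB.Lit3

/-!
# Comparison of the definitions
-/

set_option linter.unusedSectionVars false

open CategoryTheory AlgebraicGeometry

universe u

namespace Pool.Agent.N202.TB

open Pool.Agent.H914 Pool.Agent.H914.VarClass Pool.Agent.H914.VarClass.Obj
  Pool.Agent.H914.WeilCohomology Pool.Agent.Y121.AHS
open Pool.Agent.Y133.Half (pw)
open Pool.Agent.N996.BP (RForm IsPolarisation)

variable {k : Type u} [Field k] {𝒱 : VarClass k} {ops : CycleOps 𝒱}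
  {T : HodgeTheory ops} {ℓ : ℕ} [Fact ℓ.Prime] [Algebra T.W.K ℚ_[ℓ]] {E : Realization T ℓ}
  {X : 𝒱.Obj}

/-- The linear map as an operator. -/
noncomputable def unb (x : Op E X) : Sh.OpL T ℓ X := fun v => x v

/-- The operator as a linear map. -/
noncomputable def bun (E : Realization T ℓ) (x : Sh.OpL T ℓ X) (h : Sh.IsLin ℚ_[ℓ] (Sh.ap x)) : Op E X where
  toFun := x
  map_add' := h.1
  map_smul' := h.2

lemma lin_unb (x : Op E X) : Sh.IsLin ℚ_[ℓ] (Sh.ap (unb x)) :=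
  ⟨fun a b => map_add x a b, fun c a => map_smul x c a⟩

lemma der_new {x : Op E X} {D : ∀ n, Op E (pw X n)} (h : IsDerivation E X x D) :
    Sh.IsDerivation (unb x) (fun n => unb (D n)) where
  linear n := lin_unb (D n)
  zero := congrArg (fun f : Op E X => unb f) h.1
  succ n a b := h.2 n a b

lemma lin_of_der {x : Sh.OpL T ℓ X} {D : ∀ n, Sh.OpL T ℓ (pw X n)} (h : Sh.IsDerivation x D) :
    Sh.IsLin ℚ_[ℓ] (Sh.ap x) := by
  have h1 := h.linear 0
  rw [h.zero] at h1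
  exact h1

lemma der_old {x : Sh.OpL T ℓ X} {D : ∀ n, Sh.OpL T ℓ (pw X n)} (h : Sh.IsDerivation x D) :
    IsDerivation E X (bun E x (lin_of_der h)) (fun n => bun E (D n) (h.linear n)) := by
  refine ⟨?_, fun n a b => h.succ n a b⟩
  refine LinearMap.ext fun v => ?_
  exact congrFun h.zero v

lemma lie_new {x : Op E X} (h : InHodgeLie E X x) : Sh.InHodgeLie (unb x) := by
  obtain ⟨D, hD, hk⟩ := h
  exact ⟨_, der_new hD, fun n j c hc => hk n j c hc⟩

lemma lie_old {x : Sh.OpL T ℓ X} (h : Sh.InHodgeLie x) :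
    ∃ hx : Sh.IsLin ℚ_[ℓ] (Sh.ap x), InHodgeLie E X (bun E x hx) := by
  obtain ⟨D, hD, hk⟩ := h
  exact ⟨lin_of_der hD, _, der_old hD, fun n j c hc => hk n j c hc⟩

lemma kills_old {x : Op E X} (h : Sh.KillsTate E (unb x)) : KillsTate E X x := by
  obtain ⟨D, hD, hk⟩ := h
  exact ⟨_, der_old hD, fun n j c hc => hk n j c hc⟩

/-- The comparison. -/
theorem ofAbelianType (h : Sh.OfAbelianType E X) : OfAbelianType E X where
  hodgeIsTate := h.hodgeIsTate
  semisimple := h.semisimple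
  centre := by
    intro x hx hc
    refine kills_old (h.centre (unb x) (lie_new hx) fun y hy => ?_)
    obtain ⟨hy', hy⟩ := lie_old (E := E) hy
    have h1 := hc _ hy
    intro v
    exact congrArg (fun f : Op E X => f v) h1

/-- The comparison. -/
theorem determines {i : ℕ} (h : Sh.Determines T ℓ X i) : Determines E X i := by
  rcases h with h | h
  · exact Or.inl h
  · refine Or.inr fun x hx h0 => LinearMap.ext fun v => ?_
    refine h (unb x) (lie_new hx) (fun v hv => ?_) v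
    refine Pool.Agent.N132.HT.base_ind (W := T.W) (L := ℚ_[ℓ]) (p := T.W.gr X i)
      (q := fun v => opV x v = 0) (opV_zero x) ?_ ?_ hv
    · intro a b ha hb
      rw [opV_add, ha, hb, add_zero]
    · intro l a ha
      rw [opV_smul]
      have h1 : opV x (Pool.Agent.Y121.AH.em T.W ℚ_[ℓ] a) = 0 := h0 a ha
      rw [h1, smul_zero]

open Pool.Agent.Y121.AH (em em_injective) in
/-- Correspondences of rational classes. -/
lemma corr_em {Y : 𝒱.Obj} (c : T.W.H (X.prod Y)) (x : T.W.H X) :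
    pushL (snd X Y) (mulL (emL T.W ℚ_[ℓ] c) (mapL (fst X Y) (emL T.W ℚ_[ℓ] x))) =
      emL T.W ℚ_[ℓ] (T.W.corr c x) := by
  have h1 : mapL (fst X Y) (emL T.W ℚ_[ℓ] x) = emL T.W ℚ_[ℓ] (T.W.map (fst X Y) x) :=
    LinearMap.baseChange_tmul _ _ _
  have h2 : mulL (emL T.W ℚ_[ℓ] c) (emL T.W ℚ_[ℓ] (T.W.map (fst X Y) x)) =
      emL T.W ℚ_[ℓ] (c * T.W.map (fst X Y) x) :=
    (Pool.Agent.Y121.AH.em_mul (L := ℚ_[ℓ]) c (T.W.map (fst X Y) x)).symm
  have h3 : pushL (snd X Y) (emL T.W ℚ_[ℓ] (c * T.W.map (fst X Y) x)) =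
      emL T.W ℚ_[ℓ] (T.W.push (snd X Y) (c * T.W.map (fst X Y) x)) :=
    LinearMap.baseChange_tmul _ _ _
  rw [h1, h2, h3]
  rfl

open Pool.Agent.Y121.AH (em em_injective em_add em_zero) in
/-- The comparison. -/
theorem fromPowers {Y : 𝒱.Obj} (h : Sh.FromPowers T ℓ X Y) :
    Pool.Agent.N996.BP.FromPowers T X Y := by
  obtain ⟨r, f, hf, hid⟩ := h
  choose m u v hu hv huv using hf
  choose a cu hcu hu using hu
  choose b cv hcv hv using hv
  choose zu hzu using hcu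
  choose zv hzv using hcv
  refine ⟨r, m, a, b, zu, zv, fun i => ⟨(hzu i).1, (hzv i).1⟩, fun y => ?_⟩
  have h1 : ∀ i, Sh.ap (f i) (emL T.W ℚ_[ℓ] y) =
      emL T.W ℚ_[ℓ] (Pool.Agent.N996.BP.act T (zv i) (Pool.Agent.N996.BP.act T (zu i) y)) := by
    intro i
    have h2 : Sh.ap (f i) (emL T.W ℚ_[ℓ] y) = v i (u i (emL T.W ℚ_[ℓ] y)) :=
      (congrFun (huv i) _).symm
    rw [h2, ← hu, corr_em, ← hv, corr_em, ← (hzu i).2, ← (hzv i).2]
    rfl
  have h2 := hid (emL T.W ℚ_[ℓ] y)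
  simp only [h1] at h2
  have h3 : emL T.W ℚ_[ℓ] (∑ i, Pool.Agent.N996.BP.act T (zv i)
      (Pool.Agent.N996.BP.act T (zu i) y)) = emL T.W ℚ_[ℓ] y :=
    (Pool.Agent.N97.TB.Glue.em_corr_sum (L := ℚ_[ℓ]) _ _).trans h2
  refine sub_eq_zero.1 (em_injective (L := ℚ_[ℓ]) ?_)
  have h4 : ∀ p q : T.W.H Y, em T.W ℚ_[ℓ] (p - q) = em T.W ℚ_[ℓ] p - em T.W ℚ_[ℓ] q := by
    intro p q
    exact TensorProduct.tmul_sub _ _ _
  rw [h4]
  exact sub_eq_zero.2 h3

theorem fourth_power' {ψ : RForm T.W X} (hψ : IsPolarisation T X ψ) (h : Sh.OfAbelianType E X) :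
    ((∀ n, MumfordTate E (pw X n)) ↔ TateIsHodge E (pw X 3)) ∧
      ∀ i, Sh.Determines T ℓ X i →
        ((∀ n, MumfordTate E (pw X n)) ↔ TateIsHodgeIn E (pw X 3) (2 * i)) := by
  obtain ⟨h1, h2⟩ := fourth_power hψ (ofAbelianType h)
  exact ⟨h1, fun i hi => h2 i (determines hi)⟩

theorem one_power' {ψ : RForm T.W X} (hψ : IsPolarisation T X ψ) (h : Sh.OfAbelianType E X) :
    ((TateConjecture E (pw X 3) ∨
        ∃ i, Sh.Determines T ℓ X i ∧ TateConjectureIn E (pw X 3) (2 * i)) →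
      (∀ n, MumfordTate E (pw X n)) ∧ Sh.OnPowers T ℓ X (Sh.TateIffHodge E)) ∧
    (TateConjecture E (pw X (Pool.Agent.N996.BP.exponent (Pool.Agent.N996.BP.totalBetti T X) - 1)) →
      Sh.OnPowers T ℓ X (Sh.TateAndHodge E)) := by
  obtain ⟨h1, h2⟩ := one_power hψ (ofAbelianType h)
  refine ⟨fun h3 => ?_, fun h3 => ?_⟩
  · obtain ⟨h4, h5, h6⟩ := h1 (h3.imp id fun ⟨i, hi, h⟩ => ⟨i, determines hi, h⟩)
    exact ⟨h4, h5, fun Y hY => h6 Y (fromPowers hY)⟩
  · obtain ⟨h4, h5⟩ := h2 h3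
    exact ⟨h4, fun Y hY => h5 Y (fromPowers hY)⟩

end Pool.Agent.N202.TB
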