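import Pool.Agent.N132.Lit.Alg
import Pool.Agent.Y121.AHS.Defs
import Pool.Agent.Y133.Half.PwDefs
import Pool.Agent.N996.BP.Ext2
import Pool.Agent.N202.TB.Alg

/-!
# `ℓ`-adic Hodge theories and varieties of abelian type: definitions

In the intended use the varieties are the smooth projective (geometrically irreducible) ones over a
finitely generated subfield `k` of the complex numbers, with the algebraic cycles over an algebraic
closure of `k`, `T` is the theory `X ↦ H(X(ℂ), ℚ)`, and `ℚ_ℓ ⊗ H(X)` is the `ℓ`-adic cohomology with
the action of the Galois group `Γ` of `k`.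
-/

open CategoryTheory AlgebraicGeometry

universe u

namespace Pool.Agent.N202.TB.Th

open Pool.Agent.H914 Pool.Agent.H914.VarClass Pool.Agent.H914.VarClass.Obj
  Pool.Agent.H914.WeilCohomology Pool.Agent.Y121.AHS
open Pool.Agent.Y133.Half (pw)
open Pool.Agent.N132.Lit (GalAct TateVec Comb)
open Pool.Agent.N996.BP (Bil extBil extConj)
open Pool.Agent.N202.TB.Sh

variable {k : Type u} [Field k] {𝒱 : VarClass k} {ops : CycleOps 𝒱}

/-- The class `c` is the class of an algebraic cycle of codimension `j`. -/
def IsCyc (T : HodgeTheory ops) (X : 𝒱.Obj) (j : ℕ) (c : T.W.H X) : Prop :=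
  ∃ z, X.IsCyc j z ∧ T.W.cl X z = c

/-- A Hodge theory with the `ℓ`-adic realization: the actions `R` of a group `Γ` (the Galois group)
on the cohomology with coefficients in `ℚ_ℓ`, with the formal properties `GalAct` of a Galois action
(compatible with degrees, products, traces and cycle classes), compatible with pull-backs, and
continuous. -/
structure Theory (ops : CycleOps 𝒱) where
  /-- the cohomology with its Hodge structure -/
  T : HodgeTheory ops
  /-- the prime number -/
  ℓ : ℕ
  [prime : Fact ℓ.Prime]
  [alg : Algebra T.W.K ℚ_[ℓ]]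
  /-- the group -/
  Γ : Type
  [grp : Group Γ]
  /-- the character on the Tate twist -/
  χ : Γ → ℚ_[ℓ]
  one : χ 1 = 1
  mul : ∀ g h, χ (g * h) = χ g * χ h
  /-- the actions -/
  R : ∀ X, GalAct T.W.K ℚ_[ℓ] χ (T.W.gr X) X.dim (T.W.tr X) (IsCyc T X)
  map : ∀ (X Y : 𝒱.Obj) (f : X ⟶ Y) g y, (R X).ρ g (mapL f y) = mapL f ((R Y).ρ g y)
  cont : ∀ X, IsCont ℓ (V := HL T.W ℚ_[ℓ] X) (R X).ρ
  contχ : IsContChar ℓ χ

attribute [instance] Theory.prime Theory.alg Theory.grp

variable (S : Theory ops)

/-- The cohomology with coefficients in `ℚ_ℓ`. -/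
def Hl (X : 𝒱.Obj) : Type := HL S.T.W ℚ_[S.ℓ] X

noncomputable instance instAddHl (X : 𝒱.Obj) : AddCommGroup (Hl S X) := instAddHL S.T.W ℚ_[S.ℓ] X

noncomputable instance instModHl (X : 𝒱.Obj) : Module ℚ_[S.ℓ] (Hl S X) :=
  instModHL S.T.W ℚ_[S.ℓ] X

/-- The rational cohomology. -/
abbrev HQ (X : 𝒱.Obj) : Type := S.T.W.H X

variable {S} {X : 𝒱.Obj}

/-- The rational class with coefficients in `ℚ_ℓ`. -/
noncomputable def emb (c : HQ S X) : Hl S X := emL S.T.W ℚ_[S.ℓ] c

/-- The element `x` is a linear combination of rational classes with the property `p`. -/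
def IsComb (p : HQ S X → Prop) (x : Hl S X) : Prop := Comb S.T.W.K ℚ_[S.ℓ] p x

/-- The class `x` is a Tate class of degree `2 j`. -/
def IsTate (j : ℕ) (x : Hl S X) : Prop := TateVec (S.R X) j x

/-- The class `c` is a Hodge class of degree `2 j`. -/
def IsHdg (j : ℕ) (c : HQ S X) : Prop := IsHodge S.T X j c

/-! ### The conjectures -/

variable (S X)

/-- The Tate conjecture for the cycles of codimension `j` on `X` (over all finite extensions of the
field): the Tate classes are combinations of classes of algebraic cycles. -/
def TateConjectureIn (j : ℕ) : Prop := ∀ x : Hl S X, IsTate j x → IsComb (IsCyc S.T X j) x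

/-- The Tate conjecture for `X`. -/
def TateConjecture : Prop := ∀ j, TateConjectureIn S X j

/-- The Tate classes of degree `2 j` on `X` are combinations of Hodge classes. -/
def TateIsHodgeIn (j : ℕ) : Prop := ∀ x : Hl S X, IsTate j x → IsComb (IsHdg j) x

/-- The Tate classes on `X` are combinations of Hodge classes. -/
def TateIsHodge : Prop := ∀ j, TateIsHodgeIn S X j

/-- The Hodge classes on `X` are Tate classes. -/
def HodgeIsTate : Prop := ∀ j (c : HQ S X), IsHdg j c → IsTate j (emb c)

/-- The Mumford-Tate conjecture for the classes on `X`: the Tate classes are combinations of Hodge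
classes and the Hodge classes are Tate classes. -/
def MumfordTate : Prop := TateIsHodge S X ∧ HodgeIsTate S X

/-- The Hodge conjecture for `X`: the Hodge classes are classes of algebraic cycles (with rational
coefficients). -/
def HodgeConjecture : Prop := ∀ j (c : HQ S X), IsHdg j c → IsCyc S.T X j c

/-! ### The Lie algebra of the Hodge group -/

/-- The (not necessarily linear) operators on the cohomology of `X` with coefficients in `ℚ_ℓ`. -/
def Opr : Type := Hl S X → Hl S X

variable {S X}

/-- The value of the operator. -/
def ap (f : Opr S X) (v : Hl S X) : Hl S X := f v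

/-- The external product of classes on `X ^ (n + 1)` and on `X`. -/
noncomputable def ext {n : ℕ} (a : Hl S (pw X n)) (b : Hl S X) : Hl S (pw X (n + 1)) :=
  mulL (mapL (fst (pw X n) X) a) (mapL (snd (pw X n) X) b)

/-- The linear operators `D n` are the actions of the linear operator `x` on the cohomology of the
powers of `X` as a derivation: `D 0 = x`, and `D (n + 1)` is given by the product rule. (`pw X n` is
the product of `n + 1` copies of `X`, and `pw X (n + 1)` is the product of `pw X n` and `X`.) -/
structure IsDerivation (x : Opr S X) (D : ∀ n, Opr S (pw X n)) : Prop where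
  linear : ∀ n, IsLin ℚ_[S.ℓ] (ap (D n))
  zero : D 0 = x
  succ : ∀ n a b, ap (D (n + 1)) (ext a b) = Add.add (ext (ap (D n) a) b) (ext a (ap x b))

/-- The operator `x` belongs to the Lie algebra (over `ℚ_ℓ`) of the Hodge group of `X`: it is linear
and kills the Hodge classes on all powers of `X`. -/
def InHodgeLie (x : Opr S X) : Prop :=
  ∃ D, IsDerivation x D ∧ ∀ n j c, IsHdg j c → Null (ap (D n) (emb c))

/-- The operator `x` kills the Tate classes on all powers of `X`. -/
def KillsTate (x : Opr S X) : Prop :=
  ∃ D, IsDerivation x D ∧ ∀ n j c, IsTate j c → Null (ap (D n) c)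

/-- The operators commute. -/
def Commute (x y : Opr S X) : Prop := ∀ v, ap x (ap y v) = ap y (ap x v)

variable (S X) in
/-- The Lie algebra of the Hodge group of `X` acts faithfully on the cohomology of degree `i`. -/
def FaithfulOn (i : ℕ) : Prop := ∀ x : Opr S X, InHodgeLie x →
  (∀ v : Hl S X, IsDeg i v → Null (ap x v)) → ∀ v, Null (ap x v)

variable (S X) in
/-- The degree `i` determines the cohomology of `X`: the cohomology algebra of `X` is generated by
the classes of degree `i` (as for `i = 1` if `X` is an abelian variety), or the Lie algebra of the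
Hodge group of `X` acts faithfully on the cohomology of degree `i` (as for `i = 2` if `X` is a K3
surface). -/
def Determines (i : ℕ) : Prop := GeneratedBy (S.T.W.gr X i) ∨ FaithfulOn S X i

variable (S X) in
/-- What is known if `X` is an abelian variety (or if the motive of `X` is of abelian type): the Hodge
classes on the powers of `X` are Tate classes (Deligne), the adjoint representation is semisimple
(Faltings), the centre of the Lie algebra of the Hodge group kills the Tate classes on the powers of
`X`, in other words it is contained in the Lie algebra of the image of the Galois group (Vasiu, Ullmo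
and Yafaev). -/
structure OfAbelianType : Prop where
  hodgeIsTate : ∀ n, HodgeIsTate S (pw X n)
  semisimple : AdSemisimple (V := Hl S X) ℚ_[S.ℓ] (S.R X).ρ
  centre : ∀ x : Opr S X, InHodgeLie x → (∀ y : Opr S X, InHodgeLie y → Commute x y) →
    KillsTate x

/-! ### Polarisations -/

variable (S X)

/-- The cohomology with complex coefficients. -/
def HC : Type := HL S.T.W ℂ X

/-- The class `x` is of type `(p, q)`. -/
def IsPQ (p q : ℤ) (x : HC S X) : Prop := IsType S.T.pq p q x

theorem isRat : Pool.Agent.N996.BP.IsRat S.T.W.K := S.T.rat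

/-- The complex conjugation `z ⊗ c ↦ z̄ ⊗ c`. -/
noncomputable def conj (x : HC S X) : HC S X := extConj (isRat S) x

/-- The rational bilinear forms on `H(X)`. -/
def Form : Type := Bil S.T.W.K (S.T.W.H X)

variable {S X}

/-- The extension of a rational bilinear form to complex coefficients. -/
noncomputable def formC (ψ : Form S X) (x y : HC S X) : ℂ := extBil ψ x y

/-- The class `x` is zero. -/
def IsZero (x : HC S X) : Prop := Null (V := HL S.T.W ℂ X) x

/-- The Hodge decomposition of `H(X)` is a Hodge structure with polarisation `ψ`: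
`H^(p,q)(X) = 0` unless `p` and `q` are between `0` and the dimension of `X`, the complex
conjugation maps `H^(p,q)(X)` to `H^(q,p)(X)`, the rational bilinear form `ψ` vanishes on
`H^(p,q)(X) × H^(r,s)(X)` unless `(r, s) = (q, p)`, and `i ^ (p - q) ψ(x, x̄)` is a positive real
number for all nonzero `x` in `H^(p,q)(X)`. -/
structure IsPolarisation (ψ : Form S X) : Prop where
  range : ∀ (p q : ℤ) (x : HC S X), IsPQ S X p q x → ¬IsZero x →
    0 ≤ p ∧ p ≤ X.dim ∧ 0 ≤ q ∧ q ≤ X.dim
  conj : ∀ (p q : ℤ) (x : HC S X), IsPQ S X p q x → IsPQ S X q p (conj S X x)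
  orth : ∀ (p q r s : ℤ) (x y : HC S X), IsPQ S X p q x → IsPQ S X r s y →
    (r ≠ q ∨ s ≠ p) → formC ψ x y = 0
  pos : ∀ (p q : ℤ) (x : HC S X), IsPQ S X p q x → ¬IsZero x →
    ∃ r : ℝ, 0 < r ∧ Complex.I ^ (p - q) * formC ψ x (Th.conj S X x) = r

/-! ### Correspondences -/

/-- The map `f` is the correspondence `x ↦ pr₂_* (c · pr₁^* x)` given by the class `c` of an
algebraic cycle on `X × Y`. -/
def IsCorr {Y : 𝒱.Obj} (f : Hl S X → Hl S Y) : Prop := ∃ j c, IsCyc S.T (X.prod Y) j c ∧
  ∀ x, pushL (snd X Y) (mulL (emb (S := S) c) (mapL (fst X Y) x)) = f x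

variable (S X)

/-- The map `f` is the composition of two algebraic correspondences `H(Y) → H(X ^ (m + 1)) → H(Y)`. -/
def Factors {Y : 𝒱.Obj} (f : Opr S Y) : Prop :=
  ∃ (m : ℕ) (u : Hl S Y → Hl S (pw X m)) (v : Hl S (pw X m) → Hl S Y), IsCorr u ∧ IsCorr v ∧
    v ∘ u = f

/-- The cohomology of `Y` comes from powers of `X` by algebraic correspondences: the identity of
the cohomology of `Y` is a finite sum of compositions `H(Y) → H(X ^ (m + 1)) → H(Y)` of
correspondences given by algebraic cycles. (This holds if the homological motive of `Y` is a direct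
summand of a sum of Tate twists of motives of powers of `X`, for instance if there is a surjective
morphism from a power of `X` to `Y`, or if `Y` is a product of factors of `X`.) -/
def FromPowers (Y : 𝒱.Obj) : Prop :=
  ∃ (r : ℕ) (f : Fin r → Opr S Y), (∀ i, Factors S X (f i)) ∧ SumIsId fun i => ap (f i)

/-- The property `P` holds for all powers of `X` and for all varieties whose cohomology comes from
powers of `X` by algebraic correspondences. -/
def OnPowers (P : 𝒱.Obj → Prop) : Prop := (∀ n, P (pw X n)) ∧ ∀ Y, FromPowers S X Y → P Y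

/-- The sum of the Betti numbers. -/
noncomputable def totalBetti : ℕ := Module.finrank ℚ_[S.ℓ] (Hl S X)

/-- The explicit exponent. -/
def exponent (b : ℕ) : ℕ := (2 * b * (b ^ 2 + 1)) ^ (b ^ 2 + 1)

end Pool.Agent.N202.TB.Th
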