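import Pool.Agent.N202.TB.Bridge
import Pool.Agent.N202.TB.Th

/-!
# Comparison of the definitions
-/

set_option linter.unusedSectionVars false

open CategoryTheory AlgebraicGeometry

universe u

namespace Pool.Agent.N202.TB.Th

open Pool.Agent.H914 Pool.Agent.H914.VarClass Pool.Agent.H914.VarClass.Obj
  Pool.Agent.H914.WeilCohomology Pool.Agent.Y121.AHS
open Pool.Agent.Y133.Half (pw)

variable {k : Type u} [Field k] {𝒱 : VarClass k} {ops : CycleOps 𝒱} (S : Theory ops)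
  {X : 𝒱.Obj}

/-- The realization. -/
def toR : Realization S.T S.ℓ where
  Γ := S.Γ
  χ := S.χ
  one := S.one
  mul := S.mul
  R := S.R
  map := S.map
  cont := S.cont
  contχ := S.contχ

variable {S}

lemma isComb_iff {p : S.T.W.H X → Prop} {x : Hl S X} :
    IsComb p x ↔ Pool.Agent.N132.Lit.Comb S.T.W.K ℚ_[S.ℓ] p x := Iff.rfl

lemma tateIn_iff {j : ℕ} : TateConjectureIn S X j ↔ TB.TateConjectureIn (toR S) X j := Iff.rfl

lemma tate_iff : TateConjecture S X ↔ TB.TateConjecture (toR S) X := Iff.rfl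

lemma tihIn_iff {j : ℕ} : TateIsHodgeIn S X j ↔ TB.TateIsHodgeIn (toR S) X j := Iff.rfl

lemma tih_iff : TateIsHodge S X ↔ TB.TateIsHodge (toR S) X := Iff.rfl

lemma mt_iff : MumfordTate S X ↔ TB.MumfordTate (toR S) X := Iff.rfl

lemma hc_iff : HodgeConjecture S X ↔ Pool.Agent.N996.BP.HodgeConjecture S.T X := Iff.rfl

lemma der_iff {x : Opr S X} {D : ∀ n, Opr S (pw X n)} :
    IsDerivation x D ↔ Sh.IsDerivation (T := S.T) (ℓ := S.ℓ) x D :=
  ⟨fun h => ⟨h.linear, h.zero, h.succ⟩, fun h => ⟨h.linear, h.zero, h.succ⟩⟩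

lemma lie_iff {x : Opr S X} : InHodgeLie x ↔ Sh.InHodgeLie (T := S.T) (ℓ := S.ℓ) x :=
  exists_congr fun _ => and_congr der_iff Iff.rfl

lemma kt_iff {x : Opr S X} : KillsTate x ↔ Sh.KillsTate (toR S) x :=
  exists_congr fun _ => and_congr der_iff Iff.rfl

theorem oat (h : OfAbelianType S X) : Sh.OfAbelianType (toR S) X where
  hodgeIsTate := h.hodgeIsTate
  semisimple := h.semisimple
  centre x hx hc := kt_iff.1 (h.centre x (lie_iff.2 hx) fun y hy => hc y (lie_iff.1 hy))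

theorem det {i : ℕ} (h : Determines S X i) : Sh.Determines S.T S.ℓ X i :=
  h.imp id fun h x hx h0 => h x (lie_iff.2 hx) h0

theorem pol {ψ : Form S X} (h : IsPolarisation ψ) : Pool.Agent.N996.BP.IsPolarisation S.T X ψ where
  range := h.range
  conj := h.conj
  orth := h.orth
  pos := h.pos

lemma fac_iff {Y : 𝒱.Obj} {f : Opr S Y} : Factors S X f ↔ Sh.Factors S.T S.ℓ X f := Iff.rfl

lemma fp_iff {Y : 𝒱.Obj} : FromPowers S X Y ↔ Sh.FromPowers S.T S.ℓ X Y := Iff.rfl

lemma betti : totalBetti S X = Pool.Agent.N996.BP.totalBetti S.T X :=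
  (Module.finrank_baseChange : Module.finrank ℚ_[S.ℓ] (TensorProduct S.T.W.K ℚ_[S.ℓ] (S.T.W.H X)) =
    Module.finrank S.T.W.K (S.T.W.H X))

/-- The main theorem on the Mumford-Tate conjecture. -/
theorem four {ψ : Form S X} (hψ : IsPolarisation ψ) (h : OfAbelianType S X) :
    ((∀ n, MumfordTate S (pw X n)) ↔ TateIsHodge S (pw X 3)) ∧
      ∀ i, Determines S X i →
        ((∀ n, MumfordTate S (pw X n)) ↔ TateIsHodgeIn S (pw X 3) (2 * i)) := by
  obtain ⟨h1, h2⟩ := fourth_power' (pol hψ) (oat h)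
  exact ⟨h1, fun i hi => h2 i (det hi)⟩

/-- The main theorem on the conjectures of Tate and Hodge. -/
theorem one {ψ : Form S X} (hψ : IsPolarisation ψ) (h : OfAbelianType S X) :
    ((TateConjecture S (pw X 3) ∨
        ∃ i, Determines S X i ∧ TateConjectureIn S (pw X 3) (2 * i)) →
      (∀ n, MumfordTate S (pw X n)) ∧
        OnPowers S X (fun Y => TateConjecture S Y ↔ HodgeConjecture S Y)) ∧
    (TateConjecture S (pw X (exponent (totalBetti S X) - 1)) →
      OnPowers S X fun Y => TateConjecture S Y ∧ HodgeConjecture S Y) := by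
  obtain ⟨h1, h2⟩ := one_power' (pol hψ) (oat h)
  refine ⟨fun h3 => ?_, fun h3 => ?_⟩
  · obtain ⟨h4, h5, h6⟩ := h1 (h3.imp id fun ⟨i, hi, h⟩ => ⟨i, det hi, h⟩)
    exact ⟨h4, h5, h6⟩
  · rw [betti] at h3
    obtain ⟨h4, h5⟩ := h2 h3
    exact ⟨h4, h5⟩

end Pool.Agent.N202.TB.Th
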