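import Pool.Agent.N202.TB.Bridge
import Pool.Agent.N202.TB.Ad

/-!
# Comparison of the definitions
-/

set_option linter.unusedSectionVars false

open CategoryTheory AlgebraicGeometry

universe u

namespace Pool.Agent.N202.TB.Ad

open Pool.Agent.H914 Pool.Agent.H914.VarClass Pool.Agent.H914.VarClass.Obj
  Pool.Agent.H914.WeilCohomology Pool.Agent.Y121.AHS
open Pool.Agent.Y133.Half (pw)

variable {k : Type u} [Field k] {𝒱 : VarClass k} {ops : CycleOps 𝒱} {T : HodgeTheory ops}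
  (E : Adic T.W) {X : 𝒱.Obj}

/-- The realization. -/
noncomputable def toR : Realization T E.ℓ where
  Γ := E.Γ
  χ := E.χ
  one := E.one
  mul := E.mul
  R X :=
    { ρ := E.ρ X
      one := (E.gal X).one
      mul := (E.gal X).mul
      add := (E.gal X).add
      smul := (E.gal X).smul
      prod := (E.gal X).prod
      deg := (E.gal X).deg
      trace := (E.gal X).trace
      conj := (E.gal X).conj
      fix := (E.gal X).fix }
  map := E.map
  cont := E.cont
  contχ := E.contχ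

variable {E}

lemma tateIn_iff {j : ℕ} : TateConjectureIn E X j ↔ TB.TateConjectureIn (toR E) X j := Iff.rfl

lemma tate_iff : TateConjecture E X ↔ TB.TateConjecture (toR E) X := Iff.rfl

lemma tihIn_iff {j : ℕ} : TateIsHodgeIn E X j ↔ TB.TateIsHodgeIn (toR E) X j := Iff.rfl

lemma tih_iff : TateIsHodge E X ↔ TB.TateIsHodge (toR E) X := Iff.rfl

lemma mt_iff : MumfordTate E X ↔ TB.MumfordTate (toR E) X := Iff.rfl

lemma hc_iff : HodgeConjecture T X ↔ Pool.Agent.N996.BP.HodgeConjecture T X := Iff.rfl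

lemma lie_iff {x : Hl E X → Hl E X} : InHodgeLie x ↔ Sh.InHodgeLie (T := T) (ℓ := E.ℓ) x := by
  constructor
  · rintro ⟨D, h1, h2, h3, h4⟩
    exact ⟨D, ⟨h1, h2, h3⟩, fun n j c hc => h4 n j _ ⟨c, hc, rfl⟩⟩
  · rintro ⟨D, ⟨h1, h2, h3⟩, h4⟩
    refine ⟨D, h1, h2, h3, ?_⟩
    rintro n j _ ⟨c, hc, rfl⟩
    exact h4 n j c hc

lemma kt_iff {x : Hl E X → Hl E X} :
    KillsOn (fun _ => IsTate) x ↔ Sh.KillsTate (toR E) x := by
  constructor
  · rintro ⟨D, h1, h2, h3, h4⟩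
    exact ⟨D, ⟨h1, h2, h3⟩, h4⟩
  · rintro ⟨D, ⟨h1, h2, h3⟩, h4⟩
    exact ⟨D, h1, h2, h3, h4⟩

theorem oat (h : OfAbelianType E X) : Sh.OfAbelianType (toR E) X where
  hodgeIsTate := h.hodgeIsTate
  semisimple := h.semisimple
  centre x hx hc := kt_iff.1 (h.centre x (lie_iff.2 hx) fun y hy => hc y (lie_iff.1 hy))

theorem det {i : ℕ} (h : Determines E X i) : Sh.Determines T E.ℓ X i :=
  h.imp id fun h x hx h0 => h x (lie_iff.2 hx) h0

theorem pol {ψ : Form T.W X} (h : IsPolarisation T X ψ) :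
    Pool.Agent.N996.BP.IsPolarisation T X ψ where
  range := h.range
  conj := h.conj
  orth := h.orth
  pos := h.pos

lemma fac_iff {Y : 𝒱.Obj} {f : Hl E Y → Hl E Y} : Factors E X f ↔ Sh.Factors T E.ℓ X f := by
  constructor
  · rintro ⟨m, u, v, hu, hv, h⟩
    exact ⟨m, u, v, hu, hv, funext h⟩
  · rintro ⟨m, u, v, hu, hv, h⟩
    exact ⟨m, u, v, hu, hv, fun y => congrFun h y⟩

lemma fp {Y : 𝒱.Obj} (h : FromPowers E X Y) : Sh.FromPowers T E.ℓ X Y := by
  obtain ⟨r, f, hf, h⟩ := h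
  exact ⟨r, f, fun i => fac_iff.1 (hf i), h⟩

lemma betti : totalBetti E X = Pool.Agent.N996.BP.totalBetti T X :=
  (Module.finrank_baseChange : Module.finrank ℚ_[E.ℓ] (TensorProduct T.W.K ℚ_[E.ℓ] (T.W.H X)) =
    Module.finrank T.W.K (T.W.H X))

/-- The main theorem on the Mumford-Tate conjecture. -/
theorem four {ψ : Form T.W X} (hψ : IsPolarisation T X ψ) (h : OfAbelianType E X) :
    ((∀ n, MumfordTate E (pw X n)) ↔ TateIsHodge E (pw X 3)) ∧
      ∀ i, Determines E X i →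
        ((∀ n, MumfordTate E (pw X n)) ↔ TateIsHodgeIn E (pw X 3) (2 * i)) := by
  obtain ⟨h1, h2⟩ := fourth_power' (pol hψ) (oat h)
  exact ⟨h1, fun i hi => h2 i (det hi)⟩

/-- The main theorem on the conjectures of Tate and Hodge. -/
theorem one {ψ : Form T.W X} (hψ : IsPolarisation T X ψ) (h : OfAbelianType E X) :
    ((TateConjecture E (pw X 3) ∨
        ∃ i, Determines E X i ∧ TateConjectureIn E (pw X 3) (2 * i)) →
      (∀ n, MumfordTate E (pw X n)) ∧
        OnPowers E X (fun Y => TateConjecture E Y ↔ HodgeConjecture T Y)) ∧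
    (TateConjecture E (pw X (exponent (totalBetti E X) - 1)) →
      OnPowers E X fun Y => TateConjecture E Y ∧ HodgeConjecture T Y) := by
  obtain ⟨h1, h2⟩ := one_power' (pol hψ) (oat h)
  refine ⟨fun h3 => ?_, fun h3 => ?_⟩
  · obtain ⟨h4, h5, h6⟩ := h1 (h3.imp id fun ⟨i, hi, h⟩ => ⟨i, det hi, h⟩)
    exact ⟨h4, h5, fun Y hY => h6 Y (fp hY)⟩
  · rw [betti] at h3
    obtain ⟨h4, h5⟩ := h2 h3
    exact ⟨h4, fun Y hY => h5 Y (fp hY)⟩

end Pool.Agent.N202.TB.Ad
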