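import Pool.Agent.N202.TB.Core2

/-!
# The core: graded matrices, logarithms of the Galois matrices
-/

set_option linter.unusedSectionVars false

namespace Pool.Agent.N202.TB

open Matrix Filter Topology
open Pool.Agent.N996.BP

section Graded

variable {ι : Type} [Fintype ι] [DecidableEq ι] {L : Type} [Field L] (deg : ι → ℕ)

/-- The matrices which preserve the degrees. -/
def E0 (L : Type) [Field L] : Submodule L (Matrix ι ι L) where
  carrier := {y | ∀ i j, deg i ≠ deg j → y i j = 0}
  zero_mem' _ _ _ := rfl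
  add_mem' {x y} hx hy i j h := by rw [Matrix.add_apply, hx i j h, hy i j h, add_zero]
  smul_mem' c y hy i j h := by rw [Matrix.smul_apply, hy i j h, smul_zero]

variable {deg}

lemma mem_E0 {y : Matrix ι ι L} : y ∈ E0 deg L ↔ ∀ i j, deg i ≠ deg j → y i j = 0 := Iff.rfl

lemma E0_mul {x y : Matrix ι ι L} (hx : x ∈ E0 deg L) (hy : y ∈ E0 deg L) : x * y ∈ E0 deg L := by
  intro i j h
  rw [Matrix.mul_apply]
  refine Finset.sum_eq_zero fun k _ => ?_
  by_cases h1 : deg i = deg k
  · rw [hy k j (fun h2 => h (h1.trans h2)), mul_zero]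
  · rw [hx i k h1, zero_mul]

variable (deg) in
/-- The projection to the matrices which preserve the degrees. -/
def p0 (L : Type) [Field L] : Matrix ι ι L →ₗ[L] Matrix ι ι L where
  toFun x := Matrix.of fun i j => if deg i = deg j then x i j else 0
  map_add' x y := by
    ext i j
    simp only [Matrix.of_apply, Matrix.add_apply]
    split_ifs <;> simp
  map_smul' c x := by
    ext i j
    simp only [Matrix.of_apply, Matrix.smul_apply, RingHom.id_apply]
    split_ifs <;> simp

lemma p0_apply (x : Matrix ι ι L) (i j : ι) :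
    p0 deg L x i j = if deg i = deg j then x i j else 0 := rfl

lemma p0_mem (x : Matrix ι ι L) : p0 deg L x ∈ E0 deg L := by
  intro i j h
  rw [p0_apply, if_neg h]

lemma p0_of_mem {x : Matrix ι ι L} (h : x ∈ E0 deg L) : p0 deg L x = x := by
  ext i j
  rw [p0_apply]
  split_ifs with h1
  · rfl
  · exact (h i j h1).symm

lemma p0_mul_left {y : Matrix ι ι L} (hy : y ∈ E0 deg L) (x : Matrix ι ι L) :
    p0 deg L (y * x) = y * p0 deg L x := by
  ext i j
  rw [p0_apply, Matrix.mul_apply, Matrix.mul_apply]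
  split_ifs with h
  · refine Finset.sum_congr rfl fun k _ => ?_
    rw [p0_apply]
    by_cases h1 : deg i = deg k
    · rw [if_pos (h1.symm.trans h)]
    · rw [hy i k h1, zero_mul, zero_mul]
  · symm
    refine Finset.sum_eq_zero fun k _ => ?_
    by_cases h1 : deg i = deg k
    · rw [p0_apply, if_neg (fun h2 => h (h1.trans h2)), mul_zero]
    · rw [hy i k h1, zero_mul]

lemma p0_mul_right {y : Matrix ι ι L} (hy : y ∈ E0 deg L) (x : Matrix ι ι L) :
    p0 deg L (x * y) = p0 deg L x * y := by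
  ext i j
  rw [p0_apply, Matrix.mul_apply, Matrix.mul_apply]
  split_ifs with h
  · refine Finset.sum_congr rfl fun k _ => ?_
    rw [p0_apply]
    by_cases h1 : deg k = deg j
    · rw [if_pos (h.trans h1.symm)]
    · rw [hy k j h1, mul_zero, mul_zero]
  · symm
    refine Finset.sum_eq_zero fun k _ => ?_
    by_cases h1 : deg k = deg j
    · rw [p0_apply, if_neg (fun h2 => h (h2.trans h1)), zero_mul]
    · rw [hy k j h1, mul_zero]

variable (deg) in
/-- The matrix of the degrees. -/
def DD (L : Type) [Field L] : Matrix ι ι L := Matrix.diagonal fun i => (deg i : L)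

lemma DD_comm {y : Matrix ι ι L} (hy : y ∈ E0 deg L) : DD deg L * y = y * DD deg L := by
  ext i j
  rw [DD, Matrix.mul_diagonal, Matrix.diagonal_mul]
  by_cases h : deg i = deg j
  · rw [h, mul_comm]
  · rw [hy i j h, zero_mul, mul_zero]

lemma DD_mem : DD deg L ∈ E0 deg L := by
  intro i j h
  rw [DD, Matrix.diagonal_apply_ne]
  rintro rfl
  exact h rfl

/-- The support of the array `opP`. -/
lemma opP_support {B Q : Matrix ι ι L} (hB : B ∈ E0 deg L) (hQ : Q ∈ E0 deg L)
    {p : Matrix ι ι L →ₗ[L] Matrix ι ι L} (hp : ∀ x, p x ∈ E0 deg L)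
    (hp0 : ∀ x, p0 deg L x = 0 → p x = 0) {v w : Fin 2 → ι}
    (h : (opP B Q p * kp (Fin 2) B) v w ≠ 0) : deg (v 0) = deg (v 1) ∧ deg (w 0) = deg (w 1) := by
  have h1 : (opP B Q p * kp (Fin 2) B) v w =
      (opP B Q p *ᵥ (kp (Fin 2) B *ᵥ Pi.single w 1)) v := by
    rw [Matrix.mulVec_mulVec, Matrix.mulVec_single_one]
    rfl
  have h2 : (Pi.single w (1 : L) : (Fin 2 → ι) → L) =
      vec2 (Matrix.single (w 0) (w 1) (1 : L)) := by
    ext v
    rw [vec2_apply, Matrix.single_apply]
    by_cases hv : v = w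
    · subst hv
      rw [Pi.single_eq_same, if_pos ⟨rfl, rfl⟩]
    · rw [Pi.single_eq_of_ne hv, if_neg]
      rintro ⟨h3, h4⟩
      apply hv
      ext k
      fin_cases k
      · exact h3.symm
      · exact h4.symm
  have h3 : kp (Fin 2) B *ᵥ vec2 (Matrix.single (w 0) (w 1) (1 : L)) =
      vec2 (B * Matrix.single (w 0) (w 1) 1 * Bᵀ) :=
    kp_two B (Matrix.single (w 0) (w 1) (1 : L))
  rw [h1, h2, h3, opP_vec2, vec2_apply] at h
  have hBt : Bᵀ ∈ E0 deg L := fun i j hne => by
    rw [Matrix.transpose_apply]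
    exact hB j i (Ne.symm hne)
  constructor
  · by_contra hne
    exact h (E0_mul (hp _) hB _ _ hne)
  · by_contra hne
    apply h
    have h4 : p0 deg L (B * Matrix.single (w 0) (w 1) 1 * Bᵀ * Q) = 0 := by
      rw [p0_mul_right hQ, p0_mul_right hBt, p0_mul_left hB]
      have h5 : p0 deg L (Matrix.single (w 0) (w 1) (1 : L)) = 0 := by
        ext i j
        rw [p0_apply, Matrix.single_apply]
        split_ifs with h6 h7
        · obtain ⟨rfl, rfl⟩ := h7
          exact absurd h6 hne
        · rfl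
        · rfl
      rw [h5, Matrix.mul_zero, Matrix.zero_mul, Matrix.zero_mul]
    rw [hp0 _ h4, Matrix.zero_mul]
    rfl

/-- The support of the arrays with four indices. -/
lemma arr4_even {M : Matrix (Fin 2 → ι) (Fin 2 → ι) L}
    (hM : ∀ v w, M v w ≠ 0 → deg (v 0) = deg (v 1) ∧ deg (w 0) = deg (w 1)) {w : Fin 4 → ι}
    (hw : arr4 M w ≠ 0) : Even (∑ k, deg (w k)) := by
  obtain ⟨h1, h2⟩ := hM _ _ hw
  have h3 : deg (w 0) = deg (w 1) := h1
  have h4 : deg (w 2) = deg (w 3) := h2
  rw [Fin.sum_univ_four, h3, h4]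
  exact ⟨deg (w 1) + deg (w 3), by ring⟩

/-- The derivation preserves the total degree. -/
lemma dp_deg {κ : Type} [Fintype κ] [DecidableEq κ] {y : Matrix ι ι L} (hy : y ∈ E0 deg L)
    {v w : κ → ι} (h : dp κ y v w ≠ 0) : ∑ k, deg (v k) = ∑ k, deg (w k) := by
  obtain ⟨k, _, hk⟩ := Finset.exists_ne_zero_of_sum_ne_zero h
  have h1 : y (v k) (w k) ≠ 0 := left_ne_zero_of_mul hk
  have h2 := right_ne_zero_of_mul hk
  rw [← Finset.add_sum_erase _ _ (Finset.mem_univ k), ← Finset.add_sum_erase _ _ (Finset.mem_univ k)]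
  congr 1
  · by_contra hne
    exact h1 (hy _ _ hne)
  · refine Finset.sum_congr rfl fun j hj => ?_
    have h3 := (Finset.prod_ne_zero_iff.1 h2) j hj
    by_contra hne
    rw [if_neg (fun h4 => hne (by rw [h4]))] at h3
    exact h3 rfl

/-- The component of an array. -/
def comp (deg : ι → ℕ) {κ : Type} [Fintype κ] (d : ℕ) (a : (κ → ι) → L) : (κ → ι) → L := fun w =>
  if ∑ k, deg (w k) = d then a w else 0

lemma dp_comp {κ : Type} [Fintype κ] [DecidableEq κ] {y : Matrix ι ι L} (hy : y ∈ E0 deg L)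
    (d : ℕ) {a : (κ → ι) → L} : dp κ y *ᵥ comp deg d a = comp deg d (dp κ y *ᵥ a) := by
  ext v
  rw [comp, Matrix.mulVec, dotProduct]
  split_ifs with h
  · rw [Matrix.mulVec, dotProduct]
    refine Finset.sum_congr rfl fun w _ => ?_
    by_cases h1 : dp κ y v w = 0
    · rw [h1, zero_mul, zero_mul]
    · rw [comp, if_pos (by rw [← dp_deg hy h1, h])]
  · refine Finset.sum_eq_zero fun w _ => ?_
    by_cases h1 : dp κ y v w = 0
    · rw [h1, zero_mul]
    · rw [comp, if_neg (by rw [← dp_deg hy h1]; exact h), mul_zero]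

lemma sum_comp (deg : ι → ℕ) {κ : Type} [Fintype κ] {a : (κ → ι) → L}
    (ha : ∀ w, a w ≠ 0 → Even (∑ k, deg (w k))) :
    ∃ N, a = ∑ j ∈ Finset.range N, comp deg (2 * j) a := by
  classical
  refine ⟨∑ i, deg i * Fintype.card κ + 1, ?_⟩
  ext w
  rw [Finset.sum_apply]
  by_cases h : a w = 0
  · rw [h]
    symm
    refine Finset.sum_eq_zero fun j _ => ?_
    rw [comp, h, ite_self]
  · obtain ⟨r, hr⟩ := ha w h
    have h2 : ∑ k, deg (w k) ≤ ∑ i, deg i * Fintype.card κ := by
      have h3 : ∀ k ∈ (Finset.univ : Finset κ), deg (w k) ≤ ∑ i, deg i := fun k _ =>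
        Finset.single_le_sum (f := deg) (fun _ _ => Nat.zero_le _) (Finset.mem_univ (w k))
      calc ∑ k, deg (w k) ≤ ∑ k : κ, ∑ i, deg i := Finset.sum_le_sum h3
        _ = ∑ i, deg i * Fintype.card κ := by
          rw [Finset.sum_const, Finset.card_univ, smul_eq_mul, Finset.mul_sum]
          exact Finset.sum_congr rfl fun i _ => mul_comm _ _
    rw [Finset.sum_eq_single r]
    · rw [comp, if_pos (by omega)]
    · intro j _ hj
      rw [comp, if_neg (by omega)]
    · intro hr'
      rw [Finset.mem_range] at hr'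
      omega

end Graded

end Pool.Agent.N202.TB
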