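import Pool.Agent.N202.TB.Core3

/-!
# The core: logarithms of the Galois matrices
-/

set_option linter.unusedSectionVars false

namespace Pool.Agent.N202.TB

open Matrix Filter Topology
open Pool.Agent.N996.BP

variable {ι : Type} [Fintype ι] [DecidableEq ι] {ℓ : ℕ} [Fact ℓ.Prime] {Γ : Type} [Group Γ]
  {deg : ι → ℕ} {G : Γ → Matrix ι ι ℚ_[ℓ]} {χ : Γ → ℚ_[ℓ]}

/-- A choice of logarithms. -/
structure Logs (G : Γ → Matrix ι ι ℚ_[ℓ]) (χ : Γ → ℚ_[ℓ]) (U : Subgroup Γ)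
    (Y : Γ → Matrix ι ι ℚ_[ℓ]) (lam : Γ → ℚ_[ℓ]) : Prop where
  fin : U.FiniteIndex
  near : ∀ u ∈ U, Near (G u)
  nearχ : ∀ u ∈ U, ‖χ u - 1‖ ≤ ((ℓ : ℝ) ^ 2)⁻¹
  log : ∀ u ∈ U, IsLog (G u) (Y u)
  logs : ∀ u ∈ U, IsLogS (χ u) (lam u)

lemma exists_logs (S : Steps) (hG : GalArr deg G χ) : ∃ U Y lam, Logs G χ U Y lam := by
  have hℓ : (0 : ℝ) < ((ℓ : ℝ) ^ 2)⁻¹ := by
    have := (Fact.out : ℓ.Prime).pos
    positivity
  obtain ⟨U, hU, h⟩ := hG.cont _ hℓ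
  have h1 : ∀ u ∈ U, Near (G u) := fun u hu i j => ((h u hu).1 i j).le
  have h2 : ∀ u ∈ U, ‖χ u - 1‖ ≤ ((ℓ : ℝ) ^ 2)⁻¹ := fun u hu => (h u hu).2.le
  classical
  have h3 : ∀ u, ∃ y, u ∈ U → IsLog (G u) y := by
    intro u
    by_cases hu : u ∈ U
    · obtain ⟨y, hy⟩ := S.log ℓ ι (G u) (h1 u hu)
      exact ⟨y, fun _ => hy⟩
    · exact ⟨0, fun h => absurd h hu⟩
  have h4 : ∀ u, ∃ y, u ∈ U → IsLogS (χ u) y := by
    intro u
    by_cases hu : u ∈ U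
    · obtain ⟨y, hy⟩ := S.logs ℓ (χ u) (h2 u hu)
      exact ⟨y, fun _ => hy⟩
    · exact ⟨0, fun h => absurd h hu⟩
  choose Y hY using h3
  choose lam hlam using h4
  exact ⟨U, Y, lam, hU, h1, h2, hY, hlam⟩

namespace GalArr

variable (hG : GalArr deg G χ)
include hG

lemma pow (g : Γ) (n : ℕ) : G (g ^ n) = G g ^ n := by
  induction n with
  | zero => rw [pow_zero, pow_zero, hG.one]
  | succ n ih => rw [pow_succ, pow_succ, hG.mul, ih]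

lemma χpow (g : Γ) (n : ℕ) : χ (g ^ n) = χ g ^ n := by
  induction n with
  | zero => rw [pow_zero, pow_zero, hG.χone]
  | succ n ih => rw [pow_succ, pow_succ, hG.χmul, ih]

lemma inv (g : Γ) : G g * G g⁻¹ = 1 := by rw [← hG.mul, mul_inv_cancel, hG.one]

lemma inv' (g : Γ) : G g⁻¹ * G g = 1 := by rw [← hG.mul, inv_mul_cancel, hG.one]

lemma χne (g : Γ) : χ g ≠ 0 := by
  intro h
  have h1 := hG.χmul g g⁻¹
  rw [mul_inv_cancel, hG.χone, h, zero_mul] at h1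
  exact one_ne_zero h1

lemma mem (g : Γ) : G g ∈ E0 deg ℚ_[ℓ] := by
  intro i j h
  by_contra h1
  exact h (hG.deg g i j h1)

lemma χconj (g u : Γ) : χ (g * u * g⁻¹) = χ u := by
  rw [hG.χmul, hG.χmul, mul_comm (χ g), mul_assoc, ← hG.χmul, mul_inv_cancel, hG.χone, mul_one]

end GalArr

lemma isLog_iff {m : Type} [Fintype m] [DecidableEq m] {g y : Matrix m m ℚ_[ℓ]} :
    IsLog g y ↔ Tendsto (fun k : ℕ => ((ℓ : ℚ_[ℓ]) ^ k)⁻¹ • (g ^ (ℓ ^ k) - 1)) atTop (𝓝 y) := by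
  constructor
  · intro h
    refine tendsto_pi_nhds.2 fun i => tendsto_pi_nhds.2 fun j => ?_
    exact h i j
  · intro h i j
    exact tendsto_pi_nhds.1 (tendsto_pi_nhds.1 h i) j

lemma IsLog.unique {m : Type} [Fintype m] [DecidableEq m] {g y y' : Matrix m m ℚ_[ℓ]}
    (h : IsLog g y) (h' : IsLog g y') : y = y' :=
  tendsto_nhds_unique (isLog_iff.1 h) (isLog_iff.1 h')

lemma IsLog.conj {m : Type} [Fintype m] [DecidableEq m] {g y a b : Matrix m m ℚ_[ℓ]}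
    (h : IsLog g y) (hab : a * b = 1) : IsLog (a * g * b) (a * y * b) := by
  rw [isLog_iff] at h ⊢
  have hba : b * a = 1 := mul_eq_one_comm.1 hab
  have h1 : ∀ n, (a * g * b) ^ n = a * g ^ n * b := by
    intro n
    induction n with
    | zero => rw [pow_zero, pow_zero, Matrix.mul_one, hab]
    | succ n ih =>
      rw [pow_succ, ih, pow_succ]
      calc a * g ^ n * b * (a * g * b) = a * g ^ n * (b * a) * g * b := by
            simp only [Matrix.mul_assoc]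
        _ = _ := by rw [hba, Matrix.mul_one, Matrix.mul_assoc a]
  have h2 : (fun k : ℕ => ((ℓ : ℚ_[ℓ]) ^ k)⁻¹ • ((a * g * b) ^ (ℓ ^ k) - 1)) =
      fun k : ℕ => a * (((ℓ : ℚ_[ℓ]) ^ k)⁻¹ • (g ^ (ℓ ^ k) - 1)) * b := by
    ext1 k
    rw [h1, Matrix.mul_smul, Matrix.smul_mul, Matrix.mul_sub, Matrix.sub_mul, Matrix.mul_one, hab]
  rw [h2]
  exact (tendsto_const_nhds.mul h).mul tendsto_const_nhds

variable {U : Subgroup Γ} {Y : Γ → Matrix ι ι ℚ_[ℓ]} {lam : Γ → ℚ_[ℓ]}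

/-- The twisted logarithm. -/
noncomputable def Yt (deg : ι → ℕ) (Y : Γ → Matrix ι ι ℚ_[ℓ]) (lam : Γ → ℚ_[ℓ]) (u : Γ) :
    Matrix ι ι ℚ_[ℓ] := Y u - (lam u / 2) • DD deg ℚ_[ℓ]

namespace Logs

variable (hL : Logs G χ U Y lam) (hG : GalArr deg G χ)
include hL hG

lemma mem {u : Γ} (hu : u ∈ U) : Y u ∈ E0 deg ℚ_[ℓ] := by
  intro i j h
  have h1 := hL.log u hu i j
  have h2 : (fun k : ℕ => ((ℓ : ℚ_[ℓ]) ^ k)⁻¹ *
      ((G u ^ (ℓ ^ k)) i j - (1 : Matrix ι ι ℚ_[ℓ]) i j)) = fun _ => 0 := by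
    ext1 k
    rw [← hG.pow, hG.mem _ i j h, Matrix.one_apply_ne (by rintro rfl; exact h rfl), sub_zero,
      mul_zero]
  rw [h2] at h1
  exact tendsto_nhds_unique h1 tendsto_const_nhds

lemma Yt_mem {u : Γ} (hu : u ∈ U) : Yt deg Y lam u ∈ E0 deg ℚ_[ℓ] :=
  Submodule.sub_mem _ (hL.mem hG hu) (Submodule.smul_mem _ _ DD_mem)

lemma Yt_conj {g u : Γ} (hg : g ∈ U) (hu : u ∈ U) :
    G g * Yt deg Y lam u * G g⁻¹ = Yt deg Y lam (g * u * g⁻¹) := by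
  have hgu : g * u * g⁻¹ ∈ U := U.mul_mem (U.mul_mem hg hu) (U.inv_mem hg)
  have h1 : Y (g * u * g⁻¹) = G g * Y u * G g⁻¹ := by
    have h2 := (hL.log u hu).conj (hG.inv g)
    rw [← hG.mul, ← hG.mul] at h2
    exact (hL.log _ hgu).unique h2
  have h3 : lam (g * u * g⁻¹) = lam u := by
    have h4 := hL.logs _ hgu
    rw [IsLogS, hG.χconj] at h4
    exact tendsto_nhds_unique h4 (hL.logs u hu)
  rw [Yt, Yt, h1, h3, Matrix.mul_sub, Matrix.sub_mul, Matrix.mul_smul, Matrix.smul_mul,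
    ← DD_comm (hG.mem g), Matrix.mul_assoc (DD deg ℚ_[ℓ]), hG.inv, Matrix.mul_one]

/-- The twisted logarithms kill the Tate arrays. -/
lemma kill_tate (S : Steps) {u : Γ} (hu : u ∈ U) {n j : ℕ} {a : (Fin (n + 1) → ι) → ℚ_[ℓ]}
    (ha : TateArr deg G χ n j a) : dp (Fin (n + 1)) (Yt deg Y lam u) *ᵥ a = 0 := by
  obtain ⟨hdeg, Δ, hΔ, h⟩ := ha
  obtain ⟨s, hs, _, hsΔ⟩ := Subgroup.exists_pow_mem_of_index_ne_zero hΔ.index_ne_zero u
  have hχ := hG.χne u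
  obtain ⟨hn, hl⟩ := S.kplog ℓ ι (Fin (n + 1)) (G u) (Y u) (χ u) (lam u) j (hL.near u hu)
    (hL.log u hu) (hL.nearχ u hu) (hL.logs u hu)
  have h1 : ((χ u ^ j)⁻¹ • kp (Fin (n + 1)) (G u)) ^ s *ᵥ a = a := by
    have h2 : ∀ s : ℕ, ((χ u ^ j)⁻¹ • kp (Fin (n + 1)) (G u)) ^ s =
        (χ (u ^ s) ^ j)⁻¹ • kp (Fin (n + 1)) (G (u ^ s)) := by
      intro s
      induction s with
      | zero => rw [pow_zero, pow_zero, hG.χone, hG.one, kp_one, one_pow, inv_one, one_smul]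
      | succ s ih =>
        rw [pow_succ, ih, pow_succ u, hG.χmul, hG.mul, kp_mul, Matrix.smul_mul, Matrix.mul_smul,
          smul_smul, mul_pow, mul_inv]
    rw [h2, Matrix.smul_mulVec, h _ hsΔ, smul_smul, inv_mul_cancel₀ (pow_ne_zero _ (hG.χne _)),
      one_smul]
  have h3 := S.fix ℓ (Fin (n + 1) → ι) _ _ a s hs hn hl h1
  have h4 : dp (Fin (n + 1)) (Y u) *ᵥ a = ((j : ℚ_[ℓ]) * lam u) • a := by
    rw [Matrix.sub_mulVec, Matrix.smul_mulVec, Matrix.one_mulVec] at h3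
    exact eq_of_sub_eq_zero h3
  have h5 : dp (Fin (n + 1)) (DD deg ℚ_[ℓ]) *ᵥ a = (2 * (j : ℚ_[ℓ])) • a := by
    rw [DD, S.diag ℚ_[ℓ] ι]
    ext w
    rw [Pi.smul_apply, smul_eq_mul]
    by_cases hw : a w = 0
    · rw [hw, mul_zero, mul_zero]
    · have h6 := hdeg w hw
      have h7 : ∑ k, ((deg (w k) : ℕ) : ℚ_[ℓ]) = 2 * (j : ℚ_[ℓ]) := by
        rw [← Nat.cast_sum, h6]
        push_cast
        ring
      rw [h7]
  have h6 := S.lin ℚ_[ℓ] ι (Fin (n + 1)) (-(lam u / 2)) (Y u) (DD deg ℚ_[ℓ])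
  rw [neg_smul, neg_smul, ← sub_eq_add_neg, ← sub_eq_add_neg] at h6
  rw [Yt, h6, Matrix.sub_mulVec, Matrix.smul_mulVec, h4, h5, smul_smul]
  rw [show lam u / 2 * (2 * (j : ℚ_[ℓ])) = (j : ℚ_[ℓ]) * lam u by ring, sub_self]

/-- The homogeneous arrays which are killed by the twisted logarithms are Tate arrays. -/
lemma tate_of_kill (S : Steps) {n j : ℕ} {a : (Fin (n + 1) → ι) → ℚ_[ℓ]}
    (hdeg : ∀ w, a w ≠ 0 → ∑ k, deg (w k) = 2 * j)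
    (h : ∀ u ∈ U, dp (Fin (n + 1)) (Yt deg Y lam u) *ᵥ a = 0) : TateArr deg G χ n j a := by
  refine ⟨hdeg, U, hL.fin, fun u hu => ?_⟩
  have hχ := hG.χne u
  obtain ⟨hn, hl⟩ := S.kplog ℓ ι (Fin (n + 1)) (G u) (Y u) (χ u) (lam u) j (hL.near u hu)
    (hL.log u hu) (hL.nearχ u hu) (hL.logs u hu)
  have h5 : dp (Fin (n + 1)) (DD deg ℚ_[ℓ]) *ᵥ a = (2 * (j : ℚ_[ℓ])) • a := by
    rw [DD, S.diag ℚ_[ℓ] ι]
    ext w
    rw [Pi.smul_apply, smul_eq_mul]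
    by_cases hw : a w = 0
    · rw [hw, mul_zero, mul_zero]
    · have h6 := hdeg w hw
      have h7 : ∑ k, ((deg (w k) : ℕ) : ℚ_[ℓ]) = 2 * (j : ℚ_[ℓ]) := by
        rw [← Nat.cast_sum, h6]
        push_cast
        ring
      rw [h7]
  have h6 := S.lin ℚ_[ℓ] ι (Fin (n + 1)) (-(lam u / 2)) (Y u) (DD deg ℚ_[ℓ])
  rw [neg_smul, neg_smul, ← sub_eq_add_neg, ← sub_eq_add_neg] at h6
  have h1 := h u hu
  rw [Yt, h6, Matrix.sub_mulVec, Matrix.smul_mulVec, h5, smul_smul,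
    show lam u / 2 * (2 * (j : ℚ_[ℓ])) = (j : ℚ_[ℓ]) * lam u by ring] at h1
  have h2 : (dp (Fin (n + 1)) (Y u) - ((j : ℚ_[ℓ]) * lam u) • 1) *ᵥ a = 0 := by
    rw [Matrix.sub_mulVec, Matrix.smul_mulVec, Matrix.one_mulVec]
    exact h1
  have h3 := S.ker ℓ (Fin (n + 1) → ι) _ _ a hn hl h2
  rw [Matrix.smul_mulVec] at h3
  rw [← h3, smul_smul, mul_inv_cancel₀ (pow_ne_zero _ hχ), one_smul, h3]

/-- The arrays in even degrees which are killed by the twisted logarithms are combinations of Tate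
arrays. -/
lemma tspan_of_kill (S : Steps) {n : ℕ} {a : (Fin (n + 1) → ι) → ℚ_[ℓ]}
    (hdeg : ∀ w, a w ≠ 0 → Even (∑ k, deg (w k)))
    (h : ∀ u ∈ U, dp (Fin (n + 1)) (Yt deg Y lam u) *ᵥ a = 0) : a ∈ tspan deg G χ n := by
  obtain ⟨N, hN⟩ := sum_comp deg hdeg
  rw [hN]
  refine Submodule.sum_mem _ fun j _ => Submodule.subset_span ⟨j, ?_⟩
  refine hL.tate_of_kill hG S (fun w hw => ?_) fun u hu => ?_
  · by_contra hne
    rw [comp, if_neg hne] at hw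
    exact hw rfl
  · rw [dp_comp (hL.Yt_mem hG hu), h u hu]
    ext w
    simp [comp]

lemma kill_tspan (S : Steps) {u : Γ} (hu : u ∈ U) {n : ℕ} {a : (Fin (n + 1) → ι) → ℚ_[ℓ]}
    (ha : a ∈ tspan deg G χ n) : dp (Fin (n + 1)) (Yt deg Y lam u) *ᵥ a = 0 := by
  induction ha using Submodule.span_induction with
  | mem x hx =>
    obtain ⟨j, hx⟩ := hx
    exact hL.kill_tate hG S hu hx
  | zero => rw [Matrix.mulVec_zero]
  | add a b _ _ ha hb => rw [Matrix.mulVec_add, ha, hb, add_zero]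
  | smul c a _ ha => rw [Matrix.mulVec_smul, ha, smul_zero]

end Logs

end Pool.Agent.N202.TB
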