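import Pool.Agent.N202.TB.Core4

/-!
# The core: the theorem
-/

set_option linter.unusedSectionVars false

namespace Pool.Agent.N202.TB

open Matrix Filter Topology
open Pool.Agent.N996.BP

variable {ι : Type} [Fintype ι] [DecidableEq ι] {ℓ : ℕ} [Fact ℓ.Prime] {Γ : Type} [Group Γ]
  {deg : ι → ℕ} {G : Γ → Matrix ι ι ℚ_[ℓ]} {χ : Γ → ℚ_[ℓ]}
  {U : Subgroup Γ} {Y : Γ → Matrix ι ι ℚ_[ℓ]} {lam : Γ → ℚ_[ℓ]}

/-- The Lie algebra: the span of the twisted logarithms. -/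
noncomputable def lie (deg : ι → ℕ) (U : Subgroup Γ) (Y : Γ → Matrix ι ι ℚ_[ℓ]) (lam : Γ → ℚ_[ℓ]) :
    Submodule ℚ_[ℓ] (Matrix ι ι ℚ_[ℓ]) := Submodule.span ℚ_[ℓ] {y | ∃ u ∈ U, Yt deg Y lam u = y}

lemma lie_le {V : Submodule ℚ_[ℓ] (Matrix ι ι ℚ_[ℓ])} (h : ∀ u ∈ U, Yt deg Y lam u ∈ V) :
    lie deg U Y lam ≤ V :=
  Submodule.span_le.2 fun _ ⟨u, hu, hy⟩ => hy ▸ h u hu

lemma mem_lie {u : Γ} (hu : u ∈ U) : Yt deg Y lam u ∈ lie deg U Y lam :=
  Submodule.subset_span ⟨u, hu, rfl⟩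

lemma lie_le_E0 (hL : Logs G χ U Y lam) (hG : GalArr deg G χ) :
    lie deg U Y lam ≤ E0 deg ℚ_[ℓ] := lie_le fun _ hu => hL.Yt_mem hG hu

lemma lie_stable (hL : Logs G χ U Y lam) (hG : GalArr deg G χ) {g : Γ} (hg : g ∈ U)
    {x : Matrix ι ι ℚ_[ℓ]} (hx : x ∈ lie deg U Y lam) :
    G g * x * G g⁻¹ ∈ lie deg U Y lam := by
  induction hx using Submodule.span_induction with
  | mem x hx =>
    obtain ⟨u, hu, rfl⟩ := hx
    rw [hL.Yt_conj hG hg hu]
    exact mem_lie (U.mul_mem (U.mul_mem hg hu) (U.inv_mem hg))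
  | zero => rw [Matrix.mul_zero, Matrix.zero_mul]; exact Submodule.zero_mem _
  | add a b _ _ ha hb =>
    rw [Matrix.mul_add, Matrix.add_mul]
    exact Submodule.add_mem _ ha hb
  | smul c a _ ha =>
    rw [Matrix.mul_smul, Matrix.smul_mul]
    exact Submodule.smul_mem _ _ ha

/-- Stable subspaces are stable under the adjoint action of the logarithms. -/
lemma ad_stable (S : Steps) (hL : Logs G χ U Y lam) (hG : GalArr deg G χ)
    {V : Submodule ℚ_[ℓ] (Matrix ι ι ℚ_[ℓ])} (hV : ∀ g ∈ U, ∀ x ∈ V, G g * x * G g⁻¹ ∈ V)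
    {u : Γ} (hu : u ∈ U) {x : Matrix ι ι ℚ_[ℓ]} (hx : x ∈ V) : Y u * x - x * Y u ∈ V :=
  S.ad ℓ ι (G u) (G u⁻¹) (Y u) V (hL.near u hu) (hL.near _ (U.inv_mem hu)) (hL.log u hu)
    (hG.inv u) (hV u hu) x hx

/-- The projector to the Lie algebra. -/
structure IsPr (deg : ι → ℕ) (U : Subgroup Γ) (Y : Γ → Matrix ι ι ℚ_[ℓ]) (lam : Γ → ℚ_[ℓ])
    (p : Matrix ι ι ℚ_[ℓ] →ₗ[ℚ_[ℓ]] Matrix ι ι ℚ_[ℓ]) : Prop where
  mem : ∀ x, p x ∈ lie deg U Y lam
  id : ∀ x ∈ lie deg U Y lam, p x = x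
  zero : ∀ x, p0 deg ℚ_[ℓ] x = 0 → p x = 0
  comm : ∀ u ∈ U, ∀ x, p (Yt deg Y lam u * x - x * Yt deg Y lam u) =
    Yt deg Y lam u * p x - p x * Yt deg Y lam u

lemma exists_pr (S : Steps) (hL : Logs G χ U Y lam) (hG : GalArr deg G χ) (hss : AdSS G) :
    ∃ p, IsPr deg U Y lam p := by
  obtain ⟨V, hV, hc⟩ := hss U hL.fin (lie deg U Y lam) fun g hg x hx => lie_stable hL hG hg hx
  set π := Submodule.projection (lie deg U Y lam) V hc with hπ
  have h1 : ∀ x, π x ∈ lie deg U Y lam := fun x => Submodule.projection_apply_mem hc x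
  have h2 : ∀ x ∈ lie deg U Y lam, π x = x := fun x hx =>
    Submodule.projection_apply_left hc ⟨x, hx⟩
  have h3 : ∀ x ∈ V, π x = 0 := fun x hx => (Submodule.projection_apply_eq_zero_iff hc).2 hx
  have h4 : ∀ x, x - π x ∈ V := fun x => by
    refine (Submodule.projection_apply_eq_zero_iff hc).1 ?_
    change π (x - π x) = 0
    rw [map_sub, h2 _ (h1 x), sub_self]
  have h5 : ∀ u ∈ U, ∀ x, π (Y u * x - x * Y u) = Y u * π x - π x * Y u := by
    intro u hu x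
    have h6 : Y u * x - x * Y u = (Y u * π x - π x * Y u) +
        (Y u * (x - π x) - (x - π x) * Y u) := by
      rw [Matrix.mul_sub, Matrix.sub_mul]
      abel
    rw [h6, map_add, h2 _ (ad_stable S hL hG (fun g hg x hx => lie_stable hL hG hg hx) hu (h1 x)),
      h3 _ (ad_stable S hL hG hV hu (h4 x)), add_zero]
  refine ⟨π ∘ₗ p0 deg ℚ_[ℓ], ⟨fun x => h1 _, fun x hx => ?_, fun x hx => ?_, fun u hu x => ?_⟩⟩
  · rw [LinearMap.comp_apply, p0_of_mem (lie_le_E0 hL hG hx), h2 x hx]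
  · rw [LinearMap.comp_apply, hx, map_zero]
  · have hm := hL.Yt_mem hG hu
    have h6 : ∀ z ∈ E0 deg ℚ_[ℓ], Yt deg Y lam u * z - z * Yt deg Y lam u =
        Y u * z - z * Y u := by
      intro z hz
      rw [Yt, Matrix.sub_mul, Matrix.mul_sub, Matrix.smul_mul, Matrix.mul_smul, DD_comm hz]
      abel
    rw [LinearMap.comp_apply, LinearMap.comp_apply, map_sub, p0_mul_left hm, p0_mul_right hm,
      h6 _ (p0_mem x), h5 u hu, h6 _ (lie_le_E0 hL hG (h1 _))]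

variable {H : HData ι}

/-- **The core.** -/
theorem core (S : Steps) (hG : GalArr deg G χ)
    (hl : ∀ t : ℂ, t ≠ 0 → ∀ i j, H.l t i j ≠ 0 → deg i = deg j)
    (hQ : ∀ i j, H.Qir i j ≠ 0 → deg i = deg j)
    (hQr : ∀ i j, H.Qr i j ≠ 0 → deg i = deg j)
    (hHT : ∀ n, ∀ a ∈ BB H (Fin (n + 1)), aL ℚ_[ℓ] a ∈ tspan deg G χ n)
    (hss : AdSS G)
    (hcen : ∀ y : Matrix ι ι ℚ_[ℓ], Kill H ℚ_[ℓ] y →
      (∀ z : Matrix ι ι ℚ_[ℓ], Kill H ℚ_[ℓ] z → y * z = z * y) →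
      ∀ n j a, TateArr deg G χ n j a → dp (Fin (n + 1)) y *ᵥ a = 0)
    (h4 : ∀ a ∈ tspan deg G χ 3, a ∈ hspan H ℚ_[ℓ] 3) (n j : ℕ)
    (a : (Fin (n + 1) → ι) → ℚ_[ℓ]) (ha : TateArr deg G χ n j a) : a ∈ hspan H ℚ_[ℓ] n := by
  obtain ⟨U, Y, lam, hL⟩ := exists_logs S hG
  obtain ⟨p, hp⟩ := exists_pr S hL hG hss
  set B : Matrix ι ι ℚ_[ℓ] := mL ℚ_[ℓ] H.Qir with hB
  set Q : Matrix ι ι ℚ_[ℓ] := mL ℚ_[ℓ] H.Qr with hQ'
  have hBQ : B * Q = 1 := mL_Qir_Qr
  have hQB : Q * B = 1 := mL_Qr_Qir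
  have hBm : B ∈ E0 deg ℚ_[ℓ] := by
    intro i j hne
    rw [hB, mL_apply]
    by_contra h
    exact hne (hQ i j fun h0 => h (by rw [h0, Rat.cast_zero]))
  have hQm : Q ∈ E0 deg ℚ_[ℓ] := by
    intro i j hne
    rw [hQ', mL_apply]
    by_contra h
    exact hne (hQr i j fun h0 => h (by rw [h0, Rat.cast_zero]))
  -- the Lie algebra kills the Hodge arrays
  have hk : ∀ u ∈ U, Kill H ℚ_[ℓ] (Yt deg Y lam u) := fun u hu n a ha =>
    hL.kill_tspan hG S hu (hHT n a ha)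
  have hlk : ∀ x ∈ lie deg U Y lam, Kill H ℚ_[ℓ] x := fun x hx =>
    mem_killAll.1 ((lie_le (V := killAll H ℚ_[ℓ] S) fun u hu => mem_killAll.2 (hk u hu)) hx)
  -- the array of the projector
  set α : (Fin 4 → ι) → ℚ_[ℓ] := arr4 (opP B Q p * kp (Fin 2) B) with hα
  have hα1 : ∀ y : Matrix ι ι ℚ_[ℓ], Kill H ℚ_[ℓ] y →
      (dp (Fin 4) y *ᵥ α = 0 ↔ ∀ z, p (y * z - z * y) = y * p z - p z * y) := by
    intro y hy
    rw [hα, dp_arr4_eq_zero S hBQ (hy.skew S), opP_comm S hBQ p (hy.skew S)]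
  have hα2 : α ∈ tspan deg G χ 3 := by
    refine hL.tspan_of_kill hG S (fun w hw => ?_) fun u hu => (hα1 _ (hk u hu)).2 (hp.comm u hu)
    exact arr4_even (fun v w hvw => opP_support hBm hQm (fun x => lie_le_E0 hL hG (hp.mem x))
      hp.zero hvw) hw
  have hα3 : ∀ y : Matrix ι ι ℚ_[ℓ], Kill H ℚ_[ℓ] y →
      ∀ z, p (y * z - z * y) = y * p z - p z * y := fun y hy =>
    (hα1 y hy).1 (hy.hspan (h4 α hα2))
  -- the complement
  have hmain : ∀ y : Matrix ι ι ℚ_[ℓ], Kill H ℚ_[ℓ] y → dp (Fin (n + 1)) y *ᵥ a = 0 := by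
    intro y hy
    set x := y - p y with hx
    have hpy := hlk _ (hp.mem y)
    have hxk : Kill H ℚ_[ℓ] x :=
      mem_killAll.1 (Submodule.sub_mem (killAll H ℚ_[ℓ] S) (mem_killAll.2 hy) (mem_killAll.2 hpy))
    have hxu : ∀ u ∈ U, Yt deg Y lam u * x - x * Yt deg Y lam u = 0 := by
      intro u hu
      set v := Yt deg Y lam u
      have h1 := hα3 y hy v
      rw [hp.id v (mem_lie hu)] at h1
      have h2 := hp.comm u hu y
      change p (v * y - y * v) = v * p y - p y * v at h2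
      have h3 : v * y - y * v = -(y * v - v * y) := by abel
      rw [h3, map_neg, h1] at h2
      rw [hx, Matrix.mul_sub, Matrix.sub_mul]
      have h4 : v * y - v * p y - (y * v - p y * v) = (v * y - y * v) - (v * p y - p y * v) := by
        abel
      rw [h4, ← h2]
      abel
    have hxm : x ∈ E0 deg ℚ_[ℓ] := by
      intro i j hne
      by_contra h
      exact hne (hxk.deg S hl h)
    -- the array of `x`
    have hβ : ∀ z : Matrix ι ι ℚ_[ℓ], Kill H ℚ_[ℓ] z →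
        dp (Fin 2) z *ᵥ vec2 (x * B) = vec2 ((z * x - x * z) * B) := by
      intro z hz
      have h1 : B * zᵀ = -(z * B) := eq_neg_of_add_eq_zero_right (hz.skew S)
      rw [dp_vec2 S, Matrix.mul_assoc x B, h1, Matrix.mul_neg, Matrix.sub_mul (z * x) (x * z) B,
        Matrix.mul_assoc z x B, Matrix.mul_assoc x z B, sub_eq_add_neg]
    have hb : ∀ z : Matrix ι ι ℚ_[ℓ], Kill H ℚ_[ℓ] z → dp (Fin 2) z *ᵥ vec2 B = 0 := by
      intro z hz
      rw [dp_vec2 S, hz.skew S, map_zero]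
    set γ : (Fin 4 → ι) → ℚ_[ℓ] := arr4 (Matrix.vecMulVec (vec2 (x * B)) (vec2 B)) with hγ
    have hγ1 : ∀ z : Matrix ι ι ℚ_[ℓ], Kill H ℚ_[ℓ] z → dp (Fin 4) z *ᵥ γ =
        arr4 (Matrix.vecMulVec (vec2 ((z * x - x * z) * B)) (vec2 B)) := by
      intro z hz
      rw [hγ, dp_arr4_vec S (hb z hz), hβ z hz]
    have hγ2 : γ ∈ tspan deg G χ 3 := by
      refine hL.tspan_of_kill hG S (fun w hw => ?_) fun u hu => ?_
      · refine arr4_even (fun v w hvw => ?_) hw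
        rw [Matrix.vecMulVec_apply, vec2_apply, vec2_apply] at hvw
        constructor
        · by_contra hne
          exact hvw (by rw [E0_mul hxm hBm _ _ hne, zero_mul])
        · by_contra hne
          exact hvw (by rw [hBm _ _ hne, mul_zero])
      · rw [hγ1 _ (hk u hu), hxu u hu, Matrix.zero_mul, map_zero]
        ext w
        simp [arr4, arr, Pool.Agent.N996.BP.rei, Matrix.vecMulVec_apply]
    have hcomm : ∀ z : Matrix ι ι ℚ_[ℓ], Kill H ℚ_[ℓ] z → x * z = z * x := by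
      intro z hz
      rcases isEmpty_or_nonempty ι with he | ⟨⟨i0⟩⟩
      · ext i
        exact (he.false i).elim
      have h1 := hz.hspan (h4 γ hγ2)
      rw [hγ1 z hz] at h1
      have h2 := arr4_injective (h1.trans arr4_zero.symm)
      obtain ⟨j0, hj0⟩ : ∃ j, B i0 j ≠ 0 := by
        by_contra hc
        push Not at hc
        have h3 : (B * Q) i0 i0 = 0 := by
          rw [Matrix.mul_apply]
          exact Finset.sum_eq_zero fun j _ => by rw [hc j, zero_mul]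
        rw [hBQ, Matrix.one_apply_eq] at h3
        exact one_ne_zero h3
      have h3 : (z * x - x * z) * B = 0 := by
        ext i j
        have h5 := congrFun (congrFun h2 ![i, j]) ![i0, j0]
        rw [Matrix.vecMulVec_apply, vec2_apply, vec2_apply] at h5
        have h6 : ((z * x - x * z) * B) i j * B i0 j0 = 0 := h5
        exact (mul_eq_zero.1 h6).resolve_right hj0
      have h5 := congrArg (fun M => M * Q) h3
      simp only [Matrix.mul_assoc, hBQ, Matrix.mul_one, Matrix.zero_mul] at h5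
      exact (eq_of_sub_eq_zero h5).symm
    -- the conclusion
    have h5 : dp (Fin (n + 1)) x *ᵥ a = 0 := hcen x hxk hcomm n j a ha
    have h6 : dp (Fin (n + 1)) (p y) *ᵥ a = 0 :=
      (lie_le (V := killSub S a) fun u hu => hL.kill_tate hG S hu ha) (hp.mem y)
    have h7 : y = x + p y := by rw [hx]; abel
    have h8 : y ∈ killSub S a := by
      rw [h7]
      exact Submodule.add_mem _ h5 h6
    exact h8
  exact S.hodge ι H ℚ_[ℓ] n a hmain

end Pool.Agent.N202.TB
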