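import Pool.Agent.N202.TB.Core5
import Pool.Agent.N202.TB.Bracket

/-!
# The core in one degree
-/

set_option linter.unusedSectionVars false

namespace Pool.Agent.N202.TB

open Matrix Filter Topology
open Pool.Agent.N996.BP

section Block

variable {ι : Type} [Fintype ι] [DecidableEq ι] {L : Type} [Field L] (deg : ι → ℕ) (δ : ℕ)

/-- The block of degree `δ`. -/
def p1 (L : Type) [Field L] : Matrix ι ι L →ₗ[L] Matrix ι ι L where
  toFun x := Matrix.of fun i j => if deg i = δ ∧ deg j = δ then x i j else 0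
  map_add' x y := by
    ext i j
    simp only [Matrix.of_apply, Matrix.add_apply]
    split_ifs <;> simp
  map_smul' c x := by
    ext i j
    simp only [Matrix.of_apply, Matrix.smul_apply, RingHom.id_apply]
    split_ifs <;> simp

variable {deg δ}

lemma p1_apply (x : Matrix ι ι L) (i j : ι) :
    p1 deg δ L x i j = if deg i = δ ∧ deg j = δ then x i j else 0 := rfl

lemma p1_mem (x : Matrix ι ι L) : p1 deg δ L x ∈ E0 deg L := by
  intro i j h
  rw [p1_apply, if_neg]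
  rintro ⟨h1, h2⟩
  exact h (h1.trans h2.symm)

lemma p1_p1 (x : Matrix ι ι L) : p1 deg δ L (p1 deg δ L x) = p1 deg δ L x := by
  ext i j
  rw [p1_apply, p1_apply]
  split_ifs <;> rfl

lemma p1_ne {x : Matrix ι ι L} {i j : ι} (h : p1 deg δ L x i j ≠ 0) : deg i = δ ∧ deg j = δ := by
  by_contra hne
  rw [p1_apply, if_neg hne] at h
  exact h rfl

lemma p1_mul_left {y : Matrix ι ι L} (hy : y ∈ E0 deg L) (x : Matrix ι ι L) :
    p1 deg δ L (y * x) = y * p1 deg δ L x := by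
  ext i j
  rw [p1_apply, Matrix.mul_apply, Matrix.mul_apply]
  split_ifs with h
  · refine Finset.sum_congr rfl fun k _ => ?_
    rw [p1_apply]
    by_cases h1 : deg i = deg k
    · rw [if_pos ⟨h1.symm.trans h.1, h.2⟩]
    · rw [hy i k h1, zero_mul, zero_mul]
  · symm
    refine Finset.sum_eq_zero fun k _ => ?_
    by_cases h1 : deg i = deg k
    · rw [p1_apply, if_neg (fun h2 => h ⟨h1.trans h2.1, h2.2⟩), mul_zero]
    · rw [hy i k h1, zero_mul]

lemma p1_mul_right {y : Matrix ι ι L} (hy : y ∈ E0 deg L) (x : Matrix ι ι L) :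
    p1 deg δ L (x * y) = p1 deg δ L x * y := by
  ext i j
  rw [p1_apply, Matrix.mul_apply, Matrix.mul_apply]
  split_ifs with h
  · refine Finset.sum_congr rfl fun k _ => ?_
    rw [p1_apply]
    by_cases h1 : deg k = deg j
    · rw [if_pos ⟨h.1, h1.trans h.2⟩]
    · rw [hy k j h1, mul_zero, mul_zero]
  · symm
    refine Finset.sum_eq_zero fun k _ => ?_
    by_cases h1 : deg k = deg j
    · rw [p1_apply, if_neg (fun h2 => h ⟨h2.1, h1.symm.trans h2.2⟩), zero_mul]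
    · rw [hy k j h1, mul_zero]

/-- Brackets with blocks. -/
lemma p1_bracket {y z : Matrix ι ι L} (hy : y ∈ E0 deg L) (hz : z ∈ E0 deg L) :
    y * p1 deg δ L z - p1 deg δ L z * y = p1 deg δ L y * z - z * p1 deg δ L y := by
  rw [← p1_mul_left hy, ← p1_mul_right hy, ← p1_mul_right hz, ← p1_mul_left hz]

/-- The support of the array `opP`. -/
lemma opP_support1 {B Q : Matrix ι ι L} (hB : B ∈ E0 deg L) (hQ : Q ∈ E0 deg L)
    {p : Matrix ι ι L →ₗ[L] Matrix ι ι L} (hp : ∀ x, p1 deg δ L (p x) = p x)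
    (hp0 : ∀ x, p1 deg δ L x = 0 → p x = 0) {v w : Fin 2 → ι}
    (h : (opP B Q p * kp (Fin 2) B) v w ≠ 0) :
    (deg (v 0) = δ ∧ deg (v 1) = δ) ∧ (deg (w 0) = δ ∧ deg (w 1) = δ) := by
  have h1 : (opP B Q p * kp (Fin 2) B) v w =
      (opP B Q p *ᵥ (kp (Fin 2) B *ᵥ Pi.single w 1)) v := by
    rw [Matrix.mulVec_mulVec, Matrix.mulVec_single_one]
    rfl
  have h2 : (Pi.single w (1 : L) : (Fin 2 → ι) → L) =
      vec2 (Matrix.single (w 0) (w 1) (1 : L)) := by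
    ext v
    rw [vec2_apply, Matrix.single_apply]
    by_cases hv : v = w
    · subst hv
      rw [Pi.single_eq_same, if_pos ⟨rfl, rfl⟩]
    · rw [Pi.single_eq_of_ne hv, if_neg]
      rintro ⟨h3, h4⟩
      apply hv
      ext k
      fin_cases k
      · exact h3.symm
      · exact h4.symm
  have h3 : kp (Fin 2) B *ᵥ vec2 (Matrix.single (w 0) (w 1) (1 : L)) =
      vec2 (B * Matrix.single (w 0) (w 1) 1 * Bᵀ) :=
    kp_two B (Matrix.single (w 0) (w 1) (1 : L))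
  rw [h1, h2, h3, opP_vec2, vec2_apply] at h
  have hBt : Bᵀ ∈ E0 deg L := fun i j hne => by
    rw [Matrix.transpose_apply]
    exact hB j i (Ne.symm hne)
  constructor
  · rw [← hp, ← p1_mul_right hB] at h
    exact p1_ne h
  · by_contra hne
    apply h
    have h4 : p1 deg δ L (B * Matrix.single (w 0) (w 1) 1 * Bᵀ * Q) = 0 := by
      rw [p1_mul_right hQ, p1_mul_right hBt, p1_mul_left hB]
      have h5 : p1 deg δ L (Matrix.single (w 0) (w 1) (1 : L)) = 0 := by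
        ext i j
        rw [p1_apply, Matrix.single_apply]
        split_ifs with h6 h7
        · obtain ⟨rfl, rfl⟩ := h7
          exact absurd h6 hne
        · rfl
        · rfl
      rw [h5, Matrix.mul_zero, Matrix.zero_mul, Matrix.zero_mul]
    rw [hp0 _ h4, Matrix.zero_mul]
    rfl

/-- The degree of the arrays with four indices. -/
lemma arr4_deg {M : Matrix (Fin 2 → ι) (Fin 2 → ι) L}
    (hM : ∀ v w, M v w ≠ 0 → (deg (v 0) = δ ∧ deg (v 1) = δ) ∧ (deg (w 0) = δ ∧ deg (w 1) = δ))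
    {w : Fin 4 → ι} (hw : arr4 M w ≠ 0) : ∑ k, deg (w k) = 2 * (2 * δ) := by
  obtain ⟨⟨h1, h2⟩, h3, h4⟩ := hM _ _ hw
  have h1' : deg (w 0) = δ := h1
  have h2' : deg (w 1) = δ := h2
  have h3' : deg (w 2) = δ := h3
  have h4' : deg (w 3) = δ := h4
  rw [Fin.sum_univ_four, h1', h2', h3', h4']
  ring

end Block

section Galois

variable {ι : Type} [Fintype ι] [DecidableEq ι] {ℓ : ℕ} [Fact ℓ.Prime] {Γ : Type} [Group Γ]
  {deg : ι → ℕ} {δ : ℕ} {G : Γ → Matrix ι ι ℚ_[ℓ]} {χ : Γ → ℚ_[ℓ]}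
  {U : Subgroup Γ} {Y : Γ → Matrix ι ι ℚ_[ℓ]} {lam : Γ → ℚ_[ℓ]} {H : HData ι}

/-- The projector to the block of the Lie algebra. -/
structure IsPr1 (δ : ℕ) (deg : ι → ℕ) (U : Subgroup Γ) (Y : Γ → Matrix ι ι ℚ_[ℓ])
    (lam : Γ → ℚ_[ℓ]) (p : Matrix ι ι ℚ_[ℓ] →ₗ[ℚ_[ℓ]] Matrix ι ι ℚ_[ℓ]) : Prop where
  mem : ∀ x, ∃ y ∈ lie deg U Y lam, p1 deg δ ℚ_[ℓ] y = p x
  id : ∀ x ∈ lie deg U Y lam, p x = p1 deg δ ℚ_[ℓ] x
  zero : ∀ x, p1 deg δ ℚ_[ℓ] x = 0 → p x = 0
  comm : ∀ u ∈ U, ∀ x, p (Yt deg Y lam u * x - x * Yt deg Y lam u) =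
    Yt deg Y lam u * p x - p x * Yt deg Y lam u

lemma exists_pr1 (S : Steps) (hL : Logs G χ U Y lam) (hG : GalArr deg G χ) (hss : AdSS G)
    (δ : ℕ) : ∃ p, IsPr1 δ deg U Y lam p := by
  set g1 := (lie deg U Y lam).map (p1 deg δ ℚ_[ℓ]) with hg1
  have hst : ∀ g ∈ U, ∀ x ∈ g1, G g * x * G g⁻¹ ∈ g1 := by
    rintro g hg _ ⟨x, hx, rfl⟩
    refine ⟨G g * x * G g⁻¹, lie_stable hL hG hg hx, ?_⟩
    rw [p1_mul_right (hG.mem g⁻¹), p1_mul_left (hG.mem g)]
  obtain ⟨V, hV, hc⟩ := hss U hL.fin g1 hst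
  set π := Submodule.projection g1 V hc with hπ
  have h1 : ∀ x, π x ∈ g1 := fun x => Submodule.projection_apply_mem hc x
  have h2 : ∀ x ∈ g1, π x = x := fun x hx =>
    Submodule.projection_apply_left hc ⟨x, hx⟩
  have h3 : ∀ x ∈ V, π x = 0 := fun x hx => (Submodule.projection_apply_eq_zero_iff hc).2 hx
  have h4 : ∀ x, x - π x ∈ V := fun x => by
    refine (Submodule.projection_apply_eq_zero_iff hc).1 ?_
    change π (x - π x) = 0
    rw [map_sub, h2 _ (h1 x), sub_self]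
  have h5 : ∀ u ∈ U, ∀ x, π (Y u * x - x * Y u) = Y u * π x - π x * Y u := by
    intro u hu x
    have h6 : Y u * x - x * Y u = (Y u * π x - π x * Y u) +
        (Y u * (x - π x) - (x - π x) * Y u) := by
      rw [Matrix.mul_sub, Matrix.sub_mul]
      abel
    rw [h6, map_add, h2 _ (ad_stable S hL hG hst hu (h1 x)),
      h3 _ (ad_stable S hL hG hV hu (h4 x)), add_zero]
  have hE : ∀ x ∈ g1, x ∈ E0 deg ℚ_[ℓ] := by
    rintro _ ⟨x, _, rfl⟩
    exact p1_mem x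
  refine ⟨π ∘ₗ p1 deg δ ℚ_[ℓ], ⟨fun x => ?_, fun x hx => ?_, fun x hx => ?_, fun u hu x => ?_⟩⟩
  · obtain ⟨y, hy, h6⟩ := h1 (p1 deg δ ℚ_[ℓ] x)
    exact ⟨y, hy, h6⟩
  · rw [LinearMap.comp_apply, h2 _ ⟨x, hx, rfl⟩]
  · rw [LinearMap.comp_apply, hx, map_zero]
  · have hm := hL.Yt_mem hG hu
    have h6 : ∀ z ∈ E0 deg ℚ_[ℓ], Yt deg Y lam u * z - z * Yt deg Y lam u =
        Y u * z - z * Y u := by
      intro z hz
      rw [Yt, Matrix.sub_mul, Matrix.mul_sub, Matrix.smul_mul, Matrix.mul_smul, DD_comm hz]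
      abel
    rw [LinearMap.comp_apply, LinearMap.comp_apply, map_sub, p1_mul_left hm, p1_mul_right hm,
      h6 _ (p1_mem x), h5 u hu, h6 _ (hE _ (h1 _))]

/-- **The core in one degree.** -/
theorem core_deg (S : Steps) (hG : GalArr deg G χ)
    (hl : ∀ t : ℂ, t ≠ 0 → ∀ i j, H.l t i j ≠ 0 → deg i = deg j)
    (hQ : ∀ i j, H.Qir i j ≠ 0 → deg i = deg j)
    (hQr : ∀ i j, H.Qr i j ≠ 0 → deg i = deg j)
    (hHT : ∀ n, ∀ a ∈ BB H (Fin (n + 1)), aL ℚ_[ℓ] a ∈ tspan deg G χ n)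
    (hss : AdSS G)
    (hcen : ∀ y : Matrix ι ι ℚ_[ℓ], Kill H ℚ_[ℓ] y →
      (∀ z : Matrix ι ι ℚ_[ℓ], Kill H ℚ_[ℓ] z → y * z = z * y) →
      ∀ n j a, TateArr deg G χ n j a → dp (Fin (n + 1)) y *ᵥ a = 0)
    (δ : ℕ) (hgen : ∀ y : Matrix ι ι ℚ_[ℓ], Kill H ℚ_[ℓ] y →
      (∀ i j, deg j = δ → y i j = 0) → y = 0)
    (h4 : ∀ a, TateArr deg G χ 3 (2 * δ) a → a ∈ hspan H ℚ_[ℓ] 3) (n j : ℕ)
    (a : (Fin (n + 1) → ι) → ℚ_[ℓ]) (ha : TateArr deg G χ n j a) : a ∈ hspan H ℚ_[ℓ] n := by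
  obtain ⟨U, Y, lam, hL⟩ := exists_logs S hG
  obtain ⟨p, hp⟩ := exists_pr1 S hL hG hss δ
  set B : Matrix ι ι ℚ_[ℓ] := mL ℚ_[ℓ] H.Qir with hB
  set Q : Matrix ι ι ℚ_[ℓ] := mL ℚ_[ℓ] H.Qr with hQ'
  have hBQ : B * Q = 1 := mL_Qir_Qr
  have hQB : Q * B = 1 := mL_Qr_Qir
  have hBm : B ∈ E0 deg ℚ_[ℓ] := by
    intro i j hne
    rw [hB, mL_apply]
    by_contra h
    exact hne (hQ i j fun h0 => h (by rw [h0, Rat.cast_zero]))
  have hQm : Q ∈ E0 deg ℚ_[ℓ] := by
    intro i j hne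
    rw [hQ', mL_apply]
    by_contra h
    exact hne (hQr i j fun h0 => h (by rw [h0, Rat.cast_zero]))
  have hkE : ∀ z : Matrix ι ι ℚ_[ℓ], Kill H ℚ_[ℓ] z → z ∈ E0 deg ℚ_[ℓ] := by
    intro z hz i j hne
    by_contra h
    exact hne (hz.deg S hl h)
  -- faithfulness on the block
  have hgen' : ∀ z : Matrix ι ι ℚ_[ℓ], Kill H ℚ_[ℓ] z → p1 deg δ ℚ_[ℓ] z = 0 → z = 0 := by
    intro z hz h0
    refine hgen z hz fun i j hj => ?_
    by_cases hi : deg i = δ
    · have h1 := congrFun (congrFun h0 i) j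
      rw [p1_apply, if_pos ⟨hi, hj⟩] at h1
      exact h1
    · exact hkE z hz i j fun h1 => hi (h1.trans hj)
  -- the Lie algebra kills the Hodge arrays
  have hk : ∀ u ∈ U, Kill H ℚ_[ℓ] (Yt deg Y lam u) := fun u hu n a ha =>
    hL.kill_tspan hG S hu (hHT n a ha)
  have hlk : ∀ x ∈ lie deg U Y lam, Kill H ℚ_[ℓ] x := fun x hx =>
    mem_killAll.1 ((lie_le (V := killAll H ℚ_[ℓ] S) fun u hu => mem_killAll.2 (hk u hu)) hx)
  have hpp : ∀ x, p1 deg δ ℚ_[ℓ] (p x) = p x := by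
    intro x
    obtain ⟨y, _, hy⟩ := hp.mem x
    rw [← hy, p1_p1]
  -- the array of the projector
  set α : (Fin 4 → ι) → ℚ_[ℓ] := arr4 (opP B Q p * kp (Fin 2) B) with hα
  have hα1 : ∀ y : Matrix ι ι ℚ_[ℓ], Kill H ℚ_[ℓ] y →
      (dp (Fin 4) y *ᵥ α = 0 ↔ ∀ z, p (y * z - z * y) = y * p z - p z * y) := by
    intro y hy
    rw [hα, dp_arr4_eq_zero S hBQ (hy.skew S), opP_comm S hBQ p (hy.skew S)]
  have hα2 : TateArr deg G χ 3 (2 * δ) α := by
    refine hL.tate_of_kill hG S (fun w hw => ?_) fun u hu => (hα1 _ (hk u hu)).2 (hp.comm u hu)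
    exact arr4_deg (fun v w hvw => opP_support1 hBm hQm hpp hp.zero hvw) hw
  have hα3 : ∀ y : Matrix ι ι ℚ_[ℓ], Kill H ℚ_[ℓ] y →
      ∀ z, p (y * z - z * y) = y * p z - p z * y := fun y hy =>
    (hα1 y hy).1 (hy.hspan (h4 α hα2))
  -- the complement
  have hmain : ∀ y : Matrix ι ι ℚ_[ℓ], Kill H ℚ_[ℓ] y → dp (Fin (n + 1)) y *ᵥ a = 0 := by
    intro y hy
    obtain ⟨y', hy', hpy'⟩ := hp.mem y
    have hyk := hlk _ hy'
    set x := y - y' with hx
    set x1 := p1 deg δ ℚ_[ℓ] x with hx1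
    have hxk : Kill H ℚ_[ℓ] x :=
      mem_killAll.1 (Submodule.sub_mem (killAll H ℚ_[ℓ] S) (mem_killAll.2 hy) (mem_killAll.2 hyk))
    have hx1' : x1 = p1 deg δ ℚ_[ℓ] y - p y := by rw [hx1, hx, map_sub, hpy']
    have hxu : ∀ u ∈ U, Yt deg Y lam u * x1 - x1 * Yt deg Y lam u = 0 := by
      intro u hu
      set v := Yt deg Y lam u
      have hv := hkE _ (hk u hu)
      change v ∈ E0 deg ℚ_[ℓ] at hv
      have h1 := hα3 y hy v
      rw [hp.id v (mem_lie hu), p1_bracket (hkE y hy) hv] at h1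
      have h2 := hp.comm u hu y
      change p (v * y - y * v) = v * p y - p y * v at h2
      have h3 : v * y - y * v = -(y * v - v * y) := by abel
      rw [h3, map_neg, h1] at h2
      rw [hx1', Matrix.mul_sub, Matrix.sub_mul]
      have h4 : v * p1 deg δ ℚ_[ℓ] y - v * p y - (p1 deg δ ℚ_[ℓ] y * v - p y * v) =
          (v * p1 deg δ ℚ_[ℓ] y - p1 deg δ ℚ_[ℓ] y * v) - (v * p y - p y * v) := by
        abel
      rw [h4, ← h2]
      abel
    -- the arrays of the block of `x` and of the form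
    have hβ : ∀ z : Matrix ι ι ℚ_[ℓ], Kill H ℚ_[ℓ] z →
        dp (Fin 2) z *ᵥ vec2 (x1 * B) = vec2 ((z * x1 - x1 * z) * B) := by
      intro z hz
      have h1 : B * zᵀ = -(z * B) := eq_neg_of_add_eq_zero_right (hz.skew S)
      rw [dp_vec2 S, Matrix.mul_assoc x1 B, h1, Matrix.mul_neg,
        Matrix.sub_mul (z * x1) (x1 * z) B,
        Matrix.mul_assoc z x1 B, Matrix.mul_assoc x1 z B, sub_eq_add_neg]
    set B1 := p1 deg δ ℚ_[ℓ] B with hB1
    have hb : ∀ z : Matrix ι ι ℚ_[ℓ], Kill H ℚ_[ℓ] z → dp (Fin 2) z *ᵥ vec2 B1 = 0 := by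
      intro z hz
      have hzE := hkE z hz
      have hzt : zᵀ ∈ E0 deg ℚ_[ℓ] := fun i j hne => by
        rw [Matrix.transpose_apply]
        exact hzE j i (Ne.symm hne)
      rw [dp_vec2 S, hB1, ← p1_mul_left hzE, ← p1_mul_right hzt, ← map_add, hz.skew S, map_zero,
        map_zero]
    set γ : (Fin 4 → ι) → ℚ_[ℓ] := arr4 (Matrix.vecMulVec (vec2 (x1 * B)) (vec2 B1)) with hγ
    have hγ1 : ∀ z : Matrix ι ι ℚ_[ℓ], Kill H ℚ_[ℓ] z → dp (Fin 4) z *ᵥ γ =
        arr4 (Matrix.vecMulVec (vec2 ((z * x1 - x1 * z) * B)) (vec2 B1)) := by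
      intro z hz
      rw [hγ, dp_arr4_vec S (hb z hz), hβ z hz]
    have hγ2 : TateArr deg G χ 3 (2 * δ) γ := by
      refine hL.tate_of_kill hG S (fun w hw => ?_) fun u hu => ?_
      · refine arr4_deg (fun v w hvw => ?_) hw
        rw [Matrix.vecMulVec_apply, vec2_apply, vec2_apply] at hvw
        have h1 := left_ne_zero_of_mul hvw
        have h2 := right_ne_zero_of_mul hvw
        rw [hx1, ← p1_mul_right hBm] at h1
        exact ⟨p1_ne h1, p1_ne h2⟩
      · rw [hγ1 _ (hk u hu), hxu u hu, Matrix.zero_mul, map_zero]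
        ext w
        simp [arr4, arr, Pool.Agent.N996.BP.rei, Matrix.vecMulVec_apply]
    have hcomm : ∀ z : Matrix ι ι ℚ_[ℓ], Kill H ℚ_[ℓ] z → x * z = z * x := by
      intro z hz
      -- the bracket
      have hbr : Kill H ℚ_[ℓ] (z * x - x * z) := by
        intro n a ha
        rw [dp_bracket, Matrix.sub_mulVec, ← Matrix.mulVec_mulVec, ← Matrix.mulVec_mulVec,
          hxk n a ha, hz n a ha, Matrix.mulVec_zero, Matrix.mulVec_zero, sub_self]
      refine (eq_of_sub_eq_zero (hgen' _ hbr ?_)).symm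
      have hzE := hkE z hz
      rw [map_sub, p1_mul_left hzE, p1_mul_right hzE]
      by_cases hne : ∃ i0, deg i0 = δ
      · obtain ⟨i0, hi0⟩ := hne
        have h1 := hz.hspan (h4 γ hγ2)
        rw [hγ1 z hz] at h1
        have h2 := arr4_injective (h1.trans arr4_zero.symm)
        obtain ⟨j0, hj0⟩ : ∃ j, B i0 j ≠ 0 := by
          by_contra hc
          push Not at hc
          have h3 : (B * Q) i0 i0 = 0 := by
            rw [Matrix.mul_apply]
            exact Finset.sum_eq_zero fun j _ => by rw [hc j, zero_mul]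
          rw [hBQ, Matrix.one_apply_eq] at h3
          exact one_ne_zero h3
        have hj0' : B1 i0 j0 ≠ 0 := by
          have h3 : deg i0 = deg j0 := by
            by_contra h3
            exact hj0 (hBm i0 j0 h3)
          rw [hB1, p1_apply, if_pos ⟨hi0, h3.symm.trans hi0⟩]
          exact hj0
        have h3 : (z * x1 - x1 * z) * B = 0 := by
          ext i j
          have h5 := congrFun (congrFun h2 ![i, j]) ![i0, j0]
          rw [Matrix.vecMulVec_apply, vec2_apply, vec2_apply] at h5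
          have h6 : ((z * x1 - x1 * z) * B) i j * B1 i0 j0 = 0 := h5
          exact (mul_eq_zero.1 h6).resolve_right hj0'
        have h5 := congrArg (fun M => M * Q) h3
        simp only [Matrix.mul_assoc, hBQ, Matrix.mul_one, Matrix.zero_mul] at h5
        exact h5
      · push Not at hne
        have h1 : p1 deg δ ℚ_[ℓ] x = 0 := by
          ext i j
          rw [p1_apply, if_neg (fun h => hne i h.1)]
          rfl
        rw [h1, Matrix.mul_zero, Matrix.zero_mul, sub_self]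
    -- the conclusion
    have h5 : dp (Fin (n + 1)) x *ᵥ a = 0 := hcen x hxk hcomm n j a ha
    have h6 : dp (Fin (n + 1)) y' *ᵥ a = 0 :=
      (lie_le (V := killSub S a) fun u hu => hL.kill_tate hG S hu ha) hy'
    have h7 : y = x + y' := by rw [hx]; abel
    have h8 : y ∈ killSub S a := by
      rw [h7]
      exact Submodule.add_mem _ h5 h6
    exact h8
  exact S.hodge ι H ℚ_[ℓ] n a hmain

end Galois

end Pool.Agent.N202.TB
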