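import Pool.Agent.N996.BP.HData

/-!
# Arrays, derivations and `ℓ`-adic matrices: definitions
-/

set_option linter.unusedSectionVars false

namespace Pool.Agent.N202.TB

open Matrix Filter Topology
open Pool.Agent.N996.BP

section Der

variable {ι : Type} [Fintype ι] [DecidableEq ι] {R : Type*} [CommRing R]

/-- The action of the matrix `y` on the arrays with indices `κ`, as a derivation: the sum of the
actions on the single indices. -/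
def dp (κ : Type) [Fintype κ] [DecidableEq κ] (y : Matrix ι ι R) : Matrix (κ → ι) (κ → ι) R :=
  Matrix.of fun v w => ∑ k, y (v k) (w k) * ∏ j ∈ Finset.univ.erase k, (if v j = w j then 1 else 0)

end Der

section Log

variable {ℓ : ℕ} [Fact ℓ.Prime] {m : Type} [Fintype m] [DecidableEq m]

/-- The matrix `g` is congruent to `1` modulo `ℓ ^ 2`. -/
def Near (g : Matrix m m ℚ_[ℓ]) : Prop :=
  ∀ i j, ‖g i j - (1 : Matrix m m ℚ_[ℓ]) i j‖ ≤ ((ℓ : ℝ) ^ 2)⁻¹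

/-- The matrix `y` is the logarithm of `g`: the limit of `(g ^ (ℓ ^ k) - 1) / ℓ ^ k`. -/
def IsLog (g y : Matrix m m ℚ_[ℓ]) : Prop :=
  ∀ i j, Tendsto (fun k : ℕ => ((ℓ : ℚ_[ℓ]) ^ k)⁻¹ *
    ((g ^ (ℓ ^ k)) i j - (1 : Matrix m m ℚ_[ℓ]) i j)) atTop (𝓝 (y i j))

/-- The number `y` is the logarithm of `c`. -/
def IsLogS (c y : ℚ_[ℓ]) : Prop :=
  Tendsto (fun k : ℕ => ((ℓ : ℚ_[ℓ]) ^ k)⁻¹ * (c ^ (ℓ ^ k) - 1)) atTop (𝓝 y)

end Log

section Hodge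

variable {ι : Type} [Fintype ι] [DecidableEq ι]

/-- The array with entries in `L`. -/
noncomputable def aL (L : Type*) [Field L] {κ : Type} (a : (κ → ι) → ℚ) : (κ → ι) → L := fun i => (a i : L)

/-- The matrix `y` with entries in `L` kills all Hodge arrays (on the powers). -/
def Kill (H : HData ι) (L : Type*) [Field L] (y : Matrix ι ι L) : Prop :=
  ∀ (n : ℕ) (a : (Fin (n + 1) → ι) → ℚ), a ∈ BB H (Fin (n + 1)) →
    dp (Fin (n + 1)) y *ᵥ aL L a = 0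

/-- The span of the Hodge arrays. -/
noncomputable def hspan (H : HData ι) (L : Type*) [Field L] (n : ℕ) : Submodule L ((Fin (n + 1) → ι) → L) :=
  Submodule.span L {x | ∃ a ∈ BB H (Fin (n + 1)), aL L a = x}

end Hodge

section Gal

variable {ι : Type} [Fintype ι] [DecidableEq ι] {ℓ : ℕ} [Fact ℓ.Prime] {Γ : Type} [Group Γ]

/-- An `ℓ`-adic representation in coordinates, with a grading and a character. -/
structure GalArr (deg : ι → ℕ) (G : Γ → Matrix ι ι ℚ_[ℓ]) (χ : Γ → ℚ_[ℓ]) : Prop where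
  one : G 1 = 1
  mul : ∀ g h, G (g * h) = G g * G h
  χone : χ 1 = 1
  χmul : ∀ g h, χ (g * h) = χ g * χ h
  deg : ∀ g i j, G g i j ≠ 0 → deg i = deg j
  cont : ∀ ε : ℝ, 0 < ε → ∃ Δ : Subgroup Γ, Δ.FiniteIndex ∧
    ∀ g ∈ Δ, (∀ i j, ‖G g i j - (1 : Matrix ι ι ℚ_[ℓ]) i j‖ < ε) ∧ ‖χ g - 1‖ < ε

/-- The array `a` is a Tate array of degree `2 j`. -/
def TateArr (deg : ι → ℕ) (G : Γ → Matrix ι ι ℚ_[ℓ]) (χ : Γ → ℚ_[ℓ]) (n j : ℕ)
    (a : (Fin (n + 1) → ι) → ℚ_[ℓ]) : Prop :=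
  (∀ w, a w ≠ 0 → ∑ k, deg (w k) = 2 * j) ∧
    ∃ Δ : Subgroup Γ, Δ.FiniteIndex ∧ ∀ g ∈ Δ, kp (Fin (n + 1)) (G g) *ᵥ a = χ g ^ j • a

/-- The span of the Tate arrays. -/
noncomputable def tspan (deg : ι → ℕ) (G : Γ → Matrix ι ι ℚ_[ℓ]) (χ : Γ → ℚ_[ℓ]) (n : ℕ) :
    Submodule ℚ_[ℓ] ((Fin (n + 1) → ι) → ℚ_[ℓ]) :=
  Submodule.span ℚ_[ℓ] {a | ∃ j, TateArr deg G χ n j a}

/-- The conjugation of matrices by the elements of subgroups of finite index is completely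
reducible. -/
def AdSS (G : Γ → Matrix ι ι ℚ_[ℓ]) : Prop :=
  ∀ Δ : Subgroup Γ, Δ.FiniteIndex → ∀ S : Submodule ℚ_[ℓ] (Matrix ι ι ℚ_[ℓ]),
    (∀ g ∈ Δ, ∀ x ∈ S, G g * x * G g⁻¹ ∈ S) →
    ∃ S' : Submodule ℚ_[ℓ] (Matrix ι ι ℚ_[ℓ]), (∀ g ∈ Δ, ∀ x ∈ S', G g * x * G g⁻¹ ∈ S') ∧
      IsCompl S S'

end Gal

end Pool.Agent.N202.TB
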