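import Pool.Agent.N202.TB.Main2

/-!
# The matrices which kill the Hodge arrays are derivations of the cohomology algebra
-/

set_option linter.unusedSectionVars false

open CategoryTheory AlgebraicGeometry TensorProduct

universe u

namespace Pool.Agent.N202.TB

open Module Matrix
open Pool.Agent.H914 Pool.Agent.H914.VarClass Pool.Agent.H914.VarClass.Obj
  Pool.Agent.H914.WeilCohomology Pool.Agent.Y121.AHS
open Pool.Agent.Y121.AH (em em_gr em_zero em_add em_smul em_mul hodgePred CW)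
open Pool.Agent.Y133.Half (pw wb ClassPred Sys)
open Pool.Agent.N996.BP Pool.Agent.N996.BP.Geo
open Pool.Agent.N97.TB.Coord (cmb cmb_gr cmb_inj sc)
open Pool.Agent.N97.TB.Glue (hp em_corr_sum)

section Arr

variable {ι : Type} [Fintype ι] [DecidableEq ι] {H : HData ι} {L : Type} [Field L] [CharZero L]

lemma BB_rei {κ l : Type} [Fintype κ] [DecidableEq κ] [Fintype l] [DecidableEq l] (e : κ ≃ l)
    {a : (κ → ι) → ℚ} (ha : a ∈ BB H κ) : Pool.Agent.N996.BP.rei e a ∈ BB H l := by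
  intro t ht
  have h1 : ca (Pool.Agent.N996.BP.rei e a) = Pool.Agent.N996.BP.rei e (ca a) := rfl
  rw [h1, kp_rei, ha t ht]

/-- Equivariant matrices give Hodge arrays. -/
lemma arr_BB2 {κ l : Type} [Fintype κ] [DecidableEq κ] [Fintype l] [DecidableEq l]
    {x : Matrix (κ → ι) (l → ι) ℚ}
    (hx : ∀ t : ℂ, t ≠ 0 → kp κ (H.l t) * cQ x = cQ x * kp l (H.l t)) :
    arr (x * kp l H.Qir) ∈ BB H (κ ⊕ l) := by
  intro t ht
  have h0 : ca (arr (x * kp l H.Qir)) = arr (cQ (x * kp l H.Qir)) := rfl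
  rw [h0, kp_arr, cQ_mul]
  congr 1
  have h1 : kp l (H.l t) * cQ (kp l H.Qir) * (kp l (H.l t))ᵀ = cQ (kp l H.Qir) := by
    have h2 : (kp l (H.l t))ᵀ * cQ (kp l H.Qr) = cQ (kp l H.Qr) * kp l (H.l t⁻¹) := by
      rw [← kp_transpose, ← kp_cQ, ← kp_mul, ← kp_mul, H.l_tr ht]
    have h3 : cQ (kp l H.Qr) * cQ (kp l H.Qir) = 1 := by
      rw [← cQ_mul, kp_inv_mul H.Qr_Qir, cQ_one]
    have h4 : cQ (kp l H.Qir) * cQ (kp l H.Qr) = 1 := mul_eq_one_comm.1 h3
    have h5 : kp l (H.l t) * kp l (H.l t⁻¹) = 1 := kp_inv_mul (H.l_inv ht)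
    calc kp l (H.l t) * cQ (kp l H.Qir) * (kp l (H.l t))ᵀ =
        kp l (H.l t) * cQ (kp l H.Qir) * ((kp l (H.l t))ᵀ * cQ (kp l H.Qr)) *
          cQ (kp l H.Qir) := by rw [Matrix.mul_assoc, Matrix.mul_assoc,
            Matrix.mul_assoc _ (cQ (kp l H.Qr)), h3, Matrix.mul_one, Matrix.mul_assoc]
      _ = kp l (H.l t) * (cQ (kp l H.Qir) * cQ (kp l H.Qr)) * kp l (H.l t⁻¹) *
          cQ (kp l H.Qir) := by rw [h2]; simp only [Matrix.mul_assoc]
      _ = _ := by rw [h4, Matrix.mul_one, h5, Matrix.one_mul]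
  rw [← Matrix.mul_assoc, hx t ht, Matrix.mul_assoc (cQ x), Matrix.mul_assoc (cQ x), h1]

/-- The matrix of a bilinear operation. -/
def mm {F : Type} (m : ι → ι → ι → F) : Matrix (Fin 1 → ι) (Fin 2 → ι) F :=
  Matrix.of fun v w => m (v 0) (w 0) (w 1)

lemma sum_one {M : Type*} [AddCommMonoid M] (f : (Fin 1 → ι) → M) :
    ∑ w, f w = ∑ i, f ![i] := by
  rw [← Equiv.sum_comp (Equiv.funUnique (Fin 1) ι).symm f]
  refine Finset.sum_congr rfl fun i _ => congrArg f ?_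
  ext k
  fin_cases k
  rfl

/-- The matrices which kill the Hodge arrays are derivations. -/
theorem Kill.deriv (S : Steps) {z : Matrix ι ι L} (hz : Kill H L z) {m : ι → ι → ι → ℚ}
    (hm : ∀ t : ℂ, t ≠ 0 → ∀ a i j, ∑ k, H.l t a k * (m k i j : ℂ) =
      ∑ b, ∑ c, (m a b c : ℂ) * (H.l t b i * H.l t c j)) (a i j : ι) :
    ∑ k, z a k * (m k i j : L) = ∑ b, (m a b j : L) * z b i + ∑ c, (m a i c : L) * z c j := by
  have h1 : arr (mm m * kp (Fin 2) H.Qir) ∈ BB H (Fin 1 ⊕ Fin 2) := by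
    refine arr_BB2 fun t ht => ?_
    ext v w
    rw [Matrix.mul_apply, Matrix.mul_apply, sum_one, sum_two]
    have h2 := hm t ht (v 0) (w 0) (w 1)
    simpa [kp_apply, cQ, mm] using h2
  have h2 := BB_rei (finSumFinEquiv : Fin 1 ⊕ Fin 2 ≃ Fin (1 + 2)) h1
  have h3 := hz 2 _ h2
  have h4 : aL L (Pool.Agent.N996.BP.rei (finSumFinEquiv : Fin 1 ⊕ Fin 2 ≃ Fin (1 + 2))
      (arr (mm m * kp (Fin 2) H.Qir))) =
      Pool.Agent.N996.BP.rei (finSumFinEquiv : Fin 1 ⊕ Fin 2 ≃ Fin (1 + 2))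
        (arr ((mm fun a b c => (m a b c : L)) * kp (Fin 2) (mL L H.Qir))) := by
    ext w
    simp only [aL, Pool.Agent.N996.BP.rei, arr, Matrix.mul_apply, kp_apply, mL_apply, mm,
      Matrix.of_apply]
    push_cast
    rfl
  have h5 : dp (Fin (1 + 2)) z *ᵥ Pool.Agent.N996.BP.rei
      (finSumFinEquiv : Fin 1 ⊕ Fin 2 ≃ Fin (1 + 2))
        (arr ((mm fun a b c => (m a b c : L)) * kp (Fin 2) (mL L H.Qir))) = 0 := by
    rw [← h4]
    exact h3
  rw [S.rei L ι (Fin 1 ⊕ Fin 2) (Fin (1 + 2)) finSumFinEquiv, S.darr L ι (Fin 1) (Fin 2)] at h5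
  have h6 := rei_injective (ι := ι) (L := L) (finSumFinEquiv : Fin 1 ⊕ Fin 2 ≃ Fin (1 + 2))
    (a := arr (dp (Fin 1) z * ((mm fun a b c => (m a b c : L)) * kp (Fin 2) (mL L H.Qir)) +
      (mm fun a b c => (m a b c : L)) * kp (Fin 2) (mL L H.Qir) * (dp (Fin 2) z)ᵀ)) (b := 0) h5
  have h7 := congrArg (mat (κ := Fin 1) (l := Fin 2)) h6
  rw [mat_arr] at h7
  have h8 : mat (κ := Fin 1) (l := Fin 2) (0 : (Fin 1 ⊕ Fin 2 → ι) → L) = 0 := rfl
  rw [h8] at h7
  have h9 := S.skew L ι (Fin 2) z (mL L H.Qir) (hz.skew S)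
  have h10 : kp (Fin 2) (mL L H.Qir) * (dp (Fin 2) z)ᵀ =
      -(dp (Fin 2) z * kp (Fin 2) (mL L H.Qir)) := eq_neg_of_add_eq_zero_right h9
  rw [Matrix.mul_assoc (mm _), h10, Matrix.mul_neg, ← Matrix.mul_assoc, ← Matrix.mul_assoc] at h7
  have h11 := congrArg (fun M => M * kp (Fin 2) (mL L H.Qr)) h7
  have h12 : kp (Fin 2) (mL L H.Qir) * kp (Fin 2) (mL L H.Qr) = 1 := kp_inv_mul mL_Qir_Qr
  simp only [← sub_eq_add_neg, Matrix.sub_mul, Matrix.mul_assoc, h12, Matrix.mul_one,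
    Matrix.zero_mul] at h11
  have h13 := congrFun (congrFun (eq_of_sub_eq_zero h11) ![a]) ![i, j]
  rw [Matrix.mul_apply, Matrix.mul_apply, sum_one, sum_two] at h13
  simp only [dp, mm, Matrix.of_apply, Fin.sum_univ_two, Finset.univ_unique, Fin.default_eq_zero,
    Finset.sum_singleton, Finset.erase_singleton, Finset.prod_empty, mul_one,
    Matrix.cons_val_zero, Matrix.cons_val_one] at h13
  have e0 : (Finset.univ : Finset (Fin 2)).erase 0 = {1} := by decide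
  have e1 : (Finset.univ : Finset (Fin 2)).erase 1 = {0} := by decide
  rw [e0, e1] at h13
  simp only [Finset.prod_singleton, Matrix.cons_val_zero, Matrix.cons_val_one, mul_add,
    Finset.sum_add_distrib, mul_ite, mul_one, mul_zero, Finset.sum_ite_eq', Finset.mem_univ,
    if_true] at h13
  rw [h13]
  congr 1
  rw [Finset.sum_comm]
  simp

end Arr

end Pool.Agent.N202.TB
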