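import Pool.Agent.N202.TB.Bridge3

/-!
# The theorem for all powers with exponent at least four
-/

set_option linter.unusedSectionVars false

open CategoryTheory AlgebraicGeometry TensorProduct

universe u

namespace Pool.Agent.N202.TB

open Pool.Agent.H914 Pool.Agent.H914.VarClass Pool.Agent.H914.VarClass.Obj
  Pool.Agent.H914.WeilCohomology Pool.Agent.Y121.AHS
open Pool.Agent.Y121.AH (em em_map)
open Pool.Agent.Y133.Half (pw)
open Pool.Agent.N132.Lit (IsCycCl Comb)
open Pool.Agent.Y132.AH (GaloisData isTate_map)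
open Pool.Agent.N996.BP.Geo (up down up_down)
open Pool.Agent.N97.TB.Coord (toG)
open Pool.Agent.N97.TB.Glue

variable {k : Type u} [Field k] {𝒱 : VarClass k} {ops : CycleOps 𝒱}
  {T : HodgeTheory ops} {ℓ : ℕ} [Fact ℓ.Prime] [Algebra T.W.K ℚ_[ℓ]] {E : Realization T ℓ}
  {X : 𝒱.Obj}

lemma tateIn_mono {n N j : ℕ} (h : n ≤ N) (hN : TateConjectureIn E (pw X N) j) :
    TateConjectureIn E (pw X n) j := by
  intro x' hx
  let V := baseW T.W ℚ_[ℓ]
  obtain ⟨x, rfl⟩ : ∃ x : V.H (pw X n), x = x' := ⟨x', rfl⟩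
  have h1 : IsTate E (pw X N) j (V.map (down X h) x) := isTate_map (toG E) (down X h) hx
  have h2 := hN _ h1
  have h3 : x = V.map (up X n N) (V.map (down X h) x) := by
    rw [← V.map_comp, up_down, V.map_id]
  have key : ∀ y : V.H (pw X N),
      y ∈ Submodule.span V.K {y | ∃ a, IsCycCl T.W (pw X N) j a ∧ em T.W ℚ_[ℓ] a = y} →
      V.map (up X n N) y ∈
        Submodule.span V.K {y | ∃ a, IsCycCl T.W (pw X n) j a ∧ em T.W ℚ_[ℓ] a = y} := by
    intro y hy
    induction hy using Submodule.span_induction with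
    | mem y hy =>
      obtain ⟨a, ha, rfl⟩ := hy
      rw [em_map]
      exact Submodule.subset_span ⟨_, cyc_map _ ha, rfl⟩
    | zero => rw [map_zero]; exact Submodule.zero_mem _
    | add a b _ _ ha hb => rw [map_add]; exact Submodule.add_mem _ ha hb
    | smul r a _ ha => rw [map_smul]; exact Submodule.smul_mem _ _ ha
  have h4 := key _ h2
  rw [← h3] at h4
  exact h4

end Pool.Agent.N202.TB

namespace Pool.Agent.N202.TB.Ad

open Pool.Agent.H914 Pool.Agent.H914.VarClass Pool.Agent.H914.VarClass.Obj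
  Pool.Agent.H914.WeilCohomology Pool.Agent.Y121.AHS
open Pool.Agent.Y133.Half (pw)

variable {k : Type u} [Field k] {𝒱 : VarClass k} {ops : CycleOps 𝒱} {T : HodgeTheory ops}
  {E : Adic T.W} {X : 𝒱.Obj}

/-- The theorem for the powers with exponent at least four. -/
theorem any {ψ : Form T.W X} (hψ : IsPolarisation T X ψ) (h : OfAbelianType E X) {m : ℕ}
    (hm : 3 ≤ m) (hT : TateConjecture E (pw X m) ∨
      ∃ i, Determines E X i ∧ TateConjectureIn E (pw X m) (2 * i)) :
    (∀ n, MumfordTate E (pw X n)) ∧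
      OnPowers E X (fun Y => TateConjecture E Y ↔ HodgeConjecture T Y) ∧
      (TateConjecture E (pw X m) → exponent (totalBetti E X) ≤ m + 1 →
        OnPowers E X fun Y => TateConjecture E Y ∧ HodgeConjecture T Y) := by
  obtain ⟨h1, h2⟩ := one hψ h
  have h3 : ∀ {j a : ℕ}, a ≤ m → TateConjectureIn E (pw X m) j → TateConjectureIn E (pw X a) j :=
    fun ha h4 => tateIn_iff.2 (tateIn_mono ha (tateIn_iff.1 h4))
  obtain ⟨h4, h5⟩ := h1 (hT.imp (fun h4 j => h3 hm (h4 j)) fun ⟨i, hi, h4⟩ => ⟨i, hi, h3 hm h4⟩)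
  exact ⟨h4, h5, fun h6 h7 => h2 fun j => h3 (by omega) (h6 j)⟩

end Pool.Agent.N202.TB.Ad
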