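import Pool.Agent.N202.TB.Deriv

/-!
# Cohomology algebras generated in one degree
-/

set_option linter.unusedSectionVars false

open CategoryTheory AlgebraicGeometry TensorProduct

universe u

namespace Pool.Agent.N202.TB

open Module Matrix
open Pool.Agent.H914 Pool.Agent.H914.VarClass Pool.Agent.H914.VarClass.Obj
  Pool.Agent.H914.WeilCohomology Pool.Agent.Y121.AHS
open Pool.Agent.Y121.AH (em em_gr em_zero em_add em_smul em_mul ex_rat hodgePred CW)
open Pool.Agent.Y133.Half (pw wb ClassPred Sys)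
open Pool.Agent.N996.BP Pool.Agent.N996.BP.Geo
open Pool.Agent.N97.TB.Coord (cmb cmb_gr cmb_inj cmb_smul sc)
open Pool.Agent.N97.TB.Glue (hp em_corr_sum)

variable {k : Type u} [Field k] {𝒱 : VarClass k} {ops : CycleOps 𝒱}

section Mul

variable {W : WeilCohomology.{u, 0} ops} {L : Type} [Field L] [CharZero L] [Algebra W.K L]
  {X : 𝒱.Obj} {ι : Type} [Fintype ι] [DecidableEq ι] {e : Basis ι W.K (W.H X)}

lemma cmb_sum (e : Basis ι W.K (W.H X)) {κ : Type} (s : Finset κ) (f : κ → ι → L) :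
    cmb L e (fun a => ∑ x ∈ s, f x a) = ∑ x ∈ s, cmb L e (f x) := by
  simp only [cmb]
  rw [Finset.sum_comm]
  refine Finset.sum_congr rfl fun a _ => ?_
  exact Finset.sum_smul (R := (baseW W L).K) (f := fun x => sc W (f x a)) (s := s)
    (x := em W L (e a))

/-- Structure constants. -/
def IsStr (e : Basis ι W.K (W.H X)) (m : ι → ι → ι → ℚ) : Prop :=
  ∀ i j, e i * e j = ∑ k, ((m k i j : ℚ) : W.K) • e k

lemma em_str {m : ι → ι → ι → ℚ} (hm : IsStr e m) (i j : ι) :
    em W L (e i * e j) = cmb L e (fun a => (m a i j : L)) := by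
  rw [hm i j, em_corr_sum, cmb]
  refine Finset.sum_congr rfl fun a _ => ?_
  refine (em_smul _ _).trans ?_
  rw [ex_rat]
  rfl

lemma cmb_mul {m : ι → ι → ι → ℚ} (hm : IsStr e m) (z z' : ι → L) :
    cmb L e z * cmb L e z' =
      cmb L e (fun a => ∑ b, ∑ c, (m a b c : L) * (z b * z' c)) := by
  rw [cmb_sum]
  simp only [cmb_sum]
  rw [cmb, cmb, Finset.sum_mul_sum]
  refine Finset.sum_congr rfl fun b _ => Finset.sum_congr rfl fun c _ => ?_
  rw [smul_mul_smul_comm, ← em_mul, em_str hm]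
  have h1 : (fun a => (m a b c : L) * (z b * z' c)) = (z b * z' c) • fun a => (m a b c : L) := by
    funext a
    rw [Pi.smul_apply, smul_eq_mul, mul_comm]
  rw [h1, cmb_smul]
  rfl

end Mul

section AH

variable {T : Pool.Agent.Y121.AH.HodgeTheory ops} {X : 𝒱.Obj} {ι : Type} [Fintype ι]
  [DecidableEq ι] {e : Basis ι T.W.K (T.W.H X)}

lemma exists_str (e : Basis ι T.W.K (T.W.H X)) : ∃ m, IsStr (W := T.W) e m := by
  choose m hm using fun (k i j : ι) => T.rat (e.repr (e i * e j) k)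
  refine ⟨m, fun i j => ?_⟩
  conv_lhs => rw [← e.sum_repr (e i * e j)]
  exact Finset.sum_congr rfl fun k _ => by rw [hm]

/-- The diagonal operators are multiplicative. -/
lemma mG_str {hF : DirectSum.IsInternal (Fx T X)} {m : ι → ι → ι → ℚ}
    (hm : IsStr (W := T.W) e m) {t : ℂ} (ht : t ≠ 0) (a i j : ι) :
    ∑ k, mG hF e (fun k => t ^ k) a k * (m k i j : ℂ) =
      ∑ b, ∑ c, (m a b c : ℂ) *
        (mG hF e (fun k => t ^ k) b i * mG hF e (fun k => t ^ k) c j) := by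
  have h1 : ∀ j, lop T t X (em T.W ℂ (e j)) =
      cmb ℂ e (fun i => mG hF e (fun k => t ^ k) i j) := fun j =>
    dG_basis hF e (fun k => t ^ k) j
  have h2 := lop_mul (T := T) (X := X) ht (em T.W ℂ (e i)) (em T.W ℂ (e j))
  rw [← em_mul, em_str hm, h1, h1, cmb_mul hm] at h2
  have h3 : lop T t X (cmb ℂ e (fun a => (m a i j : ℂ))) =
      cmb ℂ e (fun a => ∑ k, mG hF e (fun k => t ^ k) a k * (m k i j : ℂ)) := by
    rw [cmb_sum, cmb, map_sum]
    refine Finset.sum_congr rfl fun k _ => ?_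
    rw [map_smul, h1]
    have h4 : (fun a => mG hF e (fun k => t ^ k) a k * (m k i j : ℂ)) =
        (m k i j : ℂ) • fun a => mG hF e (fun k => t ^ k) a k := by
      funext a
      rw [Pi.smul_apply, smul_eq_mul, mul_comm]
    rw [h4, cmb_smul]
  rw [h3] at h2
  exact congrFun (cmb_inj e h2) a

end AH

section Op

variable {T : HodgeTheory ops} {ℓ : ℕ} [Fact ℓ.Prime] [Algebra T.W.K ℚ_[ℓ]] {X : 𝒱.Obj}
  {ι : Type} [Fintype ι] [DecidableEq ι] {e : Basis ι T.W.K (T.W.H X)} {H : HData ι}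
  {hF : DirectSum.IsInternal (Fx (toH T) X)} {E : Realization T ℓ}

/-- The operator on the extended cohomology. -/
noncomputable def opV (x : Op E X) (v : (baseW T.W ℚ_[ℓ]).H X) : (baseW T.W ℚ_[ℓ]).H X := x v

lemma opV_add (x : Op E X) (v w : (baseW T.W ℚ_[ℓ]).H X) :
    opV x (v + w) = opV x v + opV x w := map_add x v w

lemma opV_zero (x : Op E X) : opV x (0 : (baseW T.W ℚ_[ℓ]).H X) = 0 := map_zero x

lemma opV_smul (x : Op E X) (c : (baseW T.W ℚ_[ℓ]).K) (v : (baseW T.W ℚ_[ℓ]).H X) :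
    opV x (c • v) = c • opV x v :=
  map_smul x (show ℚ_[ℓ] from c) (show HL T.W ℚ_[ℓ] X from v)

lemma opV_basis (E : Realization T ℓ) (y : Matrix ι ι ℚ_[ℓ]) (j : ι) :
    opV (opL E e y) (em T.W ℚ_[ℓ] (e j)) = cmb ℚ_[ℓ] e (fun i => y i j) := hasMat_opL E y j

lemma opV_sum (x : Op E X) {κ : Type} (s : Finset κ) (f : κ → (baseW T.W ℚ_[ℓ]).H X) :
    opV x (∑ i ∈ s, f i) = ∑ i ∈ s, opV x (f i) := map_sum x f s

lemma opV_cmb (E : Realization T ℓ) (y : Matrix ι ι ℚ_[ℓ]) (z : ι → ℚ_[ℓ]) :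
    opV (opL E e y) (cmb ℚ_[ℓ] e z) = cmb ℚ_[ℓ] e (fun a => ∑ k, y a k * z k) := by
  rw [cmb_sum, cmb, opV_sum]
  refine Finset.sum_congr rfl fun k _ => ?_
  rw [opV_smul, opV_basis]
  have h1 : (fun a => y a k * z k) = z k • fun a => y a k := by
    funext a
    rw [Pi.smul_apply, smul_eq_mul, mul_comm]
  rw [h1, cmb_smul]

/-- The derivation property on the basis. -/
lemma opV_mul_basis (S : Steps) (hH : ∀ t : ℂ, t ≠ 0 → H.l t = mG hF e (fun k => t ^ k))
    {z : Matrix ι ι ℚ_[ℓ]} (hz : Kill H ℚ_[ℓ] z) (i j : ι) :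
    opV (opL E e z) (em T.W ℚ_[ℓ] (e i * e j)) =
      opV (opL E e z) (em T.W ℚ_[ℓ] (e i)) * em T.W ℚ_[ℓ] (e j) +
        em T.W ℚ_[ℓ] (e i) * opV (opL E e z) (em T.W ℚ_[ℓ] (e j)) := by
  obtain ⟨m, hm⟩ := exists_str (T := toH T) e
  have hm' : IsStr (W := T.W) e m := hm
  have h1 := hz.deriv S (m := m) (fun t ht a i j => by
    rw [hH t ht]
    exact mG_str (T := toH T) hm ht a i j)
  rw [em_str (L := ℚ_[ℓ]) hm', opV_cmb, opV_basis, opV_basis,
    ← Pool.Agent.N97.TB.Coord.cmb_single (L := ℚ_[ℓ]) e i,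
    ← Pool.Agent.N97.TB.Coord.cmb_single (L := ℚ_[ℓ]) e j, cmb_mul hm', cmb_mul hm']
  have h2 : ∀ f g : ι → ℚ_[ℓ], cmb ℚ_[ℓ] e f + cmb ℚ_[ℓ] e g = cmb ℚ_[ℓ] e (f + g) := by
    intro f g
    rw [cmb, cmb, cmb, ← Finset.sum_add_distrib]
    refine Finset.sum_congr rfl fun a _ => ?_
    exact (add_smul (sc T.W (f a)) (sc T.W (g a)) _).symm
  rw [h2]
  congr 1
  funext a
  rw [h1 a i j, Pi.add_apply]
  congr 1
  · refine Finset.sum_congr rfl fun b _ => ?_
    rw [Finset.sum_eq_single j]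
    · rw [Pi.single_eq_same, mul_one]
    · intro c _ hc
      rw [Pi.single_eq_of_ne hc, mul_zero, mul_zero]
    · intro h; exact absurd (Finset.mem_univ _) h
  · rw [Finset.sum_comm]
    refine Finset.sum_congr rfl fun c _ => ?_
    rw [Finset.sum_eq_single i]
    · rw [Pi.single_eq_same, one_mul]
    · intro b _ hb
      rw [Pi.single_eq_of_ne hb, zero_mul, mul_zero]
    · intro h; exact absurd (Finset.mem_univ _) h

/-- The derivation property. -/
lemma opV_mul (S : Steps) (hH : ∀ t : ℂ, t ≠ 0 → H.l t = mG hF e (fun k => t ^ k))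
    {z : Matrix ι ι ℚ_[ℓ]} (hz : Kill H ℚ_[ℓ] z) (a b : T.W.H X) :
    opV (opL E e z) (em T.W ℚ_[ℓ] (a * b)) =
      opV (opL E e z) (em T.W ℚ_[ℓ] a) * em T.W ℚ_[ℓ] b +
        em T.W ℚ_[ℓ] a * opV (opL E e z) (em T.W ℚ_[ℓ] b) := by
  have hb : ∀ b : T.W.H X, b ∈ Submodule.span T.W.K (Set.range e) := fun b => by
    rw [e.span_eq]; exact Submodule.mem_top
  have key : ∀ (i : ι) (b : T.W.H X), b ∈ Submodule.span T.W.K (Set.range e) →
      opV (opL E e z) (em T.W ℚ_[ℓ] (e i * b)) =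
      opV (opL E e z) (em T.W ℚ_[ℓ] (e i)) * em T.W ℚ_[ℓ] b +
        em T.W ℚ_[ℓ] (e i) * opV (opL E e z) (em T.W ℚ_[ℓ] b) := by
    intro i b hb
    induction hb using Submodule.span_induction with
    | mem x hx =>
      obtain ⟨j, rfl⟩ := hx
      exact opV_mul_basis S hH hz i j
    | zero => rw [mul_zero, em_zero, opV_zero, mul_zero, mul_zero, add_zero]
    | add x y _ _ hx hy =>
      rw [mul_add, em_add, em_add, opV_add, opV_add, hx, hy, mul_add, mul_add]
      abel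
    | smul c x _ hx =>
      rw [mul_smul_comm, em_smul, em_smul, opV_smul, opV_smul, hx, smul_add, mul_smul_comm,
        mul_smul_comm]
  have ha := hb a
  induction ha using Submodule.span_induction with
  | mem x hx =>
    obtain ⟨j, rfl⟩ := hx
    exact key j b (hb b)
  | zero => rw [zero_mul, em_zero, opV_zero, zero_mul, zero_mul, add_zero]
  | add x y _ _ hx hy =>
    rw [add_mul, em_add, em_add, opV_add, opV_add, hx, hy, add_mul, add_mul]
    abel
  | smul c x _ hx =>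
    rw [smul_mul_assoc, em_smul, em_smul, opV_smul, opV_smul, hx, smul_add, smul_mul_assoc,
      smul_mul_assoc]

/-- **Faithful actions.** -/
theorem faithful_of_gen (S : Steps) (hder : S_DER T ℓ X) {ψ : RForm T.W X}
    (hψ : IsPolarisation T X ψ) {i : ℕ}
    (hi : Algebra.adjoin T.W.K (T.W.gr X i : Set (T.W.H X)) = ⊤) : FaithfulOn E X i := by
  classical
  intro x hx h0
  rcases subsingleton_or_nontrivial (T.W.H X) with hs | hs
  · refine LinearMap.ext fun v => ?_
    have h2 : ∀ v : ℚ_[ℓ] ⊗[T.W.K] T.W.H X, v = 0 := by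
      intro v
      induction v using TensorProduct.induction_on with
      | zero => rfl
      | add x y hx hy => rw [hx, hy, add_zero]
      | tmul z c => rw [Subsingleton.elim c 0, TensorProduct.tmul_zero]
    have h3 : v = 0 := h2 v
    rw [h3, map_zero, map_zero]
  have hP := hψ.isPHS
  obtain ⟨ι, _, _, e, o, deg, heo, hdeg⟩ := exists_ubasis T.W X
  have ho : (1 : ℂ) ⊗ₜ[T.W.K] e o ∈ Fx (toH T) X (0, 0) := by
    rw [heo]
    exact (isHodge_one (T := toH T) (X := X)).2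
  obtain ⟨H, ⟨c, hc⟩, hH⟩ := exists_hdata2 (K := (toH T).W.K) hP e o ho
  obtain ⟨hcl, G, hG, -, -, -⟩ := Pool.Agent.N97.TB.Coord.coord T ℓ X E ι e deg hdeg
  have hinj : ∀ n, Function.Injective (clL (ℓ := ℓ) e n) := fun n => (hcl n).1
  obtain ⟨z, rfl⟩ := exists_mat E e x
  have hz := (hodgeLie_iff hder hinj hH z).1 hx
  have hmul := opV_mul (E := E) S hH hz
  have h1 : opV (opL E e z) (em T.W ℚ_[ℓ] 1) = 0 := by
    have h2 := hmul 1 1
    have h3 : em T.W ℚ_[ℓ] (1 : T.W.H X) = 1 := rfl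
    rw [mul_one, h3, mul_one, one_mul] at h2
    rw [h3]
    exact left_eq_add.1 h2
  have key : ∀ a : T.W.H X, opV (opL E e z) (em T.W ℚ_[ℓ] a) = 0 := by
    intro a
    have ha : a ∈ Algebra.adjoin T.W.K (T.W.gr X i : Set (T.W.H X)) := by
      rw [hi]; exact Algebra.mem_top
    induction ha using Algebra.adjoin_induction with
    | mem x hx => exact h0 x hx
    | algebraMap r =>
      rw [Algebra.algebraMap_eq_smul_one, em_smul, opV_smul, h1, smul_zero]
    | add x y _ _ hx hy => rw [em_add, opV_add, hx, hy, add_zero]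
    | mul x y _ _ hx hy => rw [hmul, hx, hy, zero_mul, mul_zero, add_zero]
  refine (bL ℓ e).ext fun j => ?_
  rw [bL_apply, LinearMap.zero_apply]
  exact key (e j)

end Op

end Pool.Agent.N202.TB
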