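import Pool.Agent.N202.TB.PHS3
import Pool.Agent.N97.TB.Glue

/-!
# The core in terms of cohomology classes
-/

set_option linter.unusedSectionVars false

open CategoryTheory AlgebraicGeometry TensorProduct

universe u

namespace Pool.Agent.N202.TB

open Module Matrix
open Pool.Agent.H914 Pool.Agent.H914.VarClass Pool.Agent.H914.VarClass.Obj
  Pool.Agent.H914.WeilCohomology Pool.Agent.Y121.AHS
open Pool.Agent.Y121.AH (em em_gr em_zero em_add em_smul hodgePred CW)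
open Pool.Agent.Y133.Half (pw wb ClassPred Sys)
open Pool.Agent.N132.Lit (GalOn IsCycCl Comb TateVec)
open Pool.Agent.N132.HT (base_ind)
open Pool.Agent.N996.BP Pool.Agent.N996.BP.Geo
open Pool.Agent.N97.TB.Coord (cmb cmb_gr sc)
open Pool.Agent.N97.TB.Glue (hp comb_of_base base_of_comb em_corr_sum)

variable {k : Type u} [Field k] {𝒱 : VarClass k} {ops : CycleOps 𝒱}

section AH

variable {T : Pool.Agent.Y121.AH.HodgeTheory ops} {X : 𝒱.Obj} {ι : Type} [Fintype ι]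
  [DecidableEq ι] {e : Basis ι T.W.K (T.W.H X)} {deg : ι → ℕ}

/-- The diagonal operators preserve the degrees. -/
lemma mG_deg (he : ∀ j, e j ∈ T.W.gr X (deg j)) (hF : DirectSum.IsInternal (Fx T X)) (t : ℂ)
    {i j : ι} (h : mG hF e (fun k => t ^ k) i j ≠ 0) : deg i = deg j := by
  have h1 : lop T t X (em T.W ℂ (e j)) ∈ (CW T).gr X (deg j) := lop_gr (he j)
  have h2 : lop T t X (em T.W ℂ (e j)) = cmb ℂ e (fun i => mG hF e (fun k => t ^ k) i j) :=
    dG_basis hF e (fun k => t ^ k) j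
  rw [h2] at h1
  exact (cmb_gr e he _ _).1 h1 i h

/-- The form on the pieces of different weights. -/
lemma form_iSup {K V : Type} [Field K] [CharZero K] [Algebra K ℂ] [AddCommGroup V] [Module K V]
    {τ : ℂ ≃ₐ[K] ℂ} {F : ℤ × ℤ → Submodule ℂ (ℂ ⊗[K] V)} {ψ : LinearMap.BilinForm K V} {d : ℕ}
    (hψ : IsPHS τ F ψ d) {m n : ℤ} (hne : m ≠ n) {x y : ℂ ⊗[K] V}
    (hx : x ∈ ⨆ r : {r : ℤ × ℤ // r.1 + r.2 = m}, F (r.1.1, r.1.2))
    (hy : y ∈ ⨆ r : {r : ℤ × ℤ // r.1 + r.2 = n}, F (r.1.1, r.1.2)) :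
    ψ.baseChange ℂ x y = 0 := by
  refine Submodule.iSup_induction (fun r : {r : ℤ × ℤ // r.1 + r.2 = m} => F (r.1.1, r.1.2))
    (motive := fun x => ψ.baseChange ℂ x y = 0) hx ?_ ?_ ?_
  · rintro ⟨⟨p, q⟩, hr⟩ x hx
    refine Submodule.iSup_induction (fun r : {r : ℤ × ℤ // r.1 + r.2 = n} => F (r.1.1, r.1.2))
      (motive := fun y => ψ.baseChange ℂ x y = 0) hy ?_ ?_ ?_
    · rintro ⟨⟨r, s⟩, hr'⟩ y hy
      refine hψ.orth p q r s x hx y hy ?_
      by_contra hcon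
      push Not at hcon
      have h1 : p + q = m := hr
      have h2 : r + s = n := hr'
      apply hne
      rw [← h1, ← h2, hcon.1, hcon.2, add_comm]
    · rw [map_zero]
    · intro a b ha hb; rw [map_add, ha, hb, add_zero]
  · rw [map_zero, LinearMap.zero_apply]
  · intro a b ha hb; rw [map_add, LinearMap.add_apply, ha, hb, add_zero]

/-- The form preserves the degrees. -/
lemma form_deg {ψ : LinearMap.BilinForm T.W.K (T.W.H X)} {d : ℕ}
    (hψ : IsPHS (tauT T) (Fx T X) ψ d) (he : ∀ j, e j ∈ T.W.gr X (deg j)) {i j : ι}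
    (h : ψ (e i) (e j) ≠ 0) : deg i = deg j := by
  by_contra hne
  apply h
  have h2 : ψ.baseChange ℂ ((1 : ℂ) ⊗ₜ[T.W.K] e i) ((1 : ℂ) ⊗ₜ[T.W.K] e j) = 0 :=
    form_iSup hψ (m := (deg i : ℤ)) (n := (deg j : ℤ)) (by exact_mod_cast hne)
      (T.dec.span (he i)) (T.dec.span (he j))
  rw [LinearMap.BilinForm.baseChange_tmul, Algebra.smul_def, mul_one, mul_one] at h2
  exact (map_eq_zero _).1 h2

end AH

/-- The inverse of a matrix which preserves the degrees. -/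
lemma inv_E0 {ι : Type} [Fintype ι] [DecidableEq ι] {deg : ι → ℕ} {Q B : Matrix ι ι ℚ}
    (h : Q * B = 1) (hQ : ∀ i j, Q i j ≠ 0 → deg i = deg j) (i j : ι) (hB : B i j ≠ 0) :
    deg i = deg j := by
  have hQ' : Q ∈ E0 deg ℚ := fun i j hne => by
    by_contra h0
    exact hne (hQ i j h0)
  have h1 := DD_comm hQ'
  have h2 : B * Q = 1 := mul_eq_one_comm.1 h
  have h3 : B * DD deg ℚ = DD deg ℚ * B := by
    calc B * DD deg ℚ = B * DD deg ℚ * (Q * B) := by rw [h, Matrix.mul_one]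
      _ = B * (DD deg ℚ * Q) * B := by simp only [Matrix.mul_assoc]
      _ = (B * Q) * DD deg ℚ * B := by rw [h1]; simp only [Matrix.mul_assoc]
      _ = DD deg ℚ * B := by rw [h2, Matrix.one_mul]
  have h4 := congrFun (congrFun h3 i) j
  rw [DD, Matrix.mul_diagonal, Matrix.diagonal_mul, mul_comm] at h4
  have h5 := mul_right_cancel₀ hB h4
  exact_mod_cast h5.symm

variable {T : HodgeTheory ops} {ℓ : ℕ} [Fact ℓ.Prime] [Algebra T.W.K ℚ_[ℓ]] {X : 𝒱.Obj}
  {ι : Type} [Fintype ι] [DecidableEq ι] {e : Basis ι T.W.K (T.W.H X)}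

section Lin

lemma clL_zero (e : Basis ι T.W.K (T.W.H X)) (n : ℕ) : clL (ℓ := ℓ) e n 0 = 0 := by
  rw [clL]
  exact Finset.sum_eq_zero fun w _ => by rw [Pi.zero_apply, zero_smul]

lemma clL_add (e : Basis ι T.W.K (T.W.H X)) (n : ℕ) (a b : (Fin (n + 1) → ι) → ℚ_[ℓ]) :
    clL e n (a + b) = clL e n a + clL e n b := by
  rw [clL, clL, clL, ← Finset.sum_add_distrib]
  exact Finset.sum_congr rfl fun w _ => by rw [Pi.add_apply, add_smul]

lemma clL_smul (e : Basis ι T.W.K (T.W.H X)) (n : ℕ) (c : ℚ_[ℓ])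
    (a : (Fin (n + 1) → ι) → ℚ_[ℓ]) : clL e n (c • a) = c • clL e n a := by
  rw [clL, clL, Finset.smul_sum]
  exact Finset.sum_congr rfl fun w _ => by rw [Pi.smul_apply, smul_eq_mul, mul_smul]

/-- The class of the rational array. -/
lemma clL_aL (e : Basis ι T.W.K (T.W.H X)) (n : ℕ) (a : (Fin (n + 1) → ι) → ℚ) :
    clL (ℓ := ℓ) e n (aL ℚ_[ℓ] a) = emL T.W ℚ_[ℓ] (cls (T := toH T) e n a) := by
  have h1 : em T.W ℚ_[ℓ] (cls (T := toH T) e n a) =
      ∑ w, em T.W ℚ_[ℓ] (((a w : ℚ) : T.W.K) • wb e n w) := em_corr_sum _ _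
  refine Eq.trans ?_ h1.symm
  rw [clL]
  refine Finset.sum_congr rfl fun w _ => ?_
  have h2 : em T.W ℚ_[ℓ] (((a w : ℚ) : T.W.K) • wb e n w) =
      (algebraMap T.W.K ℚ_[ℓ] ((a w : ℚ) : T.W.K)) • emL T.W ℚ_[ℓ] (wb e n w) := em_smul _ _
  refine Eq.trans ?_ h2.symm
  rw [map_ratCast]
  rfl

end Lin

end Pool.Agent.N202.TB
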