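import Pool.Agent.N996.BP.Defs
import Pool.Agent.N132.Lit.Defs
import Pool.Agent.N202.TB.Alg

/-!
# `ℓ`-adic realizations, the conjectures of Tate and Mumford-Tate, the Lie algebra of the Hodge group:
# definitions

In the intended use the varieties are the smooth projective (geometrically irreducible) ones over a
finitely generated subfield `k` of the complex numbers, with the algebraic cycles over an algebraic
closure of `k`, `T` is the theory `X ↦ H(X(ℂ), ℚ)`, and `L ⊗ H(X)`, `L = ℚ_ℓ`, is the `ℓ`-adic
cohomology with the action of the Galois group `Γ` of `k`.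
-/

open CategoryTheory AlgebraicGeometry

universe u

namespace Pool.Agent.N202.TB

open Pool.Agent.H914 Pool.Agent.H914.VarClass Pool.Agent.H914.VarClass.Obj
  Pool.Agent.H914.WeilCohomology Pool.Agent.Y121.AHS
open Pool.Agent.N132.Lit (GalOn IsCycCl Comb TateVec)
open Pool.Agent.N996.BP (HodgeConjecture)
open Pool.Agent.Y133.Half (pw)

variable {k : Type u} [Field k] {𝒱 : VarClass k} {ops : CycleOps 𝒱}

/-- The `ℓ`-adic realization of a Hodge theory: the actions of a group `Γ` (the Galois group) on the
cohomology with coefficients extended to `ℚ_ℓ`, with the formal properties `GalOn` of a Galois action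
(compatible with degrees, products, traces and cycle classes), compatible with pull-backs, and
continuous: subgroups of finite index move the vectors and the character only a little. -/
structure Realization (T : HodgeTheory ops) (ℓ : ℕ) [Fact ℓ.Prime] [Algebra T.W.K ℚ_[ℓ]] where
  /-- the group -/
  Γ : Type
  [grp : Group Γ]
  /-- the character on the Tate twist -/
  χ : Γ → ℚ_[ℓ]
  one : χ 1 = 1
  mul : ∀ g h, χ (g * h) = χ g * χ h
  /-- the actions -/
  R : ∀ X, GalOn T.W ℚ_[ℓ] χ X
  map : ∀ (X Y : 𝒱.Obj) (f : X ⟶ Y) g y, (R X).ρ g (mapL f y) = mapL f ((R Y).ρ g y)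
  cont : ∀ X, Sh.IsCont ℓ (V := HL T.W ℚ_[ℓ] X) (R X).ρ
  contχ : Sh.IsContChar ℓ χ

attribute [instance] Realization.grp

variable {T : HodgeTheory ops} {ℓ : ℕ} [Fact ℓ.Prime] [Algebra T.W.K ℚ_[ℓ]] (E : Realization T ℓ)
  (X : 𝒱.Obj)

/-- The Tate classes of degree `2 j` on `X`. -/
def IsTate (j : ℕ) (x : HL T.W ℚ_[ℓ] X) : Prop := TateVec (E.R X) j x

/-- The Tate conjecture for `X` (all codimensions, over all finite extensions): the Tate classes are
combinations of classes of algebraic cycles. -/
def TateConjecture : Prop :=
  ∀ j x, IsTate E X j x → Comb T.W.K ℚ_[ℓ] (IsCycCl T.W X j) x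

/-- The Tate classes on `X` are combinations of Hodge classes. -/
def TateIsHodge : Prop := ∀ j x, IsTate E X j x → Comb T.W.K ℚ_[ℓ] (IsHodge T X j) x

/-- The Hodge classes on `X` are Tate classes. -/
def HodgeIsTate : Prop := ∀ j c, IsHodge T X j c → IsTate E X j (emL T.W ℚ_[ℓ] c)

/-- The Mumford-Tate conjecture for the classes on `X`: the Tate classes are combinations of Hodge
classes and the Hodge classes are Tate classes. -/
def MumfordTate : Prop := TateIsHodge E X ∧ HodgeIsTate E X

/-- The linear operators on the cohomology of `X` with coefficients in `ℚ_ℓ`. -/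
abbrev Op (_ : Realization T ℓ) (X : 𝒱.Obj) : Type :=
  Module.End ℚ_[ℓ] (HL T.W ℚ_[ℓ] X)

/-- The space `S` of operators is stable under the conjugations by the elements of `Δ`. -/
def ConjStable (Δ : Subgroup E.Γ) (S : Submodule ℚ_[ℓ] (Op E X)) : Prop :=
  ∀ g ∈ Δ, ∀ s ∈ S, ∀ s' : Op E X, (∀ x, s' ((E.R X).ρ g x) = (E.R X).ρ g (s x)) → s' ∈ S

/-- The adjoint representation of `Γ` on the operators on the cohomology of `X` is semisimple over
all finite extensions: for subgroups of finite index stable subspaces have stable complements. -/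
def AdSemisimple : Prop := ∀ Δ : Subgroup E.Γ, Δ.FiniteIndex → ∀ S : Submodule ℚ_[ℓ] (Op E X),
  ConjStable E X Δ S → ∃ S', ConjStable E X Δ S' ∧ IsCompl S S'

/-- The operators `D n` are the actions of the operator `x` on the cohomology of the powers of `X` as a
derivation: `D 0 = x`, and `D (n + 1)` is given by the product rule. (`pw X n` is the product of
`n + 1` copies of `X`, and `pw X (n + 1)` is the product of `pw X n` and `X`.) -/
def IsDerivation (x : Op E X) (D : ∀ n, Op E (pw X n)) : Prop :=
  D 0 = x ∧ ∀ n a b, D (n + 1) (mulL (mapL (fst (pw X n) X) a) (mapL (snd (pw X n) X) b)) =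
    mulL (mapL (fst (pw X n) X) (D n a)) (mapL (snd (pw X n) X) b) +
      mulL (mapL (fst (pw X n) X) a) (mapL (snd (pw X n) X) (x b))

/-- The operator `x` belongs to the Lie algebra (over `ℚ_ℓ`) of the Hodge group of `X`: it kills the
Hodge classes on all powers of `X`. -/
def InHodgeLie (x : Op E X) : Prop :=
  ∃ D, IsDerivation E X x D ∧ ∀ n j c, IsHodge T (pw X n) j c → D n (emL T.W ℚ_[ℓ] c) = 0

/-- The operator `x` kills the Tate classes on all powers of `X`. -/
def KillsTate (x : Op E X) : Prop :=
  ∃ D, IsDerivation E X x D ∧ ∀ n j c, IsTate E (pw X n) j c → D n c = 0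

/-- The centre of the Lie algebra of the Hodge group kills the Tate classes (in other words, the
centre is contained in the Lie algebra of the Galois group). -/
def CentreKillsTate : Prop := ∀ x, InHodgeLie E X x →
  (∀ y, InHodgeLie E X y → x * y = y * x) → KillsTate E X x

/-- What is known if `X` is an abelian variety (or if the motive of `X` is of abelian type): the Hodge
classes on the powers of `X` are Tate classes (Deligne), the adjoint representation is semisimple
(Faltings), the centre of the Lie algebra of the Hodge group kills the Tate classes (Vasiu, Ullmo and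
Yafaev). -/
structure OfAbelianType : Prop where
  hodgeIsTate : ∀ n, HodgeIsTate E (pw X n)
  semisimple : AdSemisimple E X
  centre : CentreKillsTate E X

end Pool.Agent.N202.TB
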