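import Pool.Agent.N202.TB.Lit

/-!
# The conjectures in one codimension, faithful actions: definitions
-/

open CategoryTheory AlgebraicGeometry

universe u

namespace Pool.Agent.N202.TB

open Pool.Agent.H914 Pool.Agent.H914.VarClass Pool.Agent.H914.VarClass.Obj
  Pool.Agent.H914.WeilCohomology Pool.Agent.Y121.AHS
open Pool.Agent.N132.Lit (GalOn IsCycCl Comb TateVec)

variable {k : Type u} [Field k] {𝒱 : VarClass k} {ops : CycleOps 𝒱} {T : HodgeTheory ops} {ℓ : ℕ}
  [Fact ℓ.Prime] [Algebra T.W.K ℚ_[ℓ]] (E : Realization T ℓ) (X : 𝒱.Obj)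

/-- The Tate classes of degree `2 j` on `X` are combinations of Hodge classes. -/
def TateIsHodgeIn (j : ℕ) : Prop :=
  ∀ x, IsTate E X j x → Comb T.W.K ℚ_[ℓ] (IsHodge T X j) x

/-- The Tate conjecture for the cycles of codimension `j` on `X`. -/
def TateConjectureIn (j : ℕ) : Prop :=
  ∀ x, IsTate E X j x → Comb T.W.K ℚ_[ℓ] (IsCycCl T.W X j) x

/-- The Lie algebra of the Hodge group of `X` acts faithfully on the cohomology of degree `i`. -/
def FaithfulOn (i : ℕ) : Prop := ∀ x, InHodgeLie E X x →
  (∀ c ∈ T.W.gr X i, x (emL T.W ℚ_[ℓ] c) = 0) → x = 0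

/-- The degree `i` determines the cohomology of `X`: the cohomology algebra of `X` is generated by
the classes of degree `i` (as for `i = 1` if `X` is an abelian variety), or the Lie algebra of the
Hodge group of `X` acts faithfully on the cohomology of degree `i` (as for `i = 2` if `X` is a K3
surface). -/
def Determines (i : ℕ) : Prop :=
  Algebra.adjoin T.W.K (T.W.gr X i : Set (T.W.H X)) = ⊤ ∨ FaithfulOn E X i

end Pool.Agent.N202.TB
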