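import Pool.Agent.N202.TB.Geo

/-!
# The main theorem
-/

set_option linter.unusedSectionVars false

open CategoryTheory AlgebraicGeometry TensorProduct

universe u

namespace Pool.Agent.N202.TB

open Module Matrix
open Pool.Agent.H914 Pool.Agent.H914.VarClass Pool.Agent.H914.VarClass.Obj
  Pool.Agent.H914.WeilCohomology Pool.Agent.Y121.AHS
open Pool.Agent.Y121.AH (em em_gr em_zero em_add em_smul hodgePred CW)
open Pool.Agent.Y133.Half (pw wb ClassPred Sys)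
open Pool.Agent.N132.Lit (GalOn IsCycCl Comb TateVec)
open Pool.Agent.N132.HT (base_ind)
open Pool.Agent.N996.BP Pool.Agent.N996.BP.Geo
open Pool.Agent.N97.TB.Coord (cmb cmb_gr sc coord)
open Pool.Agent.N97.TB.Glue (hp comb_of_base base_of_comb em_corr_sum)

variable {k : Type u} [Field k] {𝒱 : VarClass k} {ops : CycleOps 𝒱}
  {T : HodgeTheory ops} {ℓ : ℕ} [Fact ℓ.Prime] [Algebra T.W.K ℚ_[ℓ]] {X : 𝒱.Obj}
  {ι : Type} [Fintype ι] [DecidableEq ι] {e : Basis ι T.W.K (T.W.H X)} {H : HData ι}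
  {hF : DirectSum.IsInternal (Fx (toH T) X)}

section Hodge

variable (hH : ∀ t : ℂ, t ≠ 0 → H.l t = mG hF e (fun k => t ^ k))
include hH

lemma arr_iff (n : ℕ) (a : (Fin (n + 1) → ι) → ℚ) :
    a ∈ BB H (Fin (n + 1)) ↔ cls (T := toH T) e n a ∈ (hp T).sp (pw X n) :=
  (inv_cls (T := toH T) e hH n a).symm.trans inv_iff

/-- Hodge classes are classes of Hodge arrays. -/
lemma exists_arr (n : ℕ) {c : T.W.H (pw X n)} (hc : c ∈ (hp T).sp (pw X n)) :
    ∃ a ∈ BB H (Fin (n + 1)), cls (T := toH T) e n a = c := by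
  obtain ⟨a, rfl⟩ := cls_surj (T := toH T) e n c
  exact ⟨a, (arr_iff hH n a).2 hc, rfl⟩

lemma base_of_hspan {n : ℕ} {a : (Fin (n + 1) → ι) → ℚ_[ℓ]} (ha : a ∈ hspan H ℚ_[ℓ] n) :
    (show (baseW T.W ℚ_[ℓ]).H (pw X n) from clL e n a) ∈ ((hp T).sys.base ℚ_[ℓ]).C (pw X n) := by
  induction ha using Submodule.span_induction with
  | mem x hx =>
    obtain ⟨a, ha, rfl⟩ := hx
    have h1 : (show (baseW T.W ℚ_[ℓ]).H (pw X n) from clL e n (aL ℚ_[ℓ] a)) =
      em T.W ℚ_[ℓ] (cls (T := toH T) e n a) := clL_aL e n a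
    rw [h1]
    exact Submodule.tmul_mem_baseChange_of_mem (1 : ℚ_[ℓ]) ((arr_iff hH n a).1 ha)
  | zero =>
    have h1 : (show (baseW T.W ℚ_[ℓ]).H (pw X n) from clL e n (0 : (Fin (n + 1) → ι) → ℚ_[ℓ])) =
      0 := clL_zero e n
    rw [h1]
    exact Submodule.zero_mem _
  | add a b _ _ ha hb =>
    have h1 : (show (baseW T.W ℚ_[ℓ]).H (pw X n) from clL e n (a + b)) =
      (show (baseW T.W ℚ_[ℓ]).H (pw X n) from clL e n a) +
        (show (baseW T.W ℚ_[ℓ]).H (pw X n) from clL e n b) := clL_add e n a b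
    rw [h1]
    exact Submodule.add_mem _ ha hb
  | smul c a _ ha =>
    have h1 : (show (baseW T.W ℚ_[ℓ]).H (pw X n) from clL e n (c • a)) =
      sc T.W c • (show (baseW T.W ℚ_[ℓ]).H (pw X n) from clL e n a) := clL_smul e n c a
    rw [h1]
    exact Submodule.smul_mem _ _ ha

lemma hspan_of_base {n : ℕ} (hinj : Function.Injective (clL (ℓ := ℓ) e n))
    {a : (Fin (n + 1) → ι) → ℚ_[ℓ]}
    (h : (show (baseW T.W ℚ_[ℓ]).H (pw X n) from clL e n a) ∈
      ((hp T).sys.base ℚ_[ℓ]).C (pw X n)) : a ∈ hspan H ℚ_[ℓ] n := by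
  have key : ∃ a' ∈ hspan H ℚ_[ℓ] n, clL e n a' = clL e n a := by
    refine base_ind (p := (hp T).sys.C (pw X n)) (q := fun x => ∃ a' ∈ hspan H ℚ_[ℓ] n,
      clL e n a' = x) ?_ ?_ ?_ h
    · exact ⟨0, Submodule.zero_mem _, clL_zero e n⟩
    · rintro _ _ ⟨a, ha, rfl⟩ ⟨b, hb, rfl⟩
      exact ⟨a + b, Submodule.add_mem _ ha hb, clL_add e n a b⟩
    · intro l c hc
      obtain ⟨a, ha, rfl⟩ := exists_arr hH n hc
      refine ⟨(show ℚ_[ℓ] from l) • aL ℚ_[ℓ] a, Submodule.smul_mem _ _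
        (Submodule.subset_span ⟨a, ha, rfl⟩), ?_⟩
      rw [clL_smul, clL_aL]
      rfl
  obtain ⟨a', ha', h1⟩ := key
  rw [← hinj h1]
  exact ha'

end Hodge

section Op

/-- The basis of the cohomology with coefficients in `ℚ_ℓ`. -/
noncomputable def bL (ℓ : ℕ) [Fact ℓ.Prime] [Algebra T.W.K ℚ_[ℓ]] (e : Basis ι T.W.K (T.W.H X)) :
    Basis ι ℚ_[ℓ] (HL T.W ℚ_[ℓ] X) := e.baseChange ℚ_[ℓ]

lemma bL_apply (i : ι) : bL ℓ e i = emL T.W ℚ_[ℓ] (e i) := Basis.baseChange_apply _ _ _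

/-- The operator with the given matrix. -/
noncomputable def opL (E : Realization T ℓ) (e : Basis ι T.W.K (T.W.H X))
    (y : Matrix ι ι ℚ_[ℓ]) : Op E X := Matrix.toLin (bL ℓ e) (bL ℓ e) y

lemma hasMat_opL (E : Realization T ℓ) (y : Matrix ι ι ℚ_[ℓ]) : HasMat E e (opL E e y) y := by
  intro j
  have h1 := Matrix.toLin_self (bL ℓ e) (bL ℓ e) y j
  simp only [bL_apply] at h1
  exact h1

lemma exists_mat (E : Realization T ℓ) (e : Basis ι T.W.K (T.W.H X)) (x : Op E X) :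
    ∃ y, x = opL E e y := by
  refine ⟨LinearMap.toMatrix (bL ℓ e) (bL ℓ e) x, ?_⟩
  rw [opL]
  exact (Matrix.toLin_toMatrix _ _ _).symm

lemma opL_mul (E : Realization T ℓ) (y z : Matrix ι ι ℚ_[ℓ]) :
    opL E e (y * z) = opL E e y * opL E e z := by
  rw [opL, opL, opL]
  exact Matrix.toLin_mul (bL ℓ e) (bL ℓ e) (bL ℓ e) y z

lemma opL_inj (E : Realization T ℓ) {y z : Matrix ι ι ℚ_[ℓ]} (h : opL E e y = opL E e z) :
    y = z := (Matrix.toLin (bL ℓ e) (bL ℓ e)).injective h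

variable {E : Realization T ℓ}

lemma hodgeLie_iff (hder : S_DER T ℓ X) (hinj : ∀ n, Function.Injective (clL (ℓ := ℓ) e n))
    (hH : ∀ t : ℂ, t ≠ 0 → H.l t = mG hF e (fun k => t ^ k)) (y : Matrix ι ι ℚ_[ℓ]) :
    InHodgeLie E X (opL E e y) ↔ Kill H ℚ_[ℓ] y := by
  obtain ⟨⟨D0, hD0⟩, hD⟩ := hder E ι e (opL E e y) y (hasMat_opL E y)
  constructor
  · rintro ⟨D, hDer, hk⟩ n a ha
    have key : D n (emL T.W ℚ_[ℓ] (cls (T := toH T) e n a)) = 0 := by
      refine ClassPred.sp_ind (Q := hp T) (q := fun c => D n (emL T.W ℚ_[ℓ] c) = 0) ?_ ?_ ?_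
        ((arr_iff hH n a).1 ha)
      · intro j c hc
        exact hk n j c hc
      · have h0 : emL T.W ℚ_[ℓ] (0 : T.W.H (pw X n)) = 0 := em_zero
        rw [h0, map_zero]
      · intro a b ha hb
        have h1 : emL T.W ℚ_[ℓ] (a + b) = emL T.W ℚ_[ℓ] a + emL T.W ℚ_[ℓ] b := em_add _ _
        rw [h1, map_add, ha, hb, add_zero]
    rw [← clL_aL, hD D hDer] at key
    exact hinj n (key.trans (clL_zero e n).symm)
  · intro hy
    refine ⟨D0, hD0, fun n j c hc => ?_⟩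
    obtain ⟨a, ha, rfl⟩ := exists_arr hH n (ClassPred.sp_of (Q := hp T) hc)
    rw [← clL_aL, hD D0 hD0, hy n a ha, clL_zero]

end Op

/-- **The main theorem.** -/
theorem tateIsHodge_all (S : Steps) (hder : S_DER T ℓ X) (hadss : S_ADSS T ℓ X)
    {E : Realization T ℓ} {ψ : RForm T.W X} (hψ : IsPolarisation T X ψ)
    (h : OfAbelianType E X) (h3 : TateIsHodge E (pw X 3)) (n : ℕ) : TateIsHodge E (pw X n) := by
  classical
  rcases subsingleton_or_nontrivial (T.W.H X) with hs | hs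
  · have h1 : Subsingleton (T.W.H (pw X n)) := by
      have h2 : finrank T.W.K (T.W.H (pw X n)) = 0 := by
        rw [Pool.Agent.Y133.Half.finrank_pw, finrank_zero_of_subsingleton,
          zero_pow (Nat.succ_ne_zero n)]
      exact finrank_zero_iff.1 h2
    intro j x hx
    have h2 : ∀ x : ℚ_[ℓ] ⊗[T.W.K] T.W.H (pw X n), x = 0 := by
      intro x
      induction x using TensorProduct.induction_on with
      | zero => rfl
      | add x y hx hy => rw [hx, hy, add_zero]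
      | tmul z c => rw [Subsingleton.elim c 0, TensorProduct.tmul_zero]
    have h3 : x = 0 := h2 x
    rw [h3]
    exact Submodule.zero_mem _
  have hP := hψ.isPHS
  obtain ⟨ι, _, _, e, o, deg, heo, hdeg⟩ := exists_ubasis T.W X
  have hF : DirectSum.IsInternal (Fx (toH T) X) := hP.int
  have ho : (1 : ℂ) ⊗ₜ[T.W.K] e o ∈ Fx (toH T) X (0, 0) := by
    rw [heo]
    exact (isHodge_one (T := toH T) (X := X)).2
  obtain ⟨H, ⟨c, hc⟩, hH⟩ := exists_hdata2 (K := (toH T).W.K) hP e o ho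
  obtain ⟨hcl, G, hG, hGe, -, hT⟩ := coord T ℓ X E ι e deg hdeg
  have hinj : ∀ n, Function.Injective (clL (ℓ := ℓ) e n) := fun n => (hcl n).1
  have hss : AdSS G := hadss E ι e G hG.one hG.mul hGe h.semisimple
  have hl : ∀ t : ℂ, t ≠ 0 → ∀ i j, H.l t i j ≠ 0 → deg i = deg j := by
    intro t ht i j hij
    rw [hH t ht] at hij
    exact mG_deg (T := toH T) hdeg hP.int t hij
  have hQr : ∀ i j, H.Qr i j ≠ 0 → deg i = deg j := by
    intro i j hij
    have h1 := congrFun (congrFun hc i) j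
    rw [cQ, Matrix.map_apply, Matrix.smul_apply, Matrix.transpose_apply, fM, Matrix.of_apply,
      smul_eq_mul] at h1
    have h2 : (H.Qr i j : ℂ) ≠ 0 := by exact_mod_cast hij
    rw [h1] at h2
    have h3 := right_ne_zero_of_mul h2
    have h4 : (show LinearMap.BilinForm T.W.K (T.W.H X) from ψ) (e j) (e i) ≠ 0 := by
      intro h0
      apply h3
      have h5 := congrArg (algebraMap T.W.K ℂ) h0
      rw [map_zero] at h5
      exact h5
    exact (form_deg (T := toH T) hP hdeg h4).symm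
  have hQ : ∀ i j, H.Qir i j ≠ 0 → deg i = deg j := fun i j hij => inv_E0 H.Qr_Qir hQr i j hij
  have hHT : ∀ n, ∀ a ∈ BB H (Fin (n + 1)), aL ℚ_[ℓ] a ∈ tspan deg G E.χ n := by
    intro n a ha
    have key : ∃ a' ∈ tspan deg G E.χ n, clL e n a' =
        emL T.W ℚ_[ℓ] (cls (T := toH T) e n a) := by
      refine ClassPred.sp_ind (Q := hp T) (q := fun c => ∃ a' ∈ tspan deg G E.χ n, clL e n a' =
        emL T.W ℚ_[ℓ] c) ?_ ?_ ?_ ((arr_iff hH n a).1 ha)
      · intro j c hc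
        obtain ⟨a', ha'⟩ := (hcl n).2 (emL T.W ℚ_[ℓ] c)
        refine ⟨a', Submodule.subset_span ⟨j, (hT n j a').1 ?_⟩, ha'⟩
        rw [ha']
        exact h.hodgeIsTate n j c hc
      · refine ⟨0, Submodule.zero_mem _, ?_⟩
        have h0 : emL T.W ℚ_[ℓ] (0 : T.W.H (pw X n)) = 0 := em_zero
        rw [h0, clL_zero]
      · rintro a b ⟨a', ha, ha'⟩ ⟨b', hb, hb'⟩
        have h1 : emL T.W ℚ_[ℓ] (a + b) = emL T.W ℚ_[ℓ] a + emL T.W ℚ_[ℓ] b := em_add _ _
        exact ⟨a' + b', Submodule.add_mem _ ha hb, by rw [clL_add, ha', hb', h1]⟩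
    obtain ⟨a', ha', h1⟩ := key
    rw [← clL_aL] at h1
    rw [← hinj n h1]
    exact ha'
  have hcen : ∀ y : Matrix ι ι ℚ_[ℓ], Kill H ℚ_[ℓ] y →
      (∀ z : Matrix ι ι ℚ_[ℓ], Kill H ℚ_[ℓ] z → y * z = z * y) →
      ∀ n j a, TateArr deg G E.χ n j a → dp (Fin (n + 1)) y *ᵥ a = 0 := by
    intro y hy hz n j a ha
    obtain ⟨D, hD, hk⟩ := h.centre (opL E e y) ((hodgeLie_iff hder hinj hH y).2 hy) (by
      intro x hx
      obtain ⟨z, rfl⟩ := exists_mat E e x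
      rw [← opL_mul, ← opL_mul, hz z ((hodgeLie_iff hder hinj hH z).1 hx)])
    have h1 := hk n j _ ((hT n j a).2 ha)
    rw [(hder E ι e _ y (hasMat_opL E y)).2 D hD] at h1
    exact hinj n (h1.trans (clL_zero e n).symm)
  have h4 : ∀ a ∈ tspan deg G E.χ 3, a ∈ hspan H ℚ_[ℓ] 3 := by
    intro a ha
    refine (Submodule.span_le (p := hspan H ℚ_[ℓ] 3)).2 ?_ ha
    rintro a ⟨j, ha⟩
    exact hspan_of_base hH (hinj 3) (base_of_comb (hp T) (h3 j _ ((hT 3 j a).2 ha)))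
  intro j x hx
  obtain ⟨a, rfl⟩ := (hcl n).2 x
  have h5 := core S hG hl hQ hQr hHT hss hcen h4 n j a ((hT n j a).1 hx)
  exact comb_of_base (hp T) (base_of_hspan hH h5) hx.1

end Pool.Agent.N202.TB
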