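import Pool.Agent.N202.TB.Main
import Pool.Agent.N202.TB.Core6
import Pool.Agent.N202.TB.Lit2

/-!
# The main theorem in one degree
-/

set_option linter.unusedSectionVars false

open CategoryTheory AlgebraicGeometry TensorProduct

universe u

namespace Pool.Agent.N202.TB

open Module Matrix
open Pool.Agent.H914 Pool.Agent.H914.VarClass Pool.Agent.H914.VarClass.Obj
  Pool.Agent.H914.WeilCohomology Pool.Agent.Y121.AHS
open Pool.Agent.Y121.AH (em em_gr em_zero em_add em_smul hodgePred CW)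
open Pool.Agent.Y133.Half (pw wb ClassPred Sys)
open Pool.Agent.N132.Lit (GalOn IsCycCl Comb TateVec)
open Pool.Agent.N132.HT (base_ind)
open Pool.Agent.N996.BP Pool.Agent.N996.BP.Geo
open Pool.Agent.N97.TB.Coord (cmb cmb_gr sc coord)
open Pool.Agent.N97.TB.Glue (hp comb_of_base base_of_comb em_corr_sum)

variable {k : Type u} [Field k] {𝒱 : VarClass k} {ops : CycleOps 𝒱}
  {T : HodgeTheory ops} {ℓ : ℕ} [Fact ℓ.Prime] [Algebra T.W.K ℚ_[ℓ]] {X : 𝒱.Obj}
  {ι : Type} [Fintype ι] [DecidableEq ι] {e : Basis ι T.W.K (T.W.H X)} {H : HData ι}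
  {hF : DirectSum.IsInternal (Fx (toH T) X)}

/-- **The main theorem in one degree.** -/
theorem tateIsHodge_deg (S : Steps) (hder : S_DER T ℓ X) (hadss : S_ADSS T ℓ X)
    {E : Realization T ℓ} {ψ : RForm T.W X} (hψ : IsPolarisation T X ψ)
    (h : OfAbelianType E X) {i : ℕ} (hi : FaithfulOn E X i)
    (h3 : TateIsHodgeIn E (pw X 3) (2 * i)) (n : ℕ) : TateIsHodge E (pw X n) := by
  classical
  rcases subsingleton_or_nontrivial (T.W.H X) with hs | hs
  · have h1 : Subsingleton (T.W.H (pw X n)) := by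
      have h2 : finrank T.W.K (T.W.H (pw X n)) = 0 := by
        rw [Pool.Agent.Y133.Half.finrank_pw, finrank_zero_of_subsingleton,
          zero_pow (Nat.succ_ne_zero n)]
      exact finrank_zero_iff.1 h2
    intro j x hx
    have h2 : ∀ x : ℚ_[ℓ] ⊗[T.W.K] T.W.H (pw X n), x = 0 := by
      intro x
      induction x using TensorProduct.induction_on with
      | zero => rfl
      | add x y hx hy => rw [hx, hy, add_zero]
      | tmul z c => rw [Subsingleton.elim c 0, TensorProduct.tmul_zero]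
    have h3 : x = 0 := h2 x
    rw [h3]
    exact Submodule.zero_mem _
  have hP := hψ.isPHS
  obtain ⟨ι, _, _, e, o, deg, heo, hdeg⟩ := exists_ubasis T.W X
  have hF : DirectSum.IsInternal (Fx (toH T) X) := hP.int
  have ho : (1 : ℂ) ⊗ₜ[T.W.K] e o ∈ Fx (toH T) X (0, 0) := by
    rw [heo]
    exact (isHodge_one (T := toH T) (X := X)).2
  obtain ⟨H, ⟨c, hc⟩, hH⟩ := exists_hdata2 (K := (toH T).W.K) hP e o ho
  obtain ⟨hcl, G, hG, hGe, -, hT⟩ := coord T ℓ X E ι e deg hdeg
  have hinj : ∀ n, Function.Injective (clL (ℓ := ℓ) e n) := fun n => (hcl n).1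
  have hss : AdSS G := hadss E ι e G hG.one hG.mul hGe h.semisimple
  have hl : ∀ t : ℂ, t ≠ 0 → ∀ i j, H.l t i j ≠ 0 → deg i = deg j := by
    intro t ht i j hij
    rw [hH t ht] at hij
    exact mG_deg (T := toH T) hdeg hP.int t hij
  have hQr : ∀ i j, H.Qr i j ≠ 0 → deg i = deg j := by
    intro i j hij
    have h1 := congrFun (congrFun hc i) j
    rw [cQ, Matrix.map_apply, Matrix.smul_apply, Matrix.transpose_apply, fM, Matrix.of_apply,
      smul_eq_mul] at h1
    have h2 : (H.Qr i j : ℂ) ≠ 0 := by exact_mod_cast hij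
    rw [h1] at h2
    have h3 := right_ne_zero_of_mul h2
    have h4 : (show LinearMap.BilinForm T.W.K (T.W.H X) from ψ) (e j) (e i) ≠ 0 := by
      intro h0
      apply h3
      have h5 := congrArg (algebraMap T.W.K ℂ) h0
      rw [map_zero] at h5
      exact h5
    exact (form_deg (T := toH T) hP hdeg h4).symm
  have hQ : ∀ i j, H.Qir i j ≠ 0 → deg i = deg j := fun i j hij => inv_E0 H.Qr_Qir hQr i j hij
  have hHT : ∀ n, ∀ a ∈ BB H (Fin (n + 1)), aL ℚ_[ℓ] a ∈ tspan deg G E.χ n := by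
    intro n a ha
    have key : ∃ a' ∈ tspan deg G E.χ n, clL e n a' =
        emL T.W ℚ_[ℓ] (cls (T := toH T) e n a) := by
      refine ClassPred.sp_ind (Q := hp T) (q := fun c => ∃ a' ∈ tspan deg G E.χ n, clL e n a' =
        emL T.W ℚ_[ℓ] c) ?_ ?_ ?_ ((arr_iff hH n a).1 ha)
      · intro j c hc
        obtain ⟨a', ha'⟩ := (hcl n).2 (emL T.W ℚ_[ℓ] c)
        refine ⟨a', Submodule.subset_span ⟨j, (hT n j a').1 ?_⟩, ha'⟩
        rw [ha']
        exact h.hodgeIsTate n j c hc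
      · refine ⟨0, Submodule.zero_mem _, ?_⟩
        have h0 : emL T.W ℚ_[ℓ] (0 : T.W.H (pw X n)) = 0 := em_zero
        rw [h0, clL_zero]
      · rintro a b ⟨a', ha, ha'⟩ ⟨b', hb, hb'⟩
        have h1 : emL T.W ℚ_[ℓ] (a + b) = emL T.W ℚ_[ℓ] a + emL T.W ℚ_[ℓ] b := em_add _ _
        exact ⟨a' + b', Submodule.add_mem _ ha hb, by rw [clL_add, ha', hb', h1]⟩
    obtain ⟨a', ha', h1⟩ := key
    rw [← clL_aL] at h1
    rw [← hinj n h1]
    exact ha'
  have hcen : ∀ y : Matrix ι ι ℚ_[ℓ], Kill H ℚ_[ℓ] y →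
      (∀ z : Matrix ι ι ℚ_[ℓ], Kill H ℚ_[ℓ] z → y * z = z * y) →
      ∀ n j a, TateArr deg G E.χ n j a → dp (Fin (n + 1)) y *ᵥ a = 0 := by
    intro y hy hz n j a ha
    obtain ⟨D, hD, hk⟩ := h.centre (opL E e y) ((hodgeLie_iff hder hinj hH y).2 hy) (by
      intro x hx
      obtain ⟨z, rfl⟩ := exists_mat E e x
      rw [← opL_mul, ← opL_mul, hz z ((hodgeLie_iff hder hinj hH z).1 hx)])
    have h1 := hk n j _ ((hT n j a).2 ha)
    rw [(hder E ι e _ y (hasMat_opL E y)).2 D hD] at h1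
    exact hinj n (h1.trans (clL_zero e n).symm)
  have h4 : ∀ a, TateArr deg G E.χ 3 (2 * i) a → a ∈ hspan H ℚ_[ℓ] 3 := fun a ha =>
    hspan_of_base hH (hinj 3) (base_of_comb (hp T) (h3 _ ((hT 3 (2 * i) a).2 ha)))
  have hgen : ∀ y : Matrix ι ι ℚ_[ℓ], Kill H ℚ_[ℓ] y →
      (∀ a b, deg b = i → y a b = 0) → y = 0 := by
    intro y hy h0
    refine opL_inj (e := e) E ?_
    have h1 : opL E e (0 : Matrix ι ι ℚ_[ℓ]) = 0 := by
      rw [opL]
      exact map_zero _
    rw [h1]
    refine hi _ ((hodgeLie_iff hder hinj hH y).2 hy) fun c hc => ?_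
    have h2 : c = ∑ b, (if deg b = i then e.repr c b else 0) • e b := by
      have h3 : H914.proj (T.W.isInternal X) i c = c := proj_same _ hc
      conv_lhs => rw [← h3, ← e.sum_repr c, map_sum]
      refine Finset.sum_congr rfl fun b _ => ?_
      rw [map_smul]
      by_cases hb : deg b = i
      · rw [if_pos hb, proj_same]
        rw [← hb]
        exact hdeg b
      · rw [if_neg hb, proj_ne _ (hdeg b) hb, smul_zero, zero_smul]
    have h3 : emL T.W ℚ_[ℓ] c = ∑ b, emL T.W ℚ_[ℓ] ((if deg b = i then e.repr c b else 0) • e b) := by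
      conv_lhs => rw [h2]
      exact em_corr_sum _ _
    rw [h3, map_sum]
    refine Finset.sum_eq_zero fun b _ => ?_
    have h4 : emL T.W ℚ_[ℓ] ((if deg b = i then e.repr c b else 0) • e b) =
        (algebraMap T.W.K ℚ_[ℓ] (if deg b = i then e.repr c b else 0)) • emL T.W ℚ_[ℓ] (e b) :=
      em_smul _ _
    rw [h4, map_smul]
    by_cases hb : deg b = i
    · have h5 := hasMat_opL (e := e) E y b
      rw [h5, Finset.sum_eq_zero (fun a _ => by rw [h0 a b hb, zero_smul]), smul_zero]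
    · rw [if_neg hb, map_zero, zero_smul]
  intro j x hx
  obtain ⟨a, rfl⟩ := (hcl n).2 x
  have h5 := core_deg S hG hl hQ hQr hHT hss hcen i hgen h4 n j a ((hT n j a).1 hx)
  exact comb_of_base (hp T) (base_of_hspan hH h5) hx.1

end Pool.Agent.N202.TB
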