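import Pool.Agent.N202.TB.Core5
import Pool.Agent.N996.BP.PHS2

/-!
# Polarised Hodge structures in coordinates: the form

The proof of the main theorem is the proof of `Pool.Agent.N996.BP.IsPHS.exists_hdata`, with the
additional information about the form.
-/

set_option linter.unusedSectionVars false

open TensorProduct

namespace Pool.Agent.N202.TB

open Module Matrix ComplexConjugate
open Pool.Agent.H914 (sig sig_tmul sig_smul)
open Pool.Agent.Y121.AH (dia dia_apply ind_of_top)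
open Pool.Agent.N996.BP Pool.Agent.N996.BP.IsPHS

variable {K : Type} [Field K] [CharZero K] [Algebra K ℂ] {V : Type} [AddCommGroup V] [Module K V]
  {ι : Type} [Fintype ι] [DecidableEq ι] {τ : ℂ ≃ₐ[K] ℂ}
  {F : ℤ × ℤ → Submodule ℂ (ℂ ⊗[K] V)} {ψ : LinearMap.BilinForm K V} {d : ℕ}

/-- The coordinate form of a polarised Hodge structure. -/
theorem exists_hdata2 (h : IsPHS τ F ψ d) (e : Basis ι K V) (o : ι)
    (ho : (1 : ℂ) ⊗ₜ[K] e o ∈ F (0, 0)) : ∃ H : HData ι, (∃ c : ℚ, cQ H.Qr = (c : ℂ) • (fM e ψ)ᵀ) ∧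
      ∀ t : ℂ, t ≠ 0 → H.l t = mG h.int e (fun k => t ^ k) := by
  classical
  -- the rational matrix of the form
  have hP : ∃ P : Matrix ι ι ℚ, fM e ψ = cQ P := by
    choose P hP using fun i j => h.rat (ψ (e i) (e j))
    refine ⟨Matrix.of P, ?_⟩
    ext i j
    rw [fM, Matrix.of_apply, ← hP, cQ, Matrix.map_apply, Matrix.of_apply, map_ratCast]
  obtain ⟨P, hP⟩ := hP
  -- the Weil operator
  have hIr : ∀ n : ℤ, conj (Complex.I ^ (-n)) = Complex.I ^ n := by
    intro n
    rw [map_zpow₀, Complex.conj_I, _root_.zpow_neg, ← _root_.inv_zpow, inv_neg, Complex.inv_I,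
      neg_neg]
  have hreal : ∀ f : ℤ → ℂ, (∀ n, conj (f (-n)) = f n) →
      cR ((mG h.int e f).map Complex.re) = mG h.int e f := by
    intro f hf
    ext i j
    have h1 := congrFun (congrFun (h.mG_conj e f) i) j
    have h2 : (fun k => conj (f (-k))) = f := funext hf
    rw [h2, Matrix.map_apply] at h1
    rw [cR, Matrix.map_apply, Matrix.map_apply]
    exact Complex.conj_eq_iff_re.1 h1
  obtain ⟨C, hC⟩ : ∃ C : Matrix ι ι ℝ, cR C = mG h.int e (fun k => Complex.I ^ k) :=
    ⟨_, hreal _ hIr⟩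
  obtain ⟨Ci, hCi⟩ : ∃ Ci : Matrix ι ι ℝ, cR Ci = mG h.int e (fun k => Complex.I ^ (-k)) :=
    ⟨_, hreal _ fun n => by rw [hIr]⟩
  have hCC : C * Ci = 1 := by
    apply cR_inj
    rw [cR_mul, hC, hCi, mG_mul, cR_one, ← mG_one h.int e]
    congr 1
    funext k
    rw [← zpow_add₀ Complex.I_ne_zero, add_neg_cancel, zpow_zero]
  obtain ⟨P', hP'⟩ : ∃ P' : Matrix ι ι ℝ, P' = P.map fun x : ℚ => (x : ℝ) := ⟨_, rfl⟩
  obtain ⟨S', hS'⟩ : ∃ S' : Matrix ι ι ℝ, S' = P'ᵀ * C := ⟨_, rfl⟩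
  have hcS : cR S' = (cQ P)ᵀ * cR C := by
    rw [hS', cR_mul, ← cR_cQ P, ← hP']
    rfl
  -- positivity
  have hpos : ∀ z : ι → ℂ, ∃ ρ : ℝ, (fun i => conj (z i)) ⬝ᵥ (cR S' *ᵥ z) = ρ ∧
      (z ≠ 0 → 0 < ρ) := by
    intro z
    obtain ⟨x, rfl⟩ := crd_surj e z
    obtain ⟨ρ, h1, -, h2⟩ := h.exists_pos x
    refine ⟨ρ, ?_, fun hx => h2 ?_⟩
    · rw [← h1, form_crd e, crd_dG, crd_sig e h.tau, hP, hcS, hC, ← Matrix.mulVec_mulVec,
        Matrix.mulVec_transpose, dotProduct_comm, ← Matrix.dotProduct_mulVec]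
    · rintro rfl
      exact hx (crd_zero e)
  have hposr : ∀ u : ι → ℝ, u ≠ 0 → 0 < u ⬝ᵥ (S' *ᵥ u) := by
    intro u hu
    obtain ⟨ρ, h1, h2⟩ := hpos fun i => (u i : ℂ)
    have h3 : (fun i => (u i : ℂ)) ≠ 0 := by
      intro h0
      apply hu
      ext i
      have := congrFun h0 i
      exact Complex.ofReal_eq_zero.1 this
    have h4 : (fun i => conj ((u i : ℂ))) = fun i => (u i : ℂ) := by
      ext i; rw [Complex.conj_ofReal]
    rw [h4, cR_dot] at h1
    have h5 : u ⬝ᵥ (S' *ᵥ u) = ρ := by exact_mod_cast h1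
    rw [h5]
    exact h2 h3
  have hsym : ∀ u v : ι → ℝ, u ⬝ᵥ (S' *ᵥ v) = v ⬝ᵥ (S' *ᵥ u) := by
    intro u v
    obtain ⟨ρ, h1, -⟩ := hpos ((fun i => (u i : ℂ)) + Complex.I • fun i => (v i : ℂ))
    have h2 : (fun i => conj (((fun i => (u i : ℂ)) + Complex.I • fun i => (v i : ℂ)) i)) =
        (fun i => (u i : ℂ)) - Complex.I • fun i => (v i : ℂ) := by
      ext i
      simp [sub_eq_add_neg]
    rw [h2, Matrix.mulVec_add, Matrix.mulVec_smul, sub_dotProduct, dotProduct_add,
      dotProduct_add, smul_dotProduct, smul_dotProduct, dotProduct_smul, dotProduct_smul, cR_dot,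
      cR_dot, cR_dot, cR_dot] at h1
    have h3 := congrArg Complex.im h1
    simp only [smul_eq_mul, Complex.sub_im, Complex.add_im, Complex.ofReal_im, Complex.mul_im,
      Complex.I_re, Complex.I_im, Complex.ofReal_re, Complex.mul_re] at h3
    linarith
  -- the normalisation
  have hoo : 0 < P o o := by
    obtain ⟨ρ, h1, h2, h3⟩ := h.exists_pos ((1 : ℂ) ⊗ₜ[K] e o)
    rw [dG_apply h.int _ ho, sub_zero, zpow_zero, one_smul, sig_tmul, map_one,
      LinearMap.BilinForm.baseChange_tmul] at h1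
    have h4 := congrFun (congrFun hP o) o
    rw [fM, Matrix.of_apply, cQ, Matrix.map_apply] at h4
    rw [Algebra.smul_def, h4, mul_one, mul_one] at h1
    have h5 : ((P o o : ℚ) : ℝ) = ρ := by exact_mod_cast h1
    have h6 : (1 : ℂ) ⊗ₜ[K] e o ≠ 0 := by
      have := (e.baseChange ℂ).ne_zero o
      rwa [Basis.baseChange_apply] at this
    have h7 := h3 h6
    rw [← h5] at h7
    exact_mod_cast h7
  obtain ⟨Qr, hQr⟩ : ∃ Qr : Matrix ι ι ℚ, Qr = (P o o)⁻¹ • Pᵀ := ⟨_, rfl⟩
  obtain ⟨Q, hQ⟩ : ∃ Q : Matrix ι ι ℝ, Q = Qr.map fun x : ℚ => (x : ℝ) := ⟨_, rfl⟩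
  have hQP : Q = ((P o o : ℚ) : ℝ)⁻¹ • P'ᵀ := by
    ext i j
    rw [hQ, hQr, hP']
    simp
  have hQC : Q * C = ((P o o : ℚ) : ℝ)⁻¹ • S' := by
    rw [hQP, hS', Matrix.smul_mul]
  have hc : (0 : ℝ) < ((P o o : ℚ) : ℝ)⁻¹ := by
    rw [inv_pos]
    exact_mod_cast hoo
  obtain ⟨M, Mi, hM, hMS⟩ := exists_sqrt (S := Q * C)
    (fun u v => by
      rw [hQC, Matrix.smul_mulVec, Matrix.smul_mulVec, dotProduct_smul, dotProduct_smul, hsym])
    (fun u hu => by
      rw [hQC, Matrix.smul_mulVec, dotProduct_smul, smul_eq_mul]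
      exact mul_pos hc (hposr u hu))
  -- the inverse of the form
  have hdet : Qr.det ≠ 0 := by
    intro h0
    have h1 : (Q * C).det = 0 := by
      rw [Matrix.det_mul, hQ]
      have h2 : (Qr.map fun x : ℚ => (x : ℝ)).det = ((Qr.det : ℚ) : ℝ) := by
        have := (RingHom.map_det (Rat.castHom ℝ) Qr).symm
        exact this
      rw [h2, h0]
      simp
    rw [← hMS, Matrix.det_mul, Matrix.det_transpose, mul_self_eq_zero] at h1
    have h2 := congrArg Matrix.det hM
    rw [Matrix.det_mul, h1, zero_mul, Matrix.det_one] at h2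
    exact zero_ne_one h2
  have hQQ : Qr * Qr⁻¹ = 1 := Matrix.mul_nonsing_inv Qr (isUnit_iff_ne_zero.2 hdet)
  -- the form and the diagonal operators
  have hform : ∀ f : ℤ → ℂ, (mG h.int e f)ᵀ * cQ Qr = cQ Qr * mG h.int e (fun k => f (-k)) := by
    intro f
    have h1 := congrArg Matrix.transpose (h.mG_form e (fun k => f (-k)))
    rw [Matrix.transpose_mul, Matrix.transpose_mul, Matrix.transpose_transpose, hP] at h1
    simp only [neg_neg] at h1
    have h2 : cQ Qr = ((P o o : ℚ) : ℂ)⁻¹ • (cQ P)ᵀ := by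
      ext i j
      rw [hQr]
      simp [cQ]
    rw [h2, Matrix.mul_smul, Matrix.smul_mul, h1]
  obtain ⟨π, hπ⟩ : ∃ π : ℤ → Matrix ι ι ℂ, π = fun k => mG h.int e
    (fun j => if j = k then 1 else 0) := ⟨_, rfl⟩
  have hlt : ∀ t : ℂ, lt d π t = mG h.int e (fun k => t ^ k) := by
    intro t
    have h1 : lt d π t = mG h.int e (fun j => ∑ k ∈ Finset.Icc (-d : ℤ) d,
        t ^ k * (if j = k then 1 else 0)) := by
      rw [mG_sum, lt]
      refine Finset.sum_congr rfl fun k _ => ?_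
      rw [mG_smul, hπ]
    rw [h1]
    refine mG_congr h.int e h.range fun j hj => ?_
    rw [Finset.sum_eq_single j]
    · rw [if_pos rfl, mul_one]
    · intro k _ hk; rw [if_neg (Ne.symm hk), mul_zero]
    · intro hn; exact absurd hj hn
  have hcol : ∀ t : ℂ, ∀ i, mG h.int e (fun k => t ^ k) i o = if i = o then 1 else 0 := by
    intro t i
    have h1 := congrArg (fun x => crd e x i) (dG_apply h.int (fun k => t ^ k) ho)
    have h3 : crd e ((1 : ℂ) ⊗ₜ[K] e o) = Pi.single o 1 := by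
      ext l
      rw [crd_tmul, one_mul, Basis.repr_self, Finsupp.single_apply, Pi.single_apply]
      by_cases hl : o = l
      · rw [if_pos hl, if_pos hl.symm, map_one]
      · rw [if_neg hl, if_neg (Ne.symm hl), map_zero]
    simp only [sub_zero, zpow_zero, one_smul] at h1
    rw [crd_dG, h3, Matrix.mulVec_single_one, Pi.single_apply] at h1
    exact h1
  have hQoo : Qr o o = 1 := by
    rw [hQr, Matrix.smul_apply, Matrix.transpose_apply, smul_eq_mul, inv_mul_cancel₀ hoo.ne']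
  have hCQC : Cᵀ * Q * C = Q := by
    apply cR_inj
    rw [cR_mul, cR_mul, hQ, cR_cQ]
    have h1 : cR Cᵀ = (mG h.int e (fun k => Complex.I ^ k))ᵀ := by
      rw [← hC]
      rfl
    rw [h1, hC, hform, Matrix.mul_assoc, mG_mul]
    have h2 : (fun k : ℤ => Complex.I ^ (-k) * Complex.I ^ k) = fun _ => 1 := by
      funext k
      rw [← zpow_add₀ Complex.I_ne_zero, neg_add_cancel, zpow_zero]
    rw [h2, mG_one, Matrix.mul_one]
  refine ⟨{
    D := {
      Q := Q
      Qi := (Qr⁻¹).map fun x : ℚ => (x : ℝ)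
      C := C
      Ci := Ci
      M := M
      Mi := Mi
      o := o
      hQ := ?_
      hC := hCC
      hM := hM
      hS := hMS
      hCQ := hCQC
      ho := ?_
      hCo := ?_ }
    Qr := Qr
    Qir := Qr⁻¹
    w := d
    π := π
    hQr := hQ
    hQir := rfl
    h1 := ?_
    hmul := ?_
    hπQ := ?_
    hconj := ?_
    hC := ?_
    ho := ?_ }, ⟨(P o o)⁻¹, ?_⟩, fun t _ => hlt t⟩
  · apply cR_inj
    rw [cR_mul, hQ, cR_cQ, cR_cQ, ← cQ_mul, hQQ, cQ_one, cR_one]
  · rw [hQ, Matrix.map_apply, hQoo]; simp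
  · intro i
    have h1 := hcol Complex.I i
    rw [← hC, cR, Matrix.map_apply] at h1
    have h2 : (C i o : ℂ) = (((if i = o then 1 else 0 : ℝ)) : ℂ) := by
      rw [h1]
      split_ifs <;> simp
    exact_mod_cast h2
  · have h1 := hlt 1
    rw [lt] at h1
    simp only [_root_.one_zpow, one_smul] at h1
    rw [h1, mG_one]
  · intro k _ l _
    rw [hπ]
    simp only
    rw [mG_mul]
    by_cases hkl : k = l
    · subst hkl
      rw [if_pos rfl]
      congr 1
      funext j
      split_ifs <;> simp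
    · rw [if_neg hkl]
      have h2 : (fun j : ℤ => (if j = k then (1 : ℂ) else 0) * (if j = l then 1 else 0)) =
          fun j => 0 * 1 := by
        funext j
        by_cases hj : j = k
        · rw [if_neg (fun h => hkl (hj.symm.trans h))]; simp
        · rw [if_neg hj]; simp
      rw [h2, mG_smul, zero_smul]
  · intro k _
    rw [hπ]
    simp only
    rw [hform]
    congr 2
    funext j
    have : (-j = k) ↔ (j = -k) := by omega
    simp only [this]
  · intro k _
    rw [hπ]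
    simp only
    rw [h.mG_conj]
    congr 1
    funext j
    have : (-j = k) ↔ (j = -k) := by omega
    simp only [this]
    split_ifs <;> simp
  · rw [hlt]
    exact hC
  · intro t _ i
    rw [hlt]
    exact hcol t i
  · change cQ Qr = _
    rw [hP, hQr]
    ext i j
    simp [cQ]


end Pool.Agent.N202.TB
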