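import Pool.Agent.N202.TB.Lit
import Pool.Agent.N202.TB.Stm
import Pool.Agent.N996.BP.Fin1

/-!
# Statements of the steps: coordinates
-/

set_option linter.unusedSectionVars false

open CategoryTheory AlgebraicGeometry TensorProduct

universe u

namespace Pool.Agent.N202.TB

open Module Matrix
open Pool.Agent.H914 Pool.Agent.H914.VarClass Pool.Agent.H914.VarClass.Obj
  Pool.Agent.H914.WeilCohomology Pool.Agent.Y121.AHS
open Pool.Agent.Y133.Half (pw wb)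
open Pool.Agent.N132.Lit (GalOn IsCycCl Comb TateVec)
open Pool.Agent.N996.BP

variable {k : Type u} [Field k] {𝒱 : VarClass k} {ops : CycleOps 𝒱} {T : HodgeTheory ops}
  {ℓ : ℕ} [Fact ℓ.Prime] [Algebra T.W.K ℚ_[ℓ]] {X : 𝒱.Obj} {ι : Type} [Fintype ι] [DecidableEq ι]

/-- The class on the power given by the array `a`. -/
noncomputable def clL (e : Basis ι T.W.K (T.W.H X)) (n : ℕ) (a : (Fin (n + 1) → ι) → ℚ_[ℓ]) :
    HL T.W ℚ_[ℓ] (pw X n) :=
  ∑ w, a w • emL T.W ℚ_[ℓ] (wb e n w)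

/-- The operator `x` has the matrix `y`. -/
def HasMat (E : Realization T ℓ) (e : Basis ι T.W.K (T.W.H X)) (x : Op E X)
    (y : Matrix ι ι ℚ_[ℓ]) : Prop :=
  ∀ j, x (emL T.W ℚ_[ℓ] (e j)) = ∑ i, y i j • emL T.W ℚ_[ℓ] (e i)

variable (T ℓ X) in
/-- TB/5: the classes on the powers in coordinates. -/
def S_COORD : Prop := ∀ (E : Realization T ℓ) (ι : Type) [Fintype ι] [DecidableEq ι]
  (e : Basis ι T.W.K (T.W.H X)) (deg : ι → ℕ), (∀ j, e j ∈ T.W.gr X (deg j)) →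
  (∀ n, Function.Bijective (clL (ℓ := ℓ) e n)) ∧
  ∃ G : E.Γ → Matrix ι ι ℚ_[ℓ], GalArr deg G E.χ ∧
    (∀ g j, (E.R X).ρ g (emL T.W ℚ_[ℓ] (e j)) = ∑ i, G g i j • emL T.W ℚ_[ℓ] (e i)) ∧
    (∀ n g a, (E.R (pw X n)).ρ g (clL e n a) = clL e n (kp (Fin (n + 1)) (G g) *ᵥ a)) ∧
    ∀ n j a, IsTate E (pw X n) j (clL e n a) ↔ TateArr deg G E.χ n j a

variable (T ℓ X) in
/-- TB/6: derivations in coordinates. -/
def S_DER : Prop := ∀ (E : Realization T ℓ) (ι : Type) [Fintype ι] [DecidableEq ι]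
  (e : Basis ι T.W.K (T.W.H X)) (x : Op E X) (y : Matrix ι ι ℚ_[ℓ]), HasMat E e x y →
    (∃ D, IsDerivation E X x D) ∧ ∀ D, IsDerivation E X x D → ∀ n a,
      D n (clL e n a) = clL e n (dp (Fin (n + 1)) y *ᵥ a)

variable (T ℓ X) in
/-- TB/6: the adjoint representation in coordinates. -/
def S_ADSS : Prop := ∀ (E : Realization T ℓ) (ι : Type) [Fintype ι] [DecidableEq ι]
  (e : Basis ι T.W.K (T.W.H X)) (G : E.Γ → Matrix ι ι ℚ_[ℓ]), G 1 = 1 →
    (∀ g h, G (g * h) = G g * G h) →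
    (∀ g j, (E.R X).ρ g (emL T.W ℚ_[ℓ] (e j)) = ∑ i, G g i j • emL T.W ℚ_[ℓ] (e i)) →
    AdSemisimple E X → AdSS G

variable (T ℓ X) in
/-- TB/7: the conjectures of Tate and Hodge, if the Tate classes on the powers are combinations of
Hodge classes. -/
def S_GLUE : Prop := ∀ (E : Realization T ℓ) (ψ : RForm T.W X), IsPolarisation T X ψ →
  (∀ n, HodgeIsTate E (pw X n)) →
  (TateConjecture E (pw X 3) → TateIsHodge E (pw X 3)) ∧
  (∀ N n, n ≤ N → TateConjecture E (pw X N) → TateConjecture E (pw X n)) ∧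
  ((∀ n, TateIsHodge E (pw X n)) →
    (∀ n, TateConjecture E (pw X n) ↔ HodgeConjecture T (pw X n)) ∧
    (∀ Y, FromPowers T X Y → (TateConjecture E Y ↔ HodgeConjecture T Y)) ∧
    (TateConjecture E (pw X (exponent (totalBetti T X) - 1)) →
      (∀ n, TateConjecture E (pw X n) ∧ HodgeConjecture T (pw X n)) ∧
      ∀ Y, FromPowers T X Y → TateConjecture E Y ∧ HodgeConjecture T Y))

end Pool.Agent.N202.TB
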